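import Mathlib

/-!
# An approximate inverse from repeated squaring with rounding errors
-/

set_option autoImplicit false

open Matrix
open scoped Matrix.Norms.L2Operator

namespace Pool.Agent.L5helper99.RL

variable {n : ℕ}

/-- the square of the Euclidean norm -/
def q (v : Fin n → ℝ) : ℝ := v ⬝ᵥ v

lemma q_eq (v : Fin n → ℝ) : q v = ∑ i, v i ^ 2 := by
  unfold q dotProduct
  exact Finset.sum_congr rfl fun i _ => by ring

lemma q_nonneg (v : Fin n → ℝ) : 0 ≤ q v := by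
  rw [q_eq]; exact Finset.sum_nonneg fun i _ => sq_nonneg _

lemma norm_sq_toLp (v : Fin n → ℝ) : ‖(WithLp.toLp 2 v : EuclideanSpace ℝ (Fin n))‖ ^ 2 = q v := by
  rw [EuclideanSpace.norm_sq_eq, q_eq]
  exact Finset.sum_congr rfl fun i _ => by simp

lemma q_mulVec_le (M : Matrix (Fin n) (Fin n) ℝ) (v : Fin n → ℝ) :
    q (M *ᵥ v) ≤ ‖M‖ ^ 2 * q v := by
  have h := (toEuclideanCLM (𝕜 := ℝ) M).le_opNorm (WithLp.toLp 2 v : EuclideanSpace ℝ (Fin n))
  rw [toEuclideanCLM_toLp, ← cstar_norm_def] at h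
  rw [← norm_sq_toLp, ← norm_sq_toLp, ← mul_pow]
  exact pow_le_pow_left₀ (norm_nonneg _) h 2

lemma norm_le_of (M : Matrix (Fin n) (Fin n) ℝ) {c : ℝ} (hc : 0 ≤ c)
    (h : ∀ v : Fin n → ℝ, q (M *ᵥ v) ≤ c ^ 2 * q v) : ‖M‖ ≤ c := by
  rw [cstar_norm_def]
  refine ContinuousLinearMap.opNorm_le_bound _ hc fun x => ?_
  have h1 := h x.ofLp
  rw [← norm_sq_toLp, ← norm_sq_toLp, ← mul_pow] at h1
  have h2 := abs_le_of_sq_le_sq h1 (by positivity)
  rw [abs_of_nonneg (norm_nonneg _)] at h2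
  exact h2

lemma q_mul_le (v w : Fin n → ℝ) : (v ⬝ᵥ w) ^ 2 ≤ q v * q w := by
  unfold dotProduct
  rw [q_eq, q_eq]
  exact Finset.sum_mul_sq_le_sq_mul_sq _ _ _

lemma norm_le_frob (M : Matrix (Fin n) (Fin n) ℝ) {c : ℝ} (hc : 0 ≤ c)
    (h : ∑ i, ∑ j, M i j ^ 2 ≤ c ^ 2) : ‖M‖ ≤ c := by
  refine norm_le_of M hc fun v => ?_
  rw [q_eq (M *ᵥ v)]
  calc ∑ i, (M *ᵥ v) i ^ 2 ≤ ∑ i, (∑ j, M i j ^ 2) * q v := by
        refine Finset.sum_le_sum fun i _ => ?_
        have := q_mul_le (M i) v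
        rw [q_eq (M i)] at this
        exact this
    _ = (∑ i, ∑ j, M i j ^ 2) * q v := by rw [Finset.sum_mul]
    _ ≤ c ^ 2 * q v := mul_le_mul_of_nonneg_right h (q_nonneg v)

lemma norm_le_entries (M : Matrix (Fin n) (Fin n) ℝ) {c : ℝ} (hc : 0 ≤ c)
    (h : ∀ i j, |M i j| ≤ c) : ‖M‖ ≤ n * c := by
  refine norm_le_frob M (by positivity) ?_
  calc ∑ i, ∑ j, M i j ^ 2 ≤ ∑ _i : Fin n, ∑ _j : Fin n, c ^ 2 := by
        refine Finset.sum_le_sum fun i _ => Finset.sum_le_sum fun j _ => ?_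
        rw [← sq_abs]
        exact pow_le_pow_left₀ (abs_nonneg _) (h i j) 2
    _ = (n * c) ^ 2 := by simp; ring

lemma entry_le (M : Matrix (Fin n) (Fin n) ℝ) (i j : Fin n) : |M i j| ≤ ‖M‖ := by
  have h := q_mulVec_le M (Pi.single j 1)
  have h1 : q (Pi.single j (1 : ℝ) : Fin n → ℝ) = 1 := by
    rw [q]; simp
  rw [h1, mul_one, mulVec_single_one, q_eq] at h
  have h2 : M i j ^ 2 ≤ ‖M‖ ^ 2 := by
    refine le_trans ?_ h
    exact Finset.single_le_sum (f := fun i => M.col j i ^ 2) (fun i _ => sq_nonneg _)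
      (Finset.mem_univ i)
  exact abs_le_of_sq_le_sq h2 (norm_nonneg _)

lemma norm_tr (M : Matrix (Fin n) (Fin n) ℝ) : ‖Mᵀ‖ = ‖M‖ := by
  rw [← conjTranspose_eq_transpose_of_trivial]
  exact l2_opNorm_conjTranspose M

/-- a symmetric matrix with quadratic form between `0` and `c` has norm at most `c` -/
lemma contraction (D : Matrix (Fin n) (Fin n) ℝ) (hD : Dᵀ = D) {c : ℝ} (hc : 0 < c)
    (h0 : ∀ v, 0 ≤ v ⬝ᵥ D *ᵥ v) (h1 : ∀ v, v ⬝ᵥ D *ᵥ v ≤ c * q v) : ‖D‖ ≤ c := by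
  refine norm_le_of D hc.le fun v => ?_
  set u := D *ᵥ v with hu
  have hs : ∀ a b : Fin n → ℝ, a ⬝ᵥ D *ᵥ b = b ⬝ᵥ D *ᵥ a := by
    intro a b
    rw [dotProduct_mulVec, ← mulVec_transpose, hD, dotProduct_comm]
  have h2 := h0 (v - (1 / c) • u)
  have h3 : (v - (1 / c) • u) ⬝ᵥ D *ᵥ (v - (1 / c) • u) =
      v ⬝ᵥ D *ᵥ v - 2 * (1 / c) * q u + (1 / c) ^ 2 * (u ⬝ᵥ D *ᵥ u) := by
    rw [mulVec_sub, mulVec_smul, sub_dotProduct, dotProduct_sub, dotProduct_sub]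
    simp only [smul_dotProduct, dotProduct_smul, smul_eq_mul]
    rw [hs v u]
    have : u ⬝ᵥ D *ᵥ v = q u := rfl
    rw [this]
    ring
  rw [h3] at h2
  have h4 := h1 v
  have h5 := h1 u
  have h6 : (1 / c) ^ 2 * (u ⬝ᵥ D *ᵥ u) ≤ (1 / c) * q u := by
    calc (1 / c) ^ 2 * (u ⬝ᵥ D *ᵥ u) ≤ (1 / c) ^ 2 * (c * q u) :=
          mul_le_mul_of_nonneg_left h5 (by positivity)
      _ = (1 / c) * q u := by field_simp
  have h7 : (1 / c) * q u ≤ c * q v := by linarith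
  calc q u = c * ((1 / c) * q u) := by field_simp
    _ ≤ c * (c * q v) := mul_le_mul_of_nonneg_left h7 hc.le
    _ = c ^ 2 * q v := by ring

section approx

variable (At : Matrix (Fin n) (Fin n) ℝ)

/-- exact product of the factors `1 + B ^ (2 ^ k)` -/
noncomputable def Rx (k : ℕ) : Matrix (Fin n) (Fin n) ℝ :=
  Nat.rec 1 (fun k R => (1 + (1 - Atᵀ * At) ^ (2 ^ k)) * R) k

lemma Rx_zero : Rx At 0 = 1 := rfl

lemma Rx_succ (k : ℕ) : Rx At (k + 1) = (1 + (1 - Atᵀ * At) ^ (2 ^ k)) * Rx At k := rfl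

lemma swap (m : ℕ) : At * (1 - Atᵀ * At) ^ m = (1 - At * Atᵀ) ^ m * At := by
  induction m with
  | zero => simp
  | succ m ih =>
    rw [pow_succ, pow_succ, ← mul_assoc, ih]
    noncomm_ring

lemma exact_id (k : ℕ) : At * Rx At k * Atᵀ = 1 - (1 - At * Atᵀ) ^ (2 ^ k) := by
  induction k with
  | zero => rw [Rx_zero]; simp
  | succ k ih =>
    rw [Rx_succ]
    have h1 : At * ((1 + (1 - Atᵀ * At) ^ 2 ^ k) * Rx At k) * Atᵀ =
        (1 + (1 - At * Atᵀ) ^ 2 ^ k) * (At * Rx At k * Atᵀ) := by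
      have h2 : At * (1 + (1 - Atᵀ * At) ^ 2 ^ k) = (1 + (1 - At * Atᵀ) ^ 2 ^ k) * At := by
        rw [mul_add, mul_one, swap, add_mul, one_mul]
      rw [← mul_assoc, h2]
      simp only [mul_assoc]
    rw [h1, ih, pow_succ 2 k, pow_mul]
    noncomm_ring

end approx

lemma norm_one_le' : ‖(1 : Matrix (Fin n) (Fin n) ℝ)‖ ≤ 1 :=
  norm_le_of _ zero_le_one fun v => by simp

/-- **The approximate inverse.** -/
theorem approx_inverse {A' At : Matrix (Fin n) (Fin n) ℝ} {η s : ℝ} {K : ℕ}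
    {B R : ℕ → Matrix (Fin n) (Fin n) ℝ}
    (hη : 0 ≤ η) (hA' : ‖A'‖ ≤ 1) (hAt : ‖At‖ ≤ 1) (hd : ‖At - A'‖ ≤ η)
    (hs0 : 0 < s) (hs1 : s < 1) (hs : ∀ v, s * q v ≤ q (Atᵀ *ᵥ v))
    (hB0 : ‖B 0 - (1 - Atᵀ * At)‖ ≤ η)
    (hB : ∀ k < K, ‖B k‖ ≤ 2 → ‖B (k + 1) - B k * B k‖ ≤ η)
    (hR0 : R 0 = 1) (hR : ∀ k < K, R (k + 1) = (1 + B k) * R k)
    (hK : (9 : ℝ) ^ K * η ≤ 1 / 8) (hK2 : (1 - s) ^ (2 ^ K) ≤ 1 / 4) :
    (∀ k ≤ K, ‖B k‖ ≤ 2) ∧ ‖1 - A' * R K * Atᵀ‖ ≤ 1 / 2 := by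
  have hn1 := norm_one_le' (n := n)
  set Bx : Matrix (Fin n) (Fin n) ℝ := 1 - Atᵀ * At with hBx
  set D : Matrix (Fin n) (Fin n) ℝ := 1 - At * Atᵀ with hD
  have hBt : Bxᵀ = Bx := by rw [hBx]; simp [transpose_sub, transpose_mul]
  have hDt : Dᵀ = D := by rw [hD]; simp [transpose_sub, transpose_mul]
  have form : ∀ (M : Matrix (Fin n) (Fin n) ℝ) (v : Fin n → ℝ),
      v ⬝ᵥ (1 - Mᵀ * M) *ᵥ v = q v - q (M *ᵥ v) := by
    intro M v
    rw [sub_mulVec, one_mulVec, dotProduct_sub, ← mulVec_mulVec, dotProduct_mulVec,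
      vecMul_transpose]
    rfl
  have hAtt : ‖Atᵀ‖ ≤ 1 := by rw [norm_tr]; exact hAt
  have sq_le : ∀ (M : Matrix (Fin n) (Fin n) ℝ), ‖M‖ ≤ 1 → ∀ v, q (M *ᵥ v) ≤ q v := by
    intro M hM v
    have h1 := q_mulVec_le M v
    have h2 : ‖M‖ ^ 2 ≤ 1 := pow_le_one₀ (norm_nonneg _) hM
    nlinarith [q_nonneg v]
  have hBn : ‖Bx‖ ≤ 1 := by
    refine contraction Bx hBt one_pos (fun v => ?_) (fun v => ?_)
    · rw [form]; linarith [sq_le At hAt v]
    · rw [form]; linarith [q_nonneg (At *ᵥ v)]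
  have hDn : ‖D‖ ≤ 1 - s := by
    refine contraction D hDt (by linarith) (fun v => ?_) (fun v => ?_)
    · have := form Atᵀ v
      rw [transpose_transpose] at this
      rw [this]; linarith [sq_le Atᵀ hAtt v]
    · have := form Atᵀ v
      rw [transpose_transpose] at this
      rw [this]; linarith [hs v]
  have hBp : ∀ m, ‖Bx ^ m‖ ≤ 1 := by
    intro m
    induction m with
    | zero => simpa using hn1
    | succ m ih =>
      rw [pow_succ]
      calc ‖Bx ^ m * Bx‖ ≤ ‖Bx ^ m‖ * ‖Bx‖ := norm_mul_le _ _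
        _ ≤ 1 * 1 := mul_le_mul ih hBn (norm_nonneg _) zero_le_one
        _ = 1 := one_mul 1
  have hDp : ∀ m, ‖D ^ m‖ ≤ (1 - s) ^ m := by
    intro m
    induction m with
    | zero => simpa using hn1
    | succ m ih =>
      rw [pow_succ, pow_succ]
      exact (norm_mul_le _ _).trans (mul_le_mul ih hDn (norm_nonneg _) (by
        apply pow_nonneg; linarith))
  -- errors of the squares
  have h4 : ∀ k ≤ K, (4 : ℝ) ^ k * η ≤ 1 / 8 := by
    intro k hk
    refine le_trans (mul_le_mul_of_nonneg_right ?_ hη) hK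
    exact (pow_le_pow_left₀ (by norm_num) (by norm_num) k).trans (pow_le_pow_right₀ (by norm_num) hk)
  have herr : ∀ k ≤ K, ‖B k - Bx ^ (2 ^ k)‖ ≤ 4 ^ k * η := by
    intro k
    induction k with
    | zero => intro _; simpa using hB0
    | succ k ih =>
      intro hk
      have e := ih (by omega)
      have e8 := h4 k (by omega)
      have hb : ‖B k‖ ≤ 2 := by
        calc ‖B k‖ = ‖(B k - Bx ^ (2 ^ k)) + Bx ^ (2 ^ k)‖ := by congr 1; abel
          _ ≤ 4 ^ k * η + 1 := (norm_add_le _ _).trans (add_le_add e (hBp _))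
          _ ≤ 2 := by linarith
      have h5 := hB k (by omega) hb
      have h6 : B (k + 1) - Bx ^ (2 ^ (k + 1)) = (B (k + 1) - B k * B k) +
          (B k * (B k - Bx ^ (2 ^ k)) + (B k - Bx ^ (2 ^ k)) * Bx ^ (2 ^ k)) := by
        rw [pow_succ 2 k, pow_mul, pow_two]
        noncomm_ring
      rw [h6]
      calc _ ≤ η + (2 * (4 ^ k * η) + 4 ^ k * η * 1) := by
            refine (norm_add_le _ _).trans (add_le_add h5 ((norm_add_le _ _).trans
              (add_le_add ?_ ?_)))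
            · exact (norm_mul_le _ _).trans (mul_le_mul hb e (norm_nonneg _) (by norm_num))
            · exact (norm_mul_le _ _).trans (mul_le_mul e (hBp _) (norm_nonneg _) (by positivity))
        _ ≤ 4 ^ (k + 1) * η := by
            have : (1 : ℝ) ≤ 4 ^ k := one_le_pow₀ (by norm_num)
            rw [pow_succ]
            nlinarith
  have hb : ∀ k ≤ K, ‖B k‖ ≤ 2 := by
    intro k hk
    calc ‖B k‖ = ‖(B k - Bx ^ (2 ^ k)) + Bx ^ (2 ^ k)‖ := by congr 1; abel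
      _ ≤ 4 ^ k * η + 1 := (norm_add_le _ _).trans (add_le_add (herr k hk) (hBp _))
      _ ≤ 2 := by linarith [h4 k hk]
  refine ⟨hb, ?_⟩
  have hRx : ∀ k, ‖Rx At k‖ ≤ 2 ^ k := by
    intro k
    induction k with
    | zero => rw [Rx_zero]; simpa using hn1
    | succ k ih =>
      rw [Rx_succ, pow_succ, mul_comm ((2 : ℝ) ^ k)]
      refine (norm_mul_le _ _).trans (mul_le_mul ?_ ih (norm_nonneg _) (by norm_num))
      refine (norm_add_le _ _).trans ?_
      have := hBp (2 ^ k)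
      rw [← hBx]
      linarith
  have hRe : ∀ k ≤ K, ‖R k - Rx At k‖ ≤ 9 ^ k * η := by
    intro k
    induction k with
    | zero => intro _; rw [hR0, Rx_zero]; simpa using hη
    | succ k ih =>
      intro hk
      rw [hR k (by omega), Rx_succ, ← hBx]
      have h6 : (1 + B k) * R k - (1 + Bx ^ 2 ^ k) * Rx At k =
          (1 + B k) * (R k - Rx At k) + (B k - Bx ^ 2 ^ k) * Rx At k := by noncomm_ring
      rw [h6]
      have h7 : ‖1 + B k‖ ≤ 3 := (norm_add_le _ _).trans (by linarith [hb k (by omega)])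
      calc _ ≤ 3 * (9 ^ k * η) + 4 ^ k * η * 2 ^ k := by
            refine (norm_add_le _ _).trans (add_le_add ?_ ?_)
            · exact (norm_mul_le _ _).trans (mul_le_mul h7 (ih (by omega)) (norm_nonneg _)
                (by norm_num))
            · exact (norm_mul_le _ _).trans (mul_le_mul (herr k (by omega)) (hRx k) (norm_nonneg _)
                (by positivity))
        _ ≤ 9 ^ (k + 1) * η := by
            have h8 : (4 : ℝ) ^ k * 2 ^ k ≤ 9 ^ k := by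
              rw [← mul_pow]; exact pow_le_pow_left₀ (by norm_num) (by norm_num) k
            have h9 : (4 : ℝ) ^ k * η * 2 ^ k ≤ 9 ^ k * η := by
              calc (4 : ℝ) ^ k * η * 2 ^ k = (4 ^ k * 2 ^ k) * η := by ring
                _ ≤ 9 ^ k * η := mul_le_mul_of_nonneg_right h8 hη
            rw [pow_succ]
            have : (0 : ℝ) ≤ 9 ^ k * η := by positivity
            nlinarith
  have hid := exact_id At K
  rw [← hD] at hid
  have h10 : 1 - A' * R K * Atᵀ = (1 - At * Rx At K * Atᵀ) + ((At - A') * Rx At K * Atᵀ +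
      A' * (Rx At K - R K) * Atᵀ) := by noncomm_ring
  rw [h10, hid]
  have h11 : ‖(1 : Matrix (Fin n) (Fin n) ℝ) - (1 - D ^ 2 ^ K)‖ ≤ 1 / 4 := by
    rw [sub_sub_cancel]
    exact (hDp _).trans hK2
  have h12 : ‖(At - A') * Rx At K * Atᵀ‖ ≤ 1 / 8 := by
    calc _ ≤ ‖At - A'‖ * ‖Rx At K‖ * ‖Atᵀ‖ :=
          (norm_mul_le _ _).trans (mul_le_mul_of_nonneg_right (norm_mul_le _ _) (norm_nonneg _))
      _ ≤ η * 2 ^ K * 1 := by
          refine mul_le_mul (mul_le_mul hd (hRx K) (norm_nonneg _) hη) hAtt (norm_nonneg _)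
            (by positivity)
      _ ≤ 9 ^ K * η := by
          have : (2 : ℝ) ^ K ≤ 9 ^ K := pow_le_pow_left₀ (by norm_num) (by norm_num) K
          nlinarith
      _ ≤ 1 / 8 := hK
  have h13 : ‖A' * (Rx At K - R K) * Atᵀ‖ ≤ 1 / 8 := by
    have h14 := hRe K le_rfl
    rw [norm_sub_rev] at h14
    calc _ ≤ ‖A'‖ * ‖Rx At K - R K‖ * ‖Atᵀ‖ :=
          (norm_mul_le _ _).trans (mul_le_mul_of_nonneg_right (norm_mul_le _ _) (norm_nonneg _))
      _ ≤ 1 * (9 ^ K * η) * 1 := by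
          refine mul_le_mul (mul_le_mul hA' h14 (norm_nonneg _) zero_le_one) hAtt (norm_nonneg _)
            (by positivity)
      _ ≤ 1 / 8 := by rw [one_mul, mul_one]; exact hK
  calc _ ≤ 1 / 4 + (1 / 8 + 1 / 8) := (norm_add_le _ _).trans (add_le_add h11
        ((norm_add_le _ _).trans (add_le_add h12 h13)))
    _ = 1 / 2 := by norm_num

end Pool.Agent.L5helper99.RL
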