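import Pool.Agent.L5helper99.RL.Cost

/-!
# Extraction of digits by comparisons
-/

set_option autoImplicit false

namespace Pool.Agent.L5helper99.RL

variable {X : Type}

/-- `r` modulo `2 ^ t` -/
noncomputable def rem (t : ℕ) (r : ℝ) : ℝ := 2 ^ t * Int.fract (r / 2 ^ t)

theorem rem_zero (r : ℝ) : rem 0 r = Int.fract r := by simp [rem]

theorem rem_step (t : ℕ) (r : ℝ) :
    rem t r = rem (t + 1) r - (if (2 : ℝ) ^ t ≤ rem (t + 1) r then 1 else 0) * 2 ^ t := by
  have h2 : (0 : ℝ) < 2 ^ t := by positivity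
  set a : ℝ := r / 2 ^ t with ha
  have e1 : rem (t + 1) r = 2 ^ t * (2 * Int.fract (a / 2)) := by
    unfold rem
    rw [ha, pow_succ, div_div]
    ring
  have e2 : rem t r = 2 ^ t * Int.fract a := rfl
  have h3 : (2 : ℝ) ^ t ≤ 2 ^ t * (2 * Int.fract (a / 2)) ↔ 1 ≤ 2 * Int.fract (a / 2) := by
    constructor
    · intro h
      by_contra hc
      push Not at hc
      nlinarith
    · intro h
      nlinarith
  have h0 := Int.fract_nonneg (a / 2)
  have h1 := Int.fract_lt_one (a / 2)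
  have e3 : a = 2 * Int.fract (a / 2) + ((2 * ⌊a / 2⌋ : ℤ) : ℝ) := by
    have := Int.fract_add_floor (a / 2)
    push_cast
    linarith
  have e4 : Int.fract a = Int.fract (2 * Int.fract (a / 2)) := by
    conv_lhs => rw [e3]
    rw [Int.fract_add_intCast]
  rw [e2, e1, e4]
  simp only [h3]
  split_ifs with h
  · have : Int.fract (2 * Int.fract (a / 2)) = 2 * Int.fract (a / 2) - 1 := by
      rw [Int.fract_eq_iff]
      refine ⟨by linarith, by linarith, 1, by push_cast; ring⟩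
    rw [this]; ring
  · push Not at h
    have : Int.fract (2 * Int.fract (a / 2)) = 2 * Int.fract (a / 2) := by
      rw [Int.fract_eq_iff]
      refine ⟨by linarith, by linarith, 0, by push_cast; ring⟩
    rw [this]; ring

theorem rem_top {t : ℕ} {r : ℝ} (h0 : 0 ≤ r) (h1 : r < 2 ^ t) : rem t r = r := by
  have h2 : (0 : ℝ) < 2 ^ t := by positivity
  unfold rem
  have : Int.fract (r / 2 ^ t) = r / 2 ^ t := by
    rw [Int.fract_eq_self]
    exact ⟨by positivity, by rw [div_lt_one h2]; exact h1⟩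
  rw [this]
  field_simp

theorem rem_add (t : ℕ) (r : ℝ) (z : ℤ) : rem t (r + 2 ^ t * z) = rem t r := by
  unfold rem
  have h2 : (2 : ℝ) ^ t ≠ 0 := by positivity
  rw [add_div, mul_div_cancel_left₀ _ h2, Int.fract_add_intCast]

/-- all remainders modulo powers of two of a bounded nonnegative function -/
theorem Cmp.rem {S : Set (X → ℝ)} {r : X → ℝ} (hr : r ∈ S) (T : ℕ) (h0 : ∀ x, 0 ≤ r x)
    (h1 : ∀ x, r x < 2 ^ T) :
    Cmp S (4 * T + 1) {f : X → ℝ | ∃ t ≤ T, f = fun x => RL.rem t (r x)} := by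
  set P : Set (X → ℝ) := {f : X → ℝ | ∃ t ≤ T, f = fun _ => (2 : ℝ) ^ t} with hP
  have hpow : Cmp S (1 + T * 1) P := Cmp.pow2 T
  have h := Cmp.iter (X := X) (S := S ∪ P) (F := fun j => {fun x => RL.rem (T - j) (r x)})
    (T0 := 0) (T := 3)
    (by
      refine Cmp.of_subset ?_
      rw [Set.singleton_subset_iff]
      left
      have : (fun x => RL.rem (T - 0) (r x)) = r := by
        funext x
        rw [Nat.sub_zero]
        exact rem_top (h0 x) (h1 x)
      rw [this]; exact hr)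
    (fun j => by
      rcases Nat.lt_or_ge j T with hj | hj
      · have hc : C1 (S ∪ P ∪ {fun x => RL.rem (T - j) (r x)}) 0 (fun _ => (2 : ℝ) ^ (T - (j + 1))) :=
          C1.of_mem (Or.inl (Or.inr ⟨_, by omega, rfl⟩))
        have hy : C1 (S ∪ P ∪ {fun x => RL.rem (T - j) (r x)}) 0 (fun x => RL.rem (T - j) (r x)) :=
          C1.of_mem (Or.inr rfl)
        have h3 := hy.subt ((hc.comp hy).mul hc)
        have e : (fun x => RL.rem (T - (j + 1)) (r x)) = fun x => RL.rem (T - j) (r x) -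
            (if (2 : ℝ) ^ (T - (j + 1)) ≤ RL.rem (T - j) (r x) then 1 else 0) *
              2 ^ (T - (j + 1)) := by
          funext x
          rw [rem_step, show T - (j + 1) + 1 = T - j by omega]
        unfold C1 at h3
        rw [← e] at h3
        exact h3.le (by norm_num)
      · refine (Cmp.of_subset ?_ : Cmp _ 0 _).le (by norm_num)
        rw [show T - (j + 1) = T - j by omega]
        exact Set.subset_union_right) T
  have h2 := hpow.trans h
  refine (h2.le (by omega)).sub ?_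
  rintro f ⟨t, ht, rfl⟩
  right
  simp only [Set.mem_iUnion, Finset.mem_range, exists_prop]
  exact ⟨T - t, by omega, by rw [show T - (T - t) = t by omega]; rfl⟩

theorem C1.floor {S : Set (X → ℝ)} {T : ℕ} {f : X → ℝ} (hf : C1 S T f) (w : ℕ)
    (h : ∀ x, |f x| < 2 ^ w) : C1 S (T + (5 * w + 8)) (fun x => (⌊f x⌋ : ℝ)) := by
  set P : Set (X → ℝ) := {g : X → ℝ | ∃ t ≤ w, g = fun _ => (2 : ℝ) ^ t} with hP
  have h1 : Cmp S (T + (1 + w * 1)) ({f} ∪ P) := Cmp.union hf (Cmp.pow2 w)
  set g : X → ℝ := fun x => f x + 2 ^ w with hg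
  have h2 : C1 (S ∪ ({f} ∪ P)) 1 g := by
    have := (C1.of_mem (S := S ∪ ({f} ∪ P)) (f := f) (Or.inr (Or.inl rfl))).add
      (C1.of_mem (S := S ∪ ({f} ∪ P)) (f := fun _ => (2 : ℝ) ^ w) (Or.inr (Or.inr ⟨w, le_rfl, rfl⟩)))
    exact this
  have h3 : Cmp (S ∪ ({f} ∪ P) ∪ {g}) (4 * (w + 1) + 1)
      {k : X → ℝ | ∃ t ≤ w + 1, k = fun x => RL.rem t (g x)} := by
    refine Cmp.rem (Or.inr rfl) (w + 1) (fun x => ?_) (fun x => ?_)
    · have := (abs_lt.1 (h x)).1
      simp only [hg]; linarith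
    · have := (abs_lt.1 (h x)).2
      simp only [hg]; rw [pow_succ]; linarith
  set K : Set (X → ℝ) := {k : X → ℝ | ∃ t ≤ w + 1, k = fun x => RL.rem t (g x)} with hK
  have h4 : Cmp S (T + (1 + w * 1) + (1 + (4 * (w + 1) + 1))) (({f} ∪ P) ∪ ({g} ∪ K)) :=
    h1.trans (Cmp.trans h2 h3)
  have h5 : IsStep (S ∪ (({f} ∪ P) ∪ ({g} ∪ K))) (fun x => f x - RL.rem 0 (g x)) :=
    .sub (Or.inr (Or.inl (Or.inl rfl))) (Or.inr (Or.inr (Or.inr ⟨0, by omega, rfl⟩)))
  have h6 := h4.trans (Cmp.single h5)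
  have e : (fun x => f x - RL.rem 0 (g x)) = fun x => (⌊f x⌋ : ℝ) := by
    funext x
    rw [rem_zero]
    have h7 : Int.fract (g x) = Int.fract (f x) := by
      simp only [hg]
      have : (f x + 2 ^ w : ℝ) = f x + ((2 ^ w : ℤ) : ℝ) := by push_cast; ring
      rw [this, Int.fract_add_intCast]
    rw [h7]
    have := Int.fract_add_floor (f x)
    linarith
  rw [e] at h6
  exact (h6.le (by omega)).sub Set.subset_union_right

end Pool.Agent.L5helper99.RL
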