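import Mathlib

/-!
# Computations with exact real arithmetic: semantic form

`X` is the set of instances. The functions in `S` are given; a derivation is a list of functions,
each of which is the result of one operation (constant one, addition, subtraction, multiplication,
division, comparison with result zero or one) applied to given or earlier functions.
-/

set_option autoImplicit false

namespace Pool.Agent.L5helper99.RL

variable {X : Type}

/-- `f` is the result of one operation applied to functions in `S`. -/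
inductive IsStep (S : Set (X → ℝ)) : (X → ℝ) → Prop
  | one : IsStep S (fun _ => 1)
  | add {f g : X → ℝ} : f ∈ S → g ∈ S → IsStep S (fun x => f x + g x)
  | sub {f g : X → ℝ} : f ∈ S → g ∈ S → IsStep S (fun x => f x - g x)
  | mul {f g : X → ℝ} : f ∈ S → g ∈ S → IsStep S (fun x => f x * g x)
  | div {f g : X → ℝ} : f ∈ S → g ∈ S → IsStep S (fun x => f x / g x)
  | le {f g : X → ℝ} : f ∈ S → g ∈ S → IsStep S (fun x => if f x ≤ g x then 1 else 0)

theorem IsStep.mono {S S' : Set (X → ℝ)} (h : S ⊆ S') {f : X → ℝ} (hf : IsStep S f) :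
    IsStep S' f := by
  cases hf with
  | one => exact .one
  | add h1 h2 => exact .add (h h1) (h h2)
  | sub h1 h2 => exact .sub (h h1) (h h2)
  | mul h1 h2 => exact .mul (h h1) (h h2)
  | div h1 h2 => exact .div (h h1) (h h2)
  | le h1 h2 => exact .le (h h1) (h h2)

/-- derivations, the newest function first -/
inductive Der (S : Set (X → ℝ)) : List (X → ℝ) → Prop
  | nil : Der S []
  | cons {f : X → ℝ} {L : List (X → ℝ)} : Der S L → IsStep (S ∪ {g | g ∈ L}) f → Der S (f :: L)

theorem Der.mono {S S' : Set (X → ℝ)} (h : S ⊆ S') {L : List (X → ℝ)} (hL : Der S L) :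
    Der S' L := by
  induction hL with
  | nil => exact .nil
  | cons _ hf ih => exact .cons ih (hf.mono (Set.union_subset_union_left _ h))

theorem Der.append {S F : Set (X → ℝ)} {L L' : List (X → ℝ)} (hL : Der S L)
    (hF : F ⊆ S ∪ {g | g ∈ L}) (hL' : Der (S ∪ F) L') : Der S (L' ++ L) := by
  induction hL' with
  | nil => exact hL
  | @cons f L' _ hf ih =>
    refine .cons ih (hf.mono ?_)
    rintro g ((hg | hg) | hg)
    · exact Or.inl hg
    · rcases hF hg with h | h
      · exact Or.inl h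
      · exact Or.inr (List.mem_append_right _ h)
    · exact Or.inr (List.mem_append_left _ hg)

/-- all functions in `F` can be computed from the functions in `S` with at most `T` operations -/
def Cmp (S : Set (X → ℝ)) (T : ℕ) (F : Set (X → ℝ)) : Prop :=
  ∃ L, Der S L ∧ L.length ≤ T ∧ F ⊆ S ∪ {g | g ∈ L}

theorem Cmp.mono {S S' : Set (X → ℝ)} {T T' : ℕ} {F F' : Set (X → ℝ)} (h : Cmp S T F)
    (hS : S ⊆ S') (hT : T ≤ T') (hF : F' ⊆ F) : Cmp S' T' F' := by
  obtain ⟨L, h1, h2, h3⟩ := h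
  exact ⟨L, h1.mono hS, h2.trans hT, (hF.trans h3).trans (Set.union_subset_union_left _ hS)⟩

theorem Cmp.le {S : Set (X → ℝ)} {T T' : ℕ} {F : Set (X → ℝ)} (h : Cmp S T F)
    (hT : T ≤ T') : Cmp S T' F := h.mono subset_rfl hT subset_rfl

theorem Cmp.sub {S : Set (X → ℝ)} {T : ℕ} {F F' : Set (X → ℝ)} (h : Cmp S T F)
    (hF : F' ⊆ F) : Cmp S T F' := h.mono subset_rfl le_rfl hF

theorem Cmp.sup {S S' : Set (X → ℝ)} {T : ℕ} {F : Set (X → ℝ)} (h : Cmp S T F)
    (hS : S ⊆ S') : Cmp S' T F := h.mono hS le_rfl subset_rfl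

theorem Cmp.of_subset {S : Set (X → ℝ)} {F : Set (X → ℝ)} (h : F ⊆ S) : Cmp S 0 F :=
  ⟨[], .nil, le_rfl, fun _ hf => Or.inl (h hf)⟩

theorem Cmp.refl (S : Set (X → ℝ)) : Cmp S 0 S := Cmp.of_subset subset_rfl

theorem Cmp.trans {S F G : Set (X → ℝ)} {T T' : ℕ} (h : Cmp S T F) (h' : Cmp (S ∪ F) T' G) :
    Cmp S (T + T') (F ∪ G) := by
  obtain ⟨L, h1, h2, h3⟩ := h
  obtain ⟨L', h1', h2', h3'⟩ := h'
  refine ⟨L' ++ L, h1.append h3 h1', by simp only [List.length_append]; omega, ?_⟩
  rintro f (hf | hf)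
  · rcases h3 hf with h | h
    · exact Or.inl h
    · exact Or.inr (List.mem_append_right _ h)
  · rcases h3' hf with (h | h) | h
    · exact Or.inl h
    · rcases h3 h with h | h
      · exact Or.inl h
      · exact Or.inr (List.mem_append_right _ h)
    · exact Or.inr (List.mem_append_left _ h)

theorem Cmp.union {S F G : Set (X → ℝ)} {T T' : ℕ} (h : Cmp S T F) (h' : Cmp S T' G) :
    Cmp S (T + T') (F ∪ G) := h.trans (h'.sup Set.subset_union_left)

theorem Cmp.single {S : Set (X → ℝ)} {f : X → ℝ} (h : IsStep S f) : Cmp S 1 {f} := by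
  refine ⟨[f], .cons .nil (h.mono Set.subset_union_left), by simp, ?_⟩
  intro g hg
  rw [Set.mem_singleton_iff] at hg
  exact Or.inr (by simp [hg])

theorem Cmp.biUnion {ι : Type} {S : Set (X → ℝ)} {T : ι → ℕ} {F : ι → Set (X → ℝ)}
    (s : Finset ι) (h : ∀ i ∈ s, Cmp S (T i) (F i)) :
    Cmp S (∑ i ∈ s, T i) (⋃ i ∈ s, F i) := by
  classical
  induction s using Finset.induction_on with
  | empty => simpa using Cmp.of_subset (Set.empty_subset S)
  | insert a s ha ih =>
    rw [Finset.sum_insert ha, Finset.set_biUnion_insert]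
    exact (h a (Finset.mem_insert_self a s)).union
      (ih fun i hi => h i (Finset.mem_insert_of_mem hi))

/-- many functions with the same cost -/
theorem Cmp.range {ι : Type} [Fintype ι] {S : Set (X → ℝ)} {T : ℕ} {f : ι → X → ℝ}
    (h : ∀ i, Cmp S T {f i}) : Cmp S (Fintype.card ι * T) (Set.range f) := by
  have h1 := Cmp.biUnion (T := fun _ => T) (F := fun i => {f i}) Finset.univ (fun i _ => h i)
  rw [Finset.sum_const, smul_eq_mul, Finset.card_univ] at h1
  refine h1.sub ?_
  rintro _ ⟨i, rfl⟩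
  simp

/-- iterating -/
theorem Cmp.iter {S : Set (X → ℝ)} {F : ℕ → Set (X → ℝ)} {T0 T : ℕ} (h0 : Cmp S T0 (F 0))
    (h : ∀ k, Cmp (S ∪ F k) T (F (k + 1))) (k : ℕ) :
    Cmp S (T0 + k * T) (⋃ i ∈ Finset.range (k + 1), F i) := by
  induction k with
  | zero => simpa using h0
  | succ k ih =>
    have h1 := ih.trans (G := F (k + 1)) (T' := T) ((h k).sup ?_)
    · refine (h1.le (by ring_nf; omega)).sub ?_
      intro f hf
      simp only [Set.mem_iUnion, Finset.mem_range, exists_prop] at hf ⊢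
      obtain ⟨i, hi, hf⟩ := hf
      rcases Nat.lt_succ_iff_lt_or_eq.1 hi with h2 | h2
      · left
        simp only [Set.mem_iUnion, Finset.mem_range, exists_prop]
        exact ⟨i, h2, hf⟩
      · right; rwa [h2] at hf
    · refine Set.union_subset_union_right _ ?_
      intro f hf
      simp only [Set.mem_iUnion, Finset.mem_range, exists_prop]
      exact ⟨k, by omega, hf⟩

theorem Cmp.iter_last {S : Set (X → ℝ)} {F : ℕ → Set (X → ℝ)} {T0 T : ℕ} (h0 : Cmp S T0 (F 0))
    (h : ∀ k, Cmp (S ∪ F k) T (F (k + 1))) (k : ℕ) : Cmp S (T0 + k * T) (F k) := by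
  refine (Cmp.iter h0 h k).sub ?_
  intro f hf
  simp only [Set.mem_iUnion, Finset.mem_range, exists_prop]
  exact ⟨k, by omega, hf⟩

/-! ### Single functions -/

/-- one function can be computed -/
def C1 (S : Set (X → ℝ)) (T : ℕ) (f : X → ℝ) : Prop := Cmp S T {f}

theorem C1.of_mem {S : Set (X → ℝ)} {f : X → ℝ} (h : f ∈ S) : C1 S 0 f :=
  Cmp.of_subset (Set.singleton_subset_iff.2 h)

theorem C1.le {S : Set (X → ℝ)} {T T' : ℕ} {f : X → ℝ} (h : C1 S T f) (hT : T ≤ T') :
    C1 S T' f := Cmp.le h hT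

theorem C1.sup {S S' : Set (X → ℝ)} {T : ℕ} {f : X → ℝ} (h : C1 S T f) (hS : S ⊆ S') :
    C1 S' T f := Cmp.sup h hS

theorem C1.bin {S : Set (X → ℝ)} {T T' : ℕ} {f g k : X → ℝ} (hf : C1 S T f) (hg : C1 S T' g)
    (h : IsStep ({f} ∪ {g}) k) : C1 S (T + T' + 1) k := by
  have h1 : Cmp S (T + T') ({f} ∪ {g}) := Cmp.union hf hg
  have h2 := h1.trans (Cmp.single (h.mono (Set.subset_union_right (s := S))))
  exact h2.sub Set.subset_union_right

theorem C1.add {S : Set (X → ℝ)} {T T' : ℕ} {f g : X → ℝ} (hf : C1 S T f) (hg : C1 S T' g) :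
    C1 S (T + T' + 1) (fun x => f x + g x) := hf.bin hg (.add (Or.inl rfl) (Or.inr rfl))

theorem C1.subt {S : Set (X → ℝ)} {T T' : ℕ} {f g : X → ℝ} (hf : C1 S T f) (hg : C1 S T' g) :
    C1 S (T + T' + 1) (fun x => f x - g x) := hf.bin hg (.sub (Or.inl rfl) (Or.inr rfl))

theorem C1.mul {S : Set (X → ℝ)} {T T' : ℕ} {f g : X → ℝ} (hf : C1 S T f) (hg : C1 S T' g) :
    C1 S (T + T' + 1) (fun x => f x * g x) := hf.bin hg (.mul (Or.inl rfl) (Or.inr rfl))

theorem C1.div {S : Set (X → ℝ)} {T T' : ℕ} {f g : X → ℝ} (hf : C1 S T f) (hg : C1 S T' g) :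
    C1 S (T + T' + 1) (fun x => f x / g x) := hf.bin hg (.div (Or.inl rfl) (Or.inr rfl))

theorem C1.comp {S : Set (X → ℝ)} {T T' : ℕ} {f g : X → ℝ} (hf : C1 S T f) (hg : C1 S T' g) :
    C1 S (T + T' + 1) (fun x => if f x ≤ g x then 1 else 0) :=
  hf.bin hg (.le (Or.inl rfl) (Or.inr rfl))

theorem C1.one {S : Set (X → ℝ)} : C1 S 1 (fun _ => 1) := Cmp.single .one

theorem C1.zero {S : Set (X → ℝ)} : C1 S 3 (fun _ => 0) := by
  have h := (C1.one (S := S)).subt C1.one
  simpa using h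

theorem C1.sum {ι : Type} {S : Set (X → ℝ)} {T : ℕ} {f : ι → X → ℝ} (s : Finset ι)
    (h : ∀ i ∈ s, C1 S T (f i)) : C1 S (s.card * (T + 1) + 3) (fun x => ∑ i ∈ s, f i x) := by
  classical
  induction s using Finset.induction_on with
  | empty => simpa using C1.zero (S := S)
  | insert a s ha ih =>
    have h1 := (h a (Finset.mem_insert_self a s)).add
      (ih fun i hi => h i (Finset.mem_insert_of_mem hi))
    simp only [Finset.sum_insert ha, Finset.card_insert_of_notMem ha]
    exact h1.le (by ring_nf; omega)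

/-- the powers of two -/
theorem Cmp.pow2 {S : Set (X → ℝ)} (T : ℕ) :
    Cmp S (1 + T * 1) {f : X → ℝ | ∃ t ≤ T, f = fun _ => (2 : ℝ) ^ t} := by
  have h := Cmp.iter (X := X) (S := S) (F := fun t => {fun _ => (2 : ℝ) ^ t}) (T0 := 1) (T := 1)
    (by have h := C1.one (S := S); unfold C1 at h; simpa using h) (fun k => by
      have h1 : IsStep (S ∪ {fun _ : X => (2 : ℝ) ^ k}) (fun _ => (2 : ℝ) ^ k + 2 ^ k) :=
        .add (Or.inr rfl) (Or.inr rfl)
      have h2 := Cmp.single h1
      have h3 : (fun _ : X => (2 : ℝ) ^ k + 2 ^ k) = fun _ => (2 : ℝ) ^ (k + 1) := by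
        funext _; ring
      rwa [h3] at h2) T
  refine h.sub ?_
  rintro f ⟨t, ht, rfl⟩
  simp only [Set.mem_iUnion, Finset.mem_range, exists_prop]
  exact ⟨t, by omega, rfl⟩

end Pool.Agent.L5helper99.RL
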