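import Pool.Agent.L5helper99.RL.Alg
import Pool.Agent.R563.RRam.LOff

/-!
# Random two-valued matrices: small ball estimates and nets
-/

set_option autoImplicit false

open Finset Matrix

namespace Pool.Agent.L5helper99.RL

variable {n : ℕ}

/-- signed sum -/
def Rd (τ : Fin n → Bool) (y : Fin n → ℝ) : ℝ := ∑ j, (if τ j then y j else -y j)

/-- sum with the weights `1`, `β` -/
def Lb (β : ℝ) (τ : Fin n → Bool) (y : Fin n → ℝ) : ℝ := ∑ j, (if τ j then 1 else β) * y j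

lemma Lb_eq (β : ℝ) (τ : Fin n → Bool) (y : Fin n → ℝ) :
    Lb β τ y = (1 - β) / 2 * Rd τ y + (1 + β) / 2 * ∑ j, y j := by
  unfold Lb Rd
  rw [mul_sum, mul_sum, ← sum_add_distrib]
  refine sum_congr rfl fun j _ => ?_
  split_ifs <;> ring

lemma sum_cons (f : (Fin (n + 1) → Bool) → ℝ) :
    ∑ τ, f τ = ∑ τ : Fin n → Bool, (f (Fin.cons true τ) + f (Fin.cons false τ)) := by
  rw [← Fintype.sum_equiv (Fin.consEquiv (fun _ : Fin (n + 1) => Bool))
    (fun x : Bool × (Fin n → Bool) => f (Fin.cons x.1 x.2)) f (fun x => rfl),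
    Fintype.sum_prod_type, Fintype.sum_bool, sum_add_distrib]

lemma Rd_cons (t : Bool) (τ : Fin n → Bool) (y : Fin (n + 1) → ℝ) :
    Rd (Fin.cons t τ : Fin (n + 1) → Bool) y = (if t then y 0 else -y 0) + Rd τ (Fin.tail y) := by
  unfold Rd
  rw [Fin.sum_univ_succ]
  simp [Fin.tail]

lemma q_cons (y : Fin (n + 1) → ℝ) : q y = y 0 ^ 2 + q (Fin.tail y) := by
  rw [q_eq, q_eq, Fin.sum_univ_succ]
  rfl

lemma card_bool (n : ℕ) : ((univ : Finset (Fin n → Bool)).card : ℝ) = 2 ^ n := by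
  simp

lemma mom2 : ∀ (n : ℕ) (y : Fin n → ℝ), ∑ τ : Fin n → Bool, Rd τ y ^ 2 = 2 ^ n * q y := by
  intro n
  induction n with
  | zero => intro y; simp [Rd, q_eq]
  | succ n ih =>
    intro y
    rw [sum_cons]
    have : ∀ τ : Fin n → Bool, Rd (Fin.cons true τ : Fin (n + 1) → Bool) y ^ 2 +
        Rd (Fin.cons false τ : Fin (n + 1) → Bool) y ^ 2 =
        2 * Rd τ (Fin.tail y) ^ 2 + 2 * y 0 ^ 2 := by
      intro τ; rw [Rd_cons, Rd_cons]; simp; ring
    rw [Finset.sum_congr rfl fun τ _ => this τ, sum_add_distrib, ← mul_sum, ih, sum_const, nsmul_eq_mul, card_bool, q_cons]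
    ring

lemma mom4 : ∀ (n : ℕ) (y : Fin n → ℝ), ∑ τ : Fin n → Bool, Rd τ y ^ 4 ≤ 3 * 2 ^ n * q y ^ 2 := by
  intro n
  induction n with
  | zero => intro y; simp [Rd, q_eq]
  | succ n ih =>
    intro y
    rw [sum_cons]
    have : ∀ τ : Fin n → Bool, Rd (Fin.cons true τ : Fin (n + 1) → Bool) y ^ 4 +
        Rd (Fin.cons false τ : Fin (n + 1) → Bool) y ^ 4 =
        2 * Rd τ (Fin.tail y) ^ 4 + 12 * y 0 ^ 2 * Rd τ (Fin.tail y) ^ 2 + 2 * y 0 ^ 4 := by
      intro τ; rw [Rd_cons, Rd_cons]; simp; ring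
    rw [Finset.sum_congr rfl fun τ _ => this τ, sum_add_distrib, sum_add_distrib, ← mul_sum, ← mul_sum, mom2, sum_const, nsmul_eq_mul,
      card_bool, q_cons]
    have h1 := ih (Fin.tail y)
    have h2 := q_nonneg (Fin.tail y)
    have h3 : (0 : ℝ) < 2 ^ n := by positivity
    rw [show (2 : ℝ) ^ (n + 1) = 2 * 2 ^ n by ring]
    nlinarith [mul_nonneg h3.le (pow_nonneg (sq_nonneg (y 0)) 2)]

/-- small values of signed sums -/
lemma small_sq (y : Fin n → ℝ) (hy : 0 < q y) :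
    ((univ.filter fun τ : Fin n → Bool => Rd τ y ^ 2 ≤ q y / 4).card : ℝ) ≤ 13 / 16 * 2 ^ n := by
  classical
  set Bad := univ.filter fun τ : Fin n → Bool => Rd τ y ^ 2 ≤ q y / 4 with hBad
  set Gd := univ.filter fun τ : Fin n → Bool => ¬ Rd τ y ^ 2 ≤ q y / 4 with hGd
  have hc : (Bad.card : ℝ) + Gd.card = 2 ^ n := by
    have := Finset.card_filter_add_card_filter_not (s := (univ : Finset (Fin n → Bool)))
      (fun τ => Rd τ y ^ 2 ≤ q y / 4)
    rw [← card_bool, hBad, hGd]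
    exact_mod_cast this
  have h1 : ∑ τ ∈ Bad, Rd τ y ^ 2 + ∑ τ ∈ Gd, Rd τ y ^ 2 = 2 ^ n * q y := by
    rw [← mom2, Finset.sum_filter_add_sum_filter_not]
  have h2 : ∑ τ ∈ Bad, Rd τ y ^ 2 ≤ 2 ^ n * (q y / 4) := by
    calc ∑ τ ∈ Bad, Rd τ y ^ 2 ≤ ∑ _τ ∈ Bad, q y / 4 :=
          sum_le_sum fun τ hτ => (mem_filter.1 hτ).2
      _ = Bad.card * (q y / 4) := by rw [sum_const, nsmul_eq_mul]
      _ ≤ 2 ^ n * (q y / 4) := by
          refine mul_le_mul_of_nonneg_right ?_ (by positivity)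
          have : (0 : ℝ) ≤ Gd.card := Nat.cast_nonneg _
          linarith
  have h3 : 3 / 4 * (2 ^ n * q y) ≤ ∑ τ ∈ Gd, Rd τ y ^ 2 := by linarith
  have h4 : (∑ τ ∈ Gd, Rd τ y ^ 2) ^ 2 ≤ Gd.card * (3 * 2 ^ n * q y ^ 2) := by
    have h5 := Finset.sum_mul_sq_le_sq_mul_sq Gd (fun _ => (1 : ℝ)) (fun τ => Rd τ y ^ 2)
    simp only [one_mul, one_pow, sum_const, nsmul_eq_mul, mul_one] at h5
    refine h5.trans (mul_le_mul_of_nonneg_left ?_ (Nat.cast_nonneg _))
    refine le_trans ?_ (mom4 n y)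
    calc ∑ τ ∈ Gd, (Rd τ y ^ 2) ^ 2 ≤ ∑ τ, (Rd τ y ^ 2) ^ 2 :=
          sum_le_sum_of_subset_of_nonneg (filter_subset _ _) fun _ _ _ => by positivity
      _ = ∑ τ, Rd τ y ^ 4 := sum_congr rfl fun τ _ => by ring
  have h6 : (3 / 4 * (2 ^ n * q y)) ^ 2 ≤ Gd.card * (3 * 2 ^ n * q y ^ 2) :=
    (pow_le_pow_left₀ (by positivity) h3 2).trans h4
  have h7 : (0 : ℝ) < 2 ^ n := by positivity
  have h8 : 3 / 16 * 2 ^ n ≤ (Gd.card : ℝ) := by
    have h9 : (0 : ℝ) < 3 * 2 ^ n * q y ^ 2 := by positivity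
    rw [← mul_le_mul_iff_left₀ h9]
    refine le_trans (le_of_eq ?_) h6
    ring
  linarith

lemma Rd_neg (τ : Fin n → Bool) (y : Fin n → ℝ) : Rd (fun j => !τ j) y = -Rd τ y := by
  unfold Rd
  rw [← sum_neg_distrib]
  refine sum_congr rfl fun j _ => ?_
  show (if (!τ j) = true then y j else -y j) = -(if τ j = true then y j else -y j)
  cases τ j <;> simp

/-- small ball estimate with a shift -/
lemma small_ball (y : Fin n → ℝ) (hy : 1 / 4 ≤ q y) (s : ℝ) :
    ((univ.filter fun τ : Fin n → Bool => |Rd τ y + s| ≤ 1 / 4).card : ℝ) ≤ 29 / 32 * 2 ^ n := by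
  classical
  set U := univ.filter fun τ : Fin n → Bool => |Rd τ y + s| ≤ 1 / 4 with hU
  set V := univ.filter fun τ : Fin n → Bool => |Rd τ y - s| ≤ 1 / 4 with hV
  have hUV : U.card = V.card := by
    refine Finset.card_bij (fun τ _ => fun j => !τ j) ?_ ?_ ?_
    · intro τ hτ
      rw [hV, mem_filter]
      refine ⟨mem_univ _, ?_⟩
      rw [Rd_neg, ← abs_neg]
      have := (mem_filter.1 hτ).2
      rw [show -(-Rd τ y - s) = Rd τ y + s by ring]
      exact this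
    · intro τ _ τ' _ h
      funext j
      have := congrFun h j
      simpa using this
    · intro τ hτ
      refine ⟨fun j => !τ j, ?_, by funext j; simp⟩
      rw [hU, mem_filter]
      refine ⟨mem_univ _, ?_⟩
      rw [Rd_neg, ← abs_neg]
      have := (mem_filter.1 hτ).2
      rw [show -(-Rd τ y + s) = Rd τ y - s by ring]
      exact this
  have h1 : (U ∩ V) ⊆ univ.filter fun τ : Fin n → Bool => Rd τ y ^ 2 ≤ q y / 4 := by
    intro τ hτ
    rw [mem_inter] at hτ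
    have h2 := (mem_filter.1 hτ.1).2
    have h3 := (mem_filter.1 hτ.2).2
    rw [mem_filter]
    refine ⟨mem_univ _, ?_⟩
    rw [abs_le] at h2 h3
    have h4 : |Rd τ y| ≤ 1 / 4 := by rw [abs_le]; constructor <;> linarith [h2.1, h2.2, h3.1, h3.2]
    have h5 : Rd τ y ^ 2 ≤ (1 / 4) ^ 2 := by
      rw [← sq_abs]; exact pow_le_pow_left₀ (abs_nonneg _) h4 2
    linarith
  have h2 : ((U ∩ V).card : ℝ) ≤ 13 / 16 * 2 ^ n :=
    le_trans (by exact_mod_cast card_le_card h1) (small_sq y (by linarith))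
  have h3 : (U.card : ℝ) + V.card ≤ 2 ^ n + (U ∩ V).card := by
    rw [← card_bool n]
    have h4 := card_union_add_card_inter U V
    have h5 : (U ∪ V).card ≤ (univ : Finset (Fin n → Bool)).card := card_le_univ _
    exact_mod_cast (by omega : U.card + V.card ≤ (univ : Finset (Fin n → Bool)).card + (U ∩ V).card)
  rw [← hUV] at h3
  linarith

lemma small_Lb {β : ℝ} (h0 : -1 ≤ β) (h1 : β ≤ 0) (y : Fin n → ℝ) (hy : 1 / 4 ≤ q y) :
    ((univ.filter fun τ : Fin n → Bool => |Lb β τ y| ≤ 1 / 8).card : ℝ) ≤ 29 / 32 * 2 ^ n := by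
  classical
  refine le_trans ?_ (small_ball y hy ((1 + β) / (1 - β) * ∑ j, y j))
  norm_cast
  refine card_le_card fun τ hτ => ?_
  rw [mem_filter] at hτ ⊢
  refine ⟨hτ.1, ?_⟩
  have h2 := hτ.2
  rw [Lb_eq] at h2
  have h3 : 0 < 1 - β := by linarith
  have h4 : (1 - β) / 2 * Rd τ y + (1 + β) / 2 * ∑ j, y j =
      (1 - β) / 2 * (Rd τ y + (1 + β) / (1 - β) * ∑ j, y j) := by
    field_simp
  rw [h4, abs_mul, abs_of_pos (by linarith : (0 : ℝ) < (1 - β) / 2)] at h2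
  have h5 := abs_nonneg (Rd τ y + (1 + β) / (1 - β) * ∑ j, y j)
  nlinarith

/-! ### Littlewood-Offord -/

lemma lo_Lb {β : ℝ} (h0 : -1 ≤ β) (h1 : β ≤ 0) (u : Fin n → ℝ) {h : ℝ} (hh : 0 < h) {k : ℕ}
    (hk : 0 < k) (hc : k ≤ (univ.filter fun j => 2 * h ≤ |u j|).card) :
    ((univ.filter fun τ : Fin n → Bool => |Lb β τ u| ≤ h).card : ℝ) ≤ 2 / Real.sqrt k * 2 ^ n := by
  classical
  have h2 := Pool.Agent.R563.RRam.LOff.lo (Fin n) (fun j => (1 - β) / 2 * u j) h k hh hk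
    (hc.trans (card_le_card fun j hj => by
      rw [mem_filter] at hj ⊢
      refine ⟨hj.1, ?_⟩
      rw [abs_mul, abs_of_pos (by linarith : (0 : ℝ) < (1 - β) / 2)]
      have := hj.2
      have h5 := abs_nonneg (u j)
      nlinarith)) h (-((1 + β) / 2 * ∑ j, u j)) hh.le
  rw [div_self hh.ne', Fintype.card_fin] at h2
  refine le_trans ?_ (h2.trans (le_of_eq (by norm_num)))
  norm_cast
  refine card_le_card fun τ hτ => ?_
  rw [mem_filter] at hτ ⊢
  refine ⟨hτ.1, ?_⟩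
  have h3 := hτ.2
  rw [Lb_eq] at h3
  have h4 : (∑ v, if τ v = true then (1 - β) / 2 * u v else -((1 - β) / 2 * u v)) =
      (1 - β) / 2 * Rd τ u := by
    unfold Rd
    rw [mul_sum]
    refine sum_congr rfl fun j _ => ?_
    split_ifs <;> ring
  rw [h4, sub_neg_eq_add]
  exact h3

/-! ### Nets -/

/-- close to a vector with at most `k` nonzero coordinates -/
def Compr (k : ℕ) (ρ : ℝ) (y : Fin n → ℝ) : Prop :=
  ∃ J : Finset (Fin n), J.card ≤ k ∧ ∑ j ∈ Jᶜ, y j ^ 2 ≤ ρ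

lemma not_compr {k : ℕ} {ρ : ℝ} {y : Fin n → ℝ} (hρ : 0 < ρ) (h : ¬ Compr k ρ y) :
    k < (univ.filter fun j => ρ / n ≤ y j ^ 2).card := by
  classical
  by_contra hc
  push Not at hc
  refine h ⟨_, hc, ?_⟩
  calc ∑ j ∈ (univ.filter fun j => ρ / n ≤ y j ^ 2)ᶜ, y j ^ 2
      ≤ ∑ _j ∈ (univ.filter fun j => ρ / n ≤ y j ^ 2)ᶜ, ρ / n := by
        refine sum_le_sum fun j hj => ?_
        rw [mem_compl, mem_filter, not_and] at hj
        exact (not_le.1 (hj (mem_univ j))).le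
    _ ≤ ∑ _j : Fin n, ρ / n := sum_le_sum_of_subset_of_nonneg (subset_univ _)
        fun _ _ _ => by positivity
    _ ≤ ρ := by
        rw [sum_const, card_univ, Fintype.card_fin, nsmul_eq_mul]
        rcases Nat.eq_zero_or_pos n with h0 | h0
        · subst h0; simp; exact hρ.le
        · have : (0 : ℝ) < n := by exact_mod_cast h0
          rw [mul_div_cancel₀ _ this.ne']

open Classical in
/-- the points of the net -/
noncomputable def netp (G : ℕ) {k : ℕ} (w : Fin k → Fin n × Fin (2 * G + 1)) : Fin n → ℝ :=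
  fun j => if h : ∃ l, (w l).1 = j then ((((w h.choose).2 : ℕ) : ℝ) - G) / G else 0

lemma exists_netp {k G : ℕ} {ρ : ℝ} (hG : 0 < G) (hρ : ρ < 1) {y : Fin n → ℝ} (hy : q y = 1)
    (h : Compr k ρ y) :
    ∃ w : Fin k → Fin n × Fin (2 * G + 1), q (y - netp G w) ≤ k / G ^ 2 + ρ := by
  classical
  obtain ⟨J, hJ, hJρ⟩ := h
  have hGr : (0 : ℝ) < G := by exact_mod_cast hG
  have hJne : J.Nonempty := by
    by_contra hc
    rw [not_nonempty_iff_eq_empty] at hc
    subst hc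
    rw [compl_empty, ← q_eq, hy] at hJρ
    linarith
  have hk : 0 < k := (card_pos.2 hJne).trans_le hJ
  -- a surjection
  obtain ⟨e, he1, he2⟩ : ∃ e : Fin k → Fin n, (∀ l, e l ∈ J) ∧ ∀ j ∈ J, ∃ l, e l = j := by
    obtain ⟨j0, hj0⟩ := hJne
    refine ⟨fun l => if h : (l : ℕ) < J.card then (J.equivFin.symm ⟨l, h⟩ : Fin n) else j0, ?_, ?_⟩
    · intro l
      dsimp only
      split_ifs with h
      · exact (J.equivFin.symm ⟨l, h⟩).2
      · exact hj0
    · intro j hj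
      refine ⟨⟨(J.equivFin ⟨j, hj⟩ : ℕ), (J.equivFin ⟨j, hj⟩).2.trans_le hJ⟩, ?_⟩
      dsimp only
      rw [dif_pos (J.equivFin ⟨j, hj⟩).2]
      simp
  have hyb : ∀ j, |y j| ≤ 1 := by
    intro j
    have h1 : y j ^ 2 ≤ 1 := by
      rw [← hy, q_eq]
      exact single_le_sum (f := fun j => y j ^ 2) (fun j _ => sq_nonneg _) (mem_univ j)
    exact abs_le_one_iff_mul_self_le_one.2 (by nlinarith)
  have hfl : ∀ j, ⌊G * (y j + 1)⌋₊ < 2 * G + 1 := by
    intro j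
    have h1 := (abs_le.1 (hyb j)).2
    have h2 : (G : ℝ) * (y j + 1) ≤ (2 * G : ℕ) := by push_cast; nlinarith
    have h3 := Nat.floor_le_floor h2
    rw [Nat.floor_natCast] at h3
    omega
  refine ⟨fun l => (e l, ⟨⌊G * (y (e l) + 1)⌋₊, hfl (e l)⟩), ?_⟩
  set w : Fin k → Fin n × Fin (2 * G + 1) := fun l => (e l, ⟨⌊G * (y (e l) + 1)⌋₊, hfl (e l)⟩) with hw
  have hin : ∀ j ∈ J, (y j - netp G w j) ^ 2 ≤ 1 / G ^ 2 := by
    intro j hj
    have hex : ∃ l, (w l).1 = j := he2 j hj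
    have hv : netp G w j = ((⌊G * (y j + 1)⌋₊ : ℝ) - G) / G := by
      unfold netp
      rw [dif_pos hex]
      have h1 : e hex.choose = j := hex.choose_spec
      have h2 : ((w hex.choose).2 : ℕ) = ⌊(G : ℝ) * (y (e hex.choose) + 1)⌋₊ := rfl
      rw [h2, h1]
    rw [hv]
    have h1 := (abs_le.1 (hyb j)).1
    have h2 : (0 : ℝ) ≤ G * (y j + 1) := mul_nonneg hGr.le (by linarith)
    have h3 := Nat.floor_le h2
    have h4 := Nat.lt_floor_add_one ((G : ℝ) * (y j + 1))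
    have h5 : y j - ((⌊(G : ℝ) * (y j + 1)⌋₊ : ℝ) - G) / G =
        (G * (y j + 1) - ⌊(G : ℝ) * (y j + 1)⌋₊) / G := by field_simp; ring
    rw [h5, div_pow]
    refine div_le_div_of_nonneg_right ?_ (by positivity)
    have h6 : 0 ≤ (G : ℝ) * (y j + 1) - ⌊(G : ℝ) * (y j + 1)⌋₊ := by linarith
    nlinarith
  have hout : ∀ j ∈ Jᶜ, (y j - netp G w j) ^ 2 = y j ^ 2 := by
    intro j hj
    have hex : ¬ ∃ l, (w l).1 = j := by
      rintro ⟨l, hl⟩
      rw [mem_compl] at hj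
      exact hj (hl ▸ he1 l)
    unfold netp
    rw [dif_neg hex, sub_zero]
  rw [q_eq, ← sum_add_sum_compl J]
  simp only [Pi.sub_apply]
  refine add_le_add ?_ ?_
  · calc ∑ j ∈ J, (y j - netp G w j) ^ 2 ≤ ∑ _j ∈ J, (1 : ℝ) / G ^ 2 := sum_le_sum hin
      _ = J.card * (1 / G ^ 2) := by rw [sum_const, nsmul_eq_mul]
      _ ≤ k * (1 / G ^ 2) := mul_le_mul_of_nonneg_right (by exact_mod_cast hJ) (by positivity)
      _ = k / G ^ 2 := by ring
  · rw [sum_congr rfl hout]; exact hJρ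

lemma Lb_sub (β : ℝ) (τ : Fin n → Bool) (y z : Fin n → ℝ) :
    Lb β τ (y - z) = Lb β τ y - Lb β τ z := by
  unfold Lb
  rw [← sum_sub_distrib]
  refine sum_congr rfl fun j _ => ?_
  rw [Pi.sub_apply]; ring

lemma Lb_sq_le {β : ℝ} (h0 : -1 ≤ β) (h1 : β ≤ 0) (τ : Fin n → Bool) (y : Fin n → ℝ) :
    Lb β τ y ^ 2 ≤ n * q y := by
  unfold Lb
  refine (Finset.sum_mul_sq_le_sq_mul_sq _ _ _).trans ?_
  rw [q_eq]
  refine mul_le_mul_of_nonneg_right ?_ (sum_nonneg fun _ _ => sq_nonneg _)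
  calc ∑ j, (if τ j = true then (1 : ℝ) else β) ^ 2 ≤ ∑ _j : Fin n, (1 : ℝ) := by
        refine sum_le_sum fun j _ => ?_
        split_ifs
        · norm_num
        · nlinarith
    _ = n := by simp

/-- **Compressible vectors.** -/
lemma net_count {I : Type} [Fintype I] [DecidableEq I] {β : ℝ} (h0 : -1 ≤ β) (h1 : β ≤ 0)
    {k G : ℕ} {ρ : ℝ} (hG : 0 < G) (hn : 1 ≤ n) (hρ : ρ < 1)
    (hp : (n : ℝ) * (k / G ^ 2 + ρ) ≤ 1 / 256) :
    (Nat.card {s : I → Fin n → Bool // ∃ y, q y = 1 ∧ Compr k ρ y ∧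
      ∀ i, |Lb β (s i) y| ≤ 1 / 16} : ℝ) ≤
      ((n : ℝ) * (2 * G + 1)) ^ k * (29 / 32 * 2 ^ n) ^ Fintype.card I := by
  classical
  have hnr : (1 : ℝ) ≤ n := by exact_mod_cast hn
  set T : (Fin k → Fin n × Fin (2 * G + 1)) → Finset (I → Fin n → Bool) := fun w =>
    if 1 / 4 ≤ q (netp G w) then Fintype.piFinset fun _ : I =>
      univ.filter fun τ : Fin n → Bool => |Lb β τ (netp G w)| ≤ 1 / 8 else ∅ with hT
  have hTc : ∀ w, ((T w).card : ℝ) ≤ (29 / 32 * 2 ^ n) ^ Fintype.card I := by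
    intro w
    simp only [hT]
    split_ifs with h
    · rw [Fintype.card_piFinset, prod_const, card_univ]
      push_cast
      exact pow_le_pow_left₀ (Nat.cast_nonneg _) (small_Lb h0 h1 _ h) _
    · simp only [card_empty, Nat.cast_zero]; positivity
  have hsub : (univ.filter fun s : I → Fin n → Bool => ∃ y, q y = 1 ∧ Compr k ρ y ∧
      ∀ i, |Lb β (s i) y| ≤ 1 / 16) ⊆ univ.biUnion T := by
    intro s hs
    rw [mem_filter] at hs
    obtain ⟨-, y, hy, hcom, hs⟩ := hs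
    obtain ⟨w, hw⟩ := exists_netp (G := G) hG hρ hy hcom
    rw [mem_biUnion]
    refine ⟨w, mem_univ _, ?_⟩
    set d := y - netp G w with hd
    have hqd : (n : ℝ) * q d ≤ 1 / 256 := (mul_le_mul_of_nonneg_left hw (by linarith)).trans hp
    have hqd1 : q d ≤ 1 / 256 := by nlinarith [q_nonneg d]
    have hz : 1 / 4 ≤ q (netp G w) := by
      have e : y = netp G w + d := by rw [hd]; abel
      -- q y ≤ 2 q z + 2 q d
      have h2 : q y ≤ 2 * q (netp G w) + 2 * q d := by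
        rw [e, q_eq, q_eq (netp G w), q_eq d, mul_sum, mul_sum, ← sum_add_distrib]
        refine sum_le_sum fun j _ => ?_
        simp only [Pi.add_apply]
        nlinarith [sq_nonneg (netp G w j - d j)]
      rw [hy] at h2
      linarith
    simp only [hT, if_pos hz]
    rw [Fintype.mem_piFinset]
    intro i
    rw [mem_filter]
    refine ⟨mem_univ _, ?_⟩
    have h3 : |Lb β (s i) d| ≤ 1 / 16 := by
      have h4 := (Lb_sq_le h0 h1 (s i) d).trans hqd
      exact abs_le_of_sq_le_sq (by linarith) (by norm_num)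
    have h5 : Lb β (s i) (netp G w) = Lb β (s i) y - Lb β (s i) d := by
      rw [← Lb_sub]; congr 1; rw [hd]; abel
    rw [h5]
    calc |Lb β (s i) y - Lb β (s i) d| ≤ |Lb β (s i) y| + |Lb β (s i) d| := abs_sub _ _
      _ ≤ 1 / 16 + 1 / 16 := add_le_add (hs i) h3
      _ = 1 / 8 := by norm_num
  rw [Nat.card_eq_fintype_card, Fintype.card_subtype]
  calc ((univ.filter fun s : I → Fin n → Bool => ∃ y, q y = 1 ∧ Compr k ρ y ∧
      ∀ i, |Lb β (s i) y| ≤ 1 / 16).card : ℝ) ≤ ((univ.biUnion T).card : ℝ) := by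
        exact_mod_cast card_le_card hsub
    _ ≤ ∑ w, ((T w).card : ℝ) := by exact_mod_cast card_biUnion_le
    _ ≤ ∑ _w : Fin k → Fin n × Fin (2 * G + 1), (29 / 32 * 2 ^ n : ℝ) ^ Fintype.card I :=
        sum_le_sum fun w _ => hTc w
    _ = _ := by
        rw [sum_const, card_univ, nsmul_eq_mul, Fintype.card_fun, Fintype.card_prod,
          Fintype.card_fin, Fintype.card_fin, Fintype.card_fin]
        push_cast
        rfl

end Pool.Agent.L5helper99.RL
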