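import Pool.Agent.L5helper99.RL.Disc1

/-!
# Random two-valued matrices: the least singular value
-/

set_option autoImplicit false

open Finset Matrix

namespace Pool.Agent.L5helper99.RL

variable {n : ℕ}

lemma q_smul (a : ℝ) (v : Fin n → ℝ) : q (a • v) = a ^ 2 * q v := by
  unfold q
  simp only [smul_dotProduct, dotProduct_smul, smul_eq_mul]
  ring

/-- a unit vector orthogonal to fewer than `n` vectors -/
lemma exists_unit_orth {I : Type} [Fintype I] (hI : Fintype.card I < n) (v : I → Fin n → ℝ) :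
    ∃ u : Fin n → ℝ, q u = 1 ∧ ∀ l, ∑ i, v l i * u i = 0 := by
  classical
  have hf : LinearMap.ker (Matrix.of v).mulVecLin ≠ ⊥ :=
    LinearMap.ker_ne_bot_of_finrank_lt (by simpa using hI)
  obtain ⟨x, hx, hx0⟩ := (Submodule.ne_bot_iff _).1 hf
  have hq : 0 < q x := by
    rcases (q_nonneg x).lt_or_eq with h | h
    · exact h
    · exact absurd (dotProduct_self_eq_zero.1 h.symm) hx0
  have h0 : 0 < Real.sqrt (q x) := Real.sqrt_pos.2 hq
  refine ⟨(Real.sqrt (q x))⁻¹ • x, ?_, fun l => ?_⟩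
  · rw [q_smul, inv_pow, Real.sq_sqrt hq.le, inv_mul_cancel₀ hq.ne']
  · have h1 := congrFun (LinearMap.mem_ker.1 hx) l
    have h2 : ∑ i, v l i * x i = 0 := by
      simpa [Matrix.mulVecLin_apply, Matrix.mulVec, dotProduct] using h1
    simp only [Pi.smul_apply, smul_eq_mul]
    calc ∑ i, v l i * ((Real.sqrt (q x))⁻¹ * x i) = (Real.sqrt (q x))⁻¹ * ∑ i, v l i * x i := by
          rw [mul_sum]; exact sum_congr rfl fun i _ => by ring
      _ = 0 := by rw [h2, mul_zero]

lemma orth_le (M : Matrix (Fin n) (Fin n) ℝ) (j : Fin n) {c : Fin n → ℝ} (hc : c j = 1)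
    {u : Fin n → ℝ} (hu : q u = 1) (h : ∀ l, l ≠ j → ∑ i, M i l * u i = 0) :
    (∑ i, M i j * u i) ^ 2 ≤ q (M *ᵥ c) := by
  have h1 : ∀ l, (u ᵥ* M) l = ∑ i, M i l * u i := by
    intro l
    simp only [vecMul, dotProduct]
    exact sum_congr rfl fun i _ => mul_comm _ _
  have e : u ⬝ᵥ (M *ᵥ c) = ∑ i, M i j * u i := by
    rw [dotProduct_mulVec]
    unfold dotProduct
    rw [Finset.sum_eq_single j]
    · rw [hc, mul_one, h1]
    · intro l _ hl
      rw [h1, h l hl, zero_mul]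
    · intro hj; exact absurd (mem_univ j) hj
  rw [← e]
  calc (u ⬝ᵥ (M *ᵥ c)) ^ 2 ≤ q u * q (M *ᵥ c) := q_mul_le _ _
    _ = q (M *ᵥ c) := by rw [hu, one_mul]

/-- the two-valued matrix with the pattern `s` -/
def smat (β : ℝ) (s : Fin n → Fin n → Bool) : Matrix (Fin n) (Fin n) ℝ :=
  fun i j => if s i j then 1 else β

lemma smat_mulVec (β : ℝ) (s : Fin n → Fin n → Bool) (y : Fin n → ℝ) (i : Fin n) :
    (smat β s *ᵥ y) i = Lb β (s i) y := rfl

lemma D_count {β : ℝ} (h0 : -1 ≤ β) (h1 : β ≤ 0) {k G : ℕ} {ρ : ℝ} (hG : 0 < G) (hk : 0 < k)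
    (hn : 1 ≤ n) (hρ0 : 0 < ρ) (hρ : ρ < 1) (hp : (n : ℝ) * (k / G ^ 2 + ρ) ≤ 1 / 256)
    (j : Fin n) :
    (Nat.card {s : Fin n → Fin n → Bool // ∃ c, c j = 1 ∧
      q (smat β s *ᵥ c) ≤ ρ / n / 4} : ℝ) ≤
      (((n : ℝ) * (2 * G + 1)) ^ k * (29 / 32 * 2 ^ n) ^ (n - 1)) * 2 ^ n +
        (2 ^ n) ^ (n - 1) * (2 / Real.sqrt k * 2 ^ n) := by
  classical
  have hnr : (0 : ℝ) < n := by exact_mod_cast hn
  have hρn : 0 < ρ / n := by positivity
  have hcardI : Fintype.card {l : Fin n // l ≠ j} = n - 1 := by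
    rw [Fintype.card_subtype_compl]; simp
  have hcardI' : Fintype.card {l : Fin n // l ≠ j} < n := by omega
  have hu := fun s' : {l : Fin n // l ≠ j} → Fin n → Bool =>
    exists_unit_orth hcardI' (fun l i => if s' l i then (1 : ℝ) else β)
  choose u hu1 hu2 using hu
  set h : ℝ := Real.sqrt (ρ / n) / 2 with hh
  have hhp : 0 < h := by have := Real.sqrt_pos.2 hρn; positivity
  set C := univ.filter fun s' : {l : Fin n // l ≠ j} → Fin n → Bool => Compr k ρ (u s') with hC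
  have hCc : (C.card : ℝ) ≤ ((n : ℝ) * (2 * G + 1)) ^ k * (29 / 32 * 2 ^ n) ^ (n - 1) := by
    have h3 := net_count (n := n) (I := {l : Fin n // l ≠ j}) h0 h1 hG hn hρ hp
    rw [hcardI] at h3
    refine le_trans ?_ h3
    rw [Nat.card_eq_fintype_card, Fintype.card_subtype]
    norm_cast
    refine card_le_card fun s' hs' => ?_
    rw [hC, mem_filter] at hs'
    rw [mem_filter]
    refine ⟨mem_univ _, u s', hu1 s', hs'.2, fun l => ?_⟩
    have h4 : Lb β (s' l) (u s') = 0 := hu2 s' l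
    rw [h4, abs_zero]
    norm_num
  set F : ({l : Fin n // l ≠ j} → Fin n → Bool) → Finset (Fin n → Bool) := fun s' =>
    if s' ∈ C then univ else univ.filter fun τ => |Lb β τ (u s')| ≤ h with hF
  have hFc : ∀ s', ((F s').card : ℝ) ≤ (if s' ∈ C then (2 : ℝ) ^ n else 0) +
      2 / Real.sqrt k * 2 ^ n := by
    intro s'
    simp only [hF]
    split_ifs with hs
    · rw [card_bool]
      have : 0 ≤ 2 / Real.sqrt k * 2 ^ n := by positivity
      linarith
    · rw [zero_add]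
      refine lo_Lb h0 h1 (u s') hhp hk ?_
      have h5 : ¬ Compr k ρ (u s') := by
        intro hc; exact hs (by rw [hC, mem_filter]; exact ⟨mem_univ _, hc⟩)
      refine (not_compr hρ0 h5).le.trans (card_le_card fun l hl => ?_)
      rw [mem_filter] at hl ⊢
      refine ⟨hl.1, ?_⟩
      rw [hh, mul_div_cancel₀ _ (by norm_num : (2 : ℝ) ≠ 0), ← Real.sqrt_sq_eq_abs]
      exact Real.sqrt_le_sqrt hl.2
  set φ : (Fin n → Fin n → Bool) → (Fin n → Bool) × ({l : Fin n // l ≠ j} → Fin n → Bool) :=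
    fun s => (fun i => s i j, fun l i => s i l) with hφ
  have hφi : Function.Injective φ := by
    intro s t hst
    funext i l
    rcases eq_or_ne l j with rfl | hl
    · exact congrFun (congrArg Prod.fst hst) i
    · exact congrFun (congrFun (congrArg Prod.snd hst) ⟨l, hl⟩) i
  set T := (univ : Finset ({l : Fin n // l ≠ j} → Fin n → Bool)).biUnion fun s' =>
    (F s').image fun τ => (τ, s') with hT
  have hsub : ((univ.filter fun s : Fin n → Fin n → Bool => ∃ c, c j = 1 ∧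
      q (smat β s *ᵥ c) ≤ ρ / n / 4)).card ≤ T.card := by
    refine card_le_card_of_injOn φ ?_ hφi.injOn
    intro s hs
    rw [mem_coe, mem_filter] at hs
    obtain ⟨-, c, hc, hs⟩ := hs
    rw [mem_coe, hT, mem_biUnion]
    refine ⟨(φ s).2, mem_univ _, mem_image.2 ⟨(φ s).1, ?_, rfl⟩⟩
    simp only [hF]
    split_ifs with hsC
    · exact mem_univ _
    · rw [mem_filter]
      refine ⟨mem_univ _, ?_⟩
      have h6 := orth_le (smat β s) j hc (hu1 (φ s).2) (fun l hl => hu2 (φ s).2 ⟨l, hl⟩)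
      have h7 : Lb β (φ s).1 (u (φ s).2) = ∑ i, smat β s i j * u (φ s).2 i := rfl
      rw [h7]
      refine abs_le_of_sq_le_sq ((h6.trans hs).trans (le_of_eq ?_)) hhp.le
      rw [hh, div_pow, Real.sq_sqrt hρn.le]
      norm_num
  rw [Nat.card_eq_fintype_card, Fintype.card_subtype]
  calc _ ≤ (T.card : ℝ) := by exact_mod_cast hsub
    _ ≤ ∑ s', ((F s').card : ℝ) := by
        have h8 : T.card ≤ ∑ s', ((F s').image fun τ => (τ, s')).card := card_biUnion_le
        have h9 : ∑ s', ((F s').image fun τ => (τ, s')).card ≤ ∑ s', (F s').card :=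
          sum_le_sum fun s' _ => card_image_le
        exact_mod_cast h8.trans h9
    _ ≤ ∑ s', ((if s' ∈ C then (2 : ℝ) ^ n else 0) + 2 / Real.sqrt k * 2 ^ n) :=
        sum_le_sum fun s' _ => hFc s'
    _ = C.card * 2 ^ n + (2 ^ n) ^ (n - 1) * (2 / Real.sqrt k * 2 ^ n) := by
        rw [sum_add_distrib, sum_ite_mem, univ_inter, sum_const, sum_const, nsmul_eq_mul,
          nsmul_eq_mul, card_univ, Fintype.card_fun, hcardI]
        simp
    _ ≤ _ := by
        refine add_le_add (mul_le_mul_of_nonneg_right hCc (by positivity)) le_rfl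

/-- the bad patterns -/
lemma bad_count {β : ℝ} (h0 : -1 ≤ β) (h1 : β ≤ 0) {k G : ℕ} {ρ : ℝ} (hG : 0 < G) (hk : 0 < k)
    (hn : 1 ≤ n) (hρ0 : 0 < ρ) (hρ : ρ < 1 / 16) (hp : (n : ℝ) * (k / G ^ 2 + ρ) ≤ 1 / 256) :
    (Nat.card {s : Fin n → Fin n → Bool // ∃ y, q y = 1 ∧
      q (smat β s *ᵥ y) ≤ (ρ / n) ^ 2 / 4} : ℝ) ≤
      ((n : ℝ) * (2 * G + 1)) ^ k * (29 / 32 * 2 ^ n) ^ n + n / k *
      ((((n : ℝ) * (2 * G + 1)) ^ k * (29 / 32 * 2 ^ n) ^ (n - 1)) * 2 ^ n +
        (2 ^ n) ^ (n - 1) * (2 / Real.sqrt k * 2 ^ n)) := by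
  classical
  have hnr : (1 : ℝ) ≤ n := by exact_mod_cast hn
  have hnr0 : (0 : ℝ) < n := by linarith
  have hkr : (0 : ℝ) < k := by exact_mod_cast hk
  have hρn : 0 < ρ / n := by positivity
  have hρn1 : ρ / n ≤ ρ := div_le_self hρ0.le hnr
  set U1 := univ.filter fun s : Fin n → Fin n → Bool => ∃ y, q y = 1 ∧ Compr k ρ y ∧
      ∀ i, |Lb β (s i) y| ≤ 1 / 16 with hU1
  set U2 := univ.filter fun s : Fin n → Fin n → Bool => ∃ y, q y = 1 ∧ ¬ Compr k ρ y ∧
      q (smat β s *ᵥ y) ≤ (ρ / n) ^ 2 / 4 with hU2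
  set D : Fin n → Finset (Fin n → Fin n → Bool) := fun j =>
    univ.filter fun s : Fin n → Fin n → Bool => ∃ c, c j = 1 ∧
      q (smat β s *ᵥ c) ≤ ρ / n / 4 with hD
  set B := (((n : ℝ) * (2 * G + 1)) ^ k * (29 / 32 * 2 ^ n) ^ (n - 1)) * 2 ^ n +
        (2 ^ n) ^ (n - 1) * (2 / Real.sqrt k * 2 ^ n) with hB
  have hDc : ∀ j, ((D j).card : ℝ) ≤ B := by
    intro j
    have := D_count h0 h1 hG hk hn hρ0 (by linarith) hp j
    rw [Nat.card_eq_fintype_card, Fintype.card_subtype] at this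
    exact this
  have hU1c : (U1.card : ℝ) ≤ ((n : ℝ) * (2 * G + 1)) ^ k * (29 / 32 * 2 ^ n) ^ n := by
    have := net_count (n := n) (I := Fin n) h0 h1 hG hn (by linarith) hp
    rw [Nat.card_eq_fintype_card, Fintype.card_subtype, Fintype.card_fin] at this
    exact this
  have hU2c : (U2.card : ℝ) * k ≤ n * B := by
    have hin : ∀ s ∈ U2, k ≤ (univ.filter fun j => s ∈ D j).card := by
      intro s hs
      rw [hU2, mem_filter] at hs
      obtain ⟨-, y, hy, hny, hs⟩ := hs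
      refine (not_compr hρ0 hny).le.trans (card_le_card fun j hj => ?_)
      rw [mem_filter] at hj ⊢
      refine ⟨mem_univ _, ?_⟩
      simp only [hD, mem_filter]
      have hyj : y j ≠ 0 := by
        intro h; rw [h] at hj
        have := hj.2
        norm_num at this
        linarith
      refine ⟨mem_univ _, (y j)⁻¹ • y, by simp [hyj], ?_⟩
      rw [mulVec_smul, q_smul, inv_pow]
      have hyj2 : 0 < y j ^ 2 := by positivity
      rw [inv_mul_le_iff₀ hyj2]
      calc q (smat β s *ᵥ y) ≤ (ρ / n) ^ 2 / 4 := hs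
        _ = (ρ / n) * (ρ / n / 4) := by ring
        _ ≤ y j ^ 2 * (ρ / n / 4) := mul_le_mul_of_nonneg_right hj.2 (by positivity)
    have h3 : U2.card * k ≤ ∑ j, (D j).card := by
      calc U2.card * k = ∑ _s ∈ U2, k := by rw [sum_const, smul_eq_mul]
        _ ≤ ∑ s ∈ U2, (univ.filter fun j => s ∈ D j).card := sum_le_sum hin
        _ = ∑ s ∈ U2, ∑ j, if s ∈ D j then 1 else 0 :=
            sum_congr rfl fun s _ => card_filter _ _
        _ = ∑ j, ∑ s ∈ U2, if s ∈ D j then 1 else 0 := sum_comm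
        _ ≤ ∑ j, (D j).card := by
            refine sum_le_sum fun j _ => ?_
            rw [← card_filter]
            refine card_le_card fun s hs => ?_
            exact (mem_filter.1 hs).2
    calc (U2.card : ℝ) * k = ((U2.card * k : ℕ) : ℝ) := by push_cast; ring
      _ ≤ ((∑ j, (D j).card : ℕ) : ℝ) := by exact_mod_cast h3
      _ = ∑ j, ((D j).card : ℝ) := by push_cast; rfl
      _ ≤ ∑ _j : Fin n, B := sum_le_sum fun j _ => hDc j
      _ = n * B := by simp
  have hsub : (univ.filter fun s : Fin n → Fin n → Bool => ∃ y, q y = 1 ∧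
      q (smat β s *ᵥ y) ≤ (ρ / n) ^ 2 / 4) ⊆ U1 ∪ U2 := by
    intro s hs
    rw [mem_filter] at hs
    obtain ⟨-, y, hy, hs⟩ := hs
    rw [mem_union]
    by_cases hc : Compr k ρ y
    · left
      rw [hU1, mem_filter]
      refine ⟨mem_univ _, y, hy, hc, fun i => ?_⟩
      refine abs_le_of_sq_le_sq ?_ (by norm_num)
      have h4 : (smat β s *ᵥ y) i ^ 2 ≤ q (smat β s *ᵥ y) := by
        rw [q_eq]
        exact single_le_sum (f := fun i => (smat β s *ᵥ y) i ^ 2) (fun i _ => sq_nonneg _)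
          (mem_univ i)
      rw [smat_mulVec] at h4
      nlinarith
    · right
      rw [hU2, mem_filter]
      exact ⟨mem_univ _, y, hy, hc, hs⟩
  rw [Nat.card_eq_fintype_card, Fintype.card_subtype]
  calc _ ≤ ((U1 ∪ U2).card : ℝ) := by exact_mod_cast card_le_card hsub
    _ ≤ U1.card + U2.card := by exact_mod_cast card_union_le _ _
    _ ≤ _ := by
        refine add_le_add hU1c ?_
        rw [div_mul_eq_mul_div, le_div_iff₀ hkr]
        exact hU2c

end Pool.Agent.L5helper99.RL
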