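import Pool.Agent.L5helper99.RL.Disc2

/-!
# Random two-valued matrices: the proportion of bad matrices tends to zero
-/

set_option autoImplicit false

open Finset Matrix Filter Topology

namespace Pool.Agent.L5helper99.RL

/-- the sparsity -/
noncomputable def kk (n : ℕ) : ℕ := ⌊(n : ℝ) ^ (3 / 4 : ℝ)⌋₊

/-- the bound for the proportion of bad matrices -/
noncomputable def ff (n : ℕ) : ℝ :=
  (65 * (n : ℝ) ^ 2) ^ (kk n) * (29 / 32) ^ n +
    n / (kk n) * ((65 * (n : ℝ) ^ 2) ^ (kk n) * (29 / 32) ^ (n - 1) + 2 / Real.sqrt (kk n))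

lemma ff_nonneg (n : ℕ) : 0 ≤ ff n := by unfold ff; positivity

/-- the majorant -/
noncomputable def gg (x : ℝ) : ℝ :=
  3 * x * Real.exp (1 - x / 32) + 8 * x ^ (-(1 / 8) : ℝ)

lemma gg_tendsto : Tendsto gg atTop (𝓝 0) := by
  have h1 : Tendsto (fun x : ℝ => 3 * x * Real.exp (1 - x / 32)) atTop (𝓝 0) := by
    have h2 := Real.tendsto_pow_mul_exp_neg_atTop_nhds_zero 1
    have h3 : Tendsto (fun x : ℝ => x / 32) atTop atTop :=
      tendsto_id.atTop_div_const (by norm_num)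
    have h4 := (h2.comp h3).const_mul (96 * Real.exp 1)
    rw [mul_zero] at h4
    refine h4.congr fun x => ?_
    simp only [Function.comp_apply, pow_one]
    rw [sub_eq_add_neg, Real.exp_add]
    ring
  have h2 : Tendsto (fun x : ℝ => 8 * x ^ (-(1 / 8) : ℝ)) atTop (𝓝 0) := by
    have := (tendsto_rpow_neg_atTop (by norm_num : (0 : ℝ) < 1 / 8)).const_mul 8
    rwa [mul_zero] at this
  have := h1.add h2
  rw [add_zero] at this
  exact this

lemma ff_le : ∀ᶠ n : ℕ in atTop, ff n ≤ gg (n : ℝ) := by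
  have e1 : ∀ᶠ x : ℝ in atTop, Real.log x ≤ 1 / 100 * x ^ (1 / 4 : ℝ) := by
    have h := (isLittleO_log_rpow_atTop (by norm_num : (0 : ℝ) < 1 / 4)).bound
      (by norm_num : (0 : ℝ) < 1 / 100)
    filter_upwards [h, eventually_ge_atTop 1] with x hx hx1
    rw [Real.norm_eq_abs, Real.norm_eq_abs, abs_of_nonneg (Real.log_nonneg hx1),
      abs_of_nonneg (by positivity)] at hx
    exact hx
  have e2 : ∀ᶠ x : ℝ in atTop, 320 ≤ x ^ (1 / 4 : ℝ) :=
    (tendsto_rpow_atTop (by norm_num : (0 : ℝ) < 1 / 4)).eventually_ge_atTop 320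
  have e3 := tendsto_natCast_atTop_atTop (R := ℝ)
  filter_upwards [e3.eventually e1, e3.eventually e2, eventually_ge_atTop (16 : ℕ)] with n h1 h2 h3
  have hn : (16 : ℝ) ≤ n := by exact_mod_cast h3
  set x : ℝ := (n : ℝ) with hx
  have hx0 : 0 < x := by linarith
  have hy0 : 0 < x ^ (1 / 4 : ℝ) := by positivity
  have hx34 : x ^ (3 / 4 : ℝ) = (x ^ (1 / 4 : ℝ)) ^ 3 := by
    rw [← Real.rpow_natCast, ← Real.rpow_mul hx0.le]; norm_num
  have hx4 : x = (x ^ (1 / 4 : ℝ)) ^ 4 := by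
    rw [← Real.rpow_natCast, ← Real.rpow_mul hx0.le]; norm_num
  set y : ℝ := x ^ (1 / 4 : ℝ) with hy
  have hk1 : (kk n : ℝ) ≤ y ^ 3 := by
    rw [← hx34]; exact Nat.floor_le (by positivity)
  have hk2 : y ^ 3 / 2 ≤ (kk n : ℝ) := by
    have h4 : y ^ 3 - 1 < (kk n : ℝ) := by
      have := Nat.lt_floor_add_one (x ^ (3 / 4 : ℝ))
      rw [hx34] at this
      unfold kk
      rw [← hx, hx34]
      linarith
    have h5 : (320 : ℝ) ^ 3 ≤ y ^ 3 := pow_le_pow_left₀ (by norm_num) h2 3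
    linarith
  have hy3 : 0 < y ^ 3 := by positivity
  have hk0 : (0 : ℝ) < kk n := by linarith
  -- the main factor
  have hM : (65 * x ^ 2) ^ (kk n) * (29 / 32 : ℝ) ^ (n - 1) ≤ Real.exp (1 - x / 32) := by
    have h4 : (65 * x ^ 2) ^ (kk n) ≤ Real.exp (y ^ 3 * (5 + 2 * (1 / 100 * y))) := by
      have h5 : (65 * x ^ 2 : ℝ) = Real.exp (Real.log (65 * x ^ 2)) :=
        (Real.exp_log (by positivity)).symm
      rw [h5, ← Real.exp_nat_mul]
      refine Real.exp_le_exp.2 ?_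
      have h6 : Real.log (65 * x ^ 2) ≤ 5 + 2 * (1 / 100 * y) := by
        rw [Real.log_mul (by norm_num) (by positivity), Real.log_pow]
        have h7 : Real.log 65 ≤ 5 := by
          rw [Real.log_le_iff_le_exp (by norm_num)]
          have h8 : (2.7 : ℝ) ≤ Real.exp 1 := by
            have := Real.exp_one_gt_d9; linarith
          have h9 : Real.exp 5 = Real.exp 1 ^ 5 := by rw [← Real.exp_nat_mul]; norm_num
          rw [h9]
          have h10 := pow_le_pow_left₀ (by norm_num) h8 5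
          refine le_trans ?_ h10
          norm_num
        push_cast
        linarith
      have h7 : 0 ≤ Real.log (65 * x ^ 2) := Real.log_nonneg (by nlinarith)
      exact mul_le_mul hk1 h6 h7 hy3.le
    have h5 : (29 / 32 : ℝ) ^ (n - 1) ≤ Real.exp (-(3 / 32) * (x - 1)) := by
      have h6 : (29 / 32 : ℝ) ≤ Real.exp (-(3 / 32)) := by
        have := Real.add_one_le_exp (-(3 / 32 : ℝ)); linarith
      calc (29 / 32 : ℝ) ^ (n - 1) ≤ Real.exp (-(3 / 32)) ^ (n - 1) :=
            pow_le_pow_left₀ (by norm_num) h6 _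
        _ = Real.exp (-(3 / 32) * (x - 1)) := by
            rw [← Real.exp_nat_mul, Nat.cast_sub (by omega), Nat.cast_one, mul_comm]
    calc (65 * x ^ 2) ^ (kk n) * (29 / 32 : ℝ) ^ (n - 1)
        ≤ Real.exp (y ^ 3 * (5 + 2 * (1 / 100 * y))) * Real.exp (-(3 / 32) * (x - 1)) :=
          mul_le_mul h4 h5 (by positivity) (Real.exp_pos _).le
      _ = Real.exp (y ^ 3 * (5 + 2 * (1 / 100 * y)) + -(3 / 32) * (x - 1)) :=
          (Real.exp_add _ _).symm
      _ ≤ Real.exp (1 - x / 32) := by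
          refine Real.exp_le_exp.2 ?_
          have h6 : 320 * y ^ 3 ≤ x := by
            rw [hx4]
            have : y ^ 4 = y * y ^ 3 := by ring
            rw [this]
            exact mul_le_mul_of_nonneg_right h2 hy3.le
          have h7 : y ^ 3 * (5 + 2 * (1 / 100 * y)) = 5 * y ^ 3 + x / 50 := by
            rw [hx4]; ring
          rw [h7]
          linarith
  have hM' : (65 * x ^ 2) ^ (kk n) * (29 / 32 : ℝ) ^ n ≤ Real.exp (1 - x / 32) := by
    refine le_trans ?_ hM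
    refine mul_le_mul_of_nonneg_left ?_ (by positivity)
    exact pow_le_pow_of_le_one (by norm_num) (by norm_num) (by omega)
  have hnk : x / kk n ≤ 2 * y := by
    rw [div_le_iff₀ hk0]
    calc x = y ^ 4 := hx4
      _ = 2 * y * (y ^ 3 / 2) := by ring
      _ ≤ 2 * y * kk n := mul_le_mul_of_nonneg_left hk2 (by positivity)
  have hyx : y ≤ x := by
    rw [hx4]
    have h5 : (1 : ℝ) ≤ y ^ 3 := by
      have : (320 : ℝ) ^ 3 ≤ y ^ 3 := pow_le_pow_left₀ (by norm_num) h2 3
      linarith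
    nlinarith
  have hsq : x / kk n * (2 / Real.sqrt (kk n)) ≤ 8 * x ^ (-(1 / 8) : ℝ) := by
    -- sqrt k ≥ sqrt (y^3/2) ≥ y^{3/2}/2
    set z : ℝ := Real.sqrt y with hz
    have hz2 : z ^ 2 = y := Real.sq_sqrt hy0.le
    have hz0 : 0 < z := Real.sqrt_pos.2 hy0
    have h5 : z ^ 3 / 2 ≤ Real.sqrt (kk n) := by
      refine Real.le_sqrt_of_sq_le ?_
      refine le_trans ?_ hk2
      rw [div_pow, ← pow_mul, show 3 * 2 = 2 * 3 by norm_num, pow_mul, hz2]
      linarith
    have h6 : 2 / Real.sqrt (kk n) ≤ 4 / z ^ 3 := by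
      rw [div_le_div_iff₀ (by positivity) (by positivity)]
      linarith
    have h7 : x ^ (-(1 / 8) : ℝ) = 1 / z := by
      have h8 : z = x ^ (1 / 8 : ℝ) := by
        rw [hz, hy, Real.sqrt_eq_rpow, ← Real.rpow_mul hx0.le]; norm_num
      rw [h8, Real.rpow_neg hx0.le]
      exact (one_div _).symm
    rw [h7]
    calc x / kk n * (2 / Real.sqrt (kk n)) ≤ 2 * y * (4 / z ^ 3) :=
          mul_le_mul hnk h6 (by positivity) (by positivity)
      _ = 8 * (1 / z) := by
          rw [← hz2]; field_simp; norm_num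
  unfold ff gg
  rw [← hx]
  have hE := (Real.exp_pos (1 - x / 32)).le
  calc _ ≤ Real.exp (1 - x / 32) + (x / kk n * Real.exp (1 - x / 32) +
        x / kk n * (2 / Real.sqrt (kk n))) := by
        refine add_le_add hM' ?_
        rw [mul_add]
        exact add_le_add (mul_le_mul_of_nonneg_left hM (by positivity)) le_rfl
    _ ≤ Real.exp (1 - x / 32) + (2 * x * Real.exp (1 - x / 32) + 8 * x ^ (-(1 / 8) : ℝ)) := by
        refine add_le_add le_rfl (add_le_add ?_ hsq)
        exact mul_le_mul_of_nonneg_right (hnk.trans (by linarith)) hE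
    _ ≤ _ := by nlinarith

lemma ff_tendsto : Tendsto ff atTop (𝓝 0) := by
  refine tendsto_of_tendsto_of_tendsto_of_le_of_le' tendsto_const_nhds
    (gg_tendsto.comp (tendsto_natCast_atTop_atTop (R := ℝ))) (Eventually.of_forall ff_nonneg) ?_
  exact ff_le

/-- the proportion of the patterns with a small least singular value -/
lemma bad_frac {β : ℝ} (h0 : -1 ≤ β) (h1 : β ≤ 0) {n : ℕ} (hn : 1 ≤ n) :
    (Nat.card {s : Fin n → Fin n → Bool // ∃ y, q y = 1 ∧
      q (smat β s *ᵥ y) ≤ 1 / (2 ^ 20 * (n : ℝ) ^ 4)} : ℝ) ≤ ff n * (2 ^ n) ^ n := by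
  have hnr : (1 : ℝ) ≤ n := by exact_mod_cast hn
  have hnr0 : (0 : ℝ) < n := by linarith
  have hk0 : 0 < kk n := by
    unfold kk
    rw [Nat.floor_pos]
    exact Real.one_le_rpow hnr (by norm_num)
  have hkn : kk n ≤ n := by
    have h2 : (kk n : ℝ) ≤ n := by
      refine (Nat.floor_le (by positivity)).trans ?_
      calc (n : ℝ) ^ (3 / 4 : ℝ) ≤ (n : ℝ) ^ (1 : ℝ) :=
            Real.rpow_le_rpow_of_exponent_le hnr (by norm_num)
        _ = n := Real.rpow_one _
    exact_mod_cast h2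
  have hknr : (kk n : ℝ) ≤ n := by exact_mod_cast hkn
  set ρ : ℝ := 1 / (512 * n) with hρ
  have hρ0 : 0 < ρ := by positivity
  have hρ1 : ρ < 1 / 16 := by
    rw [hρ, div_lt_div_iff₀ (by positivity) (by norm_num)]
    nlinarith
  have hp : (n : ℝ) * (kk n / ((32 * n : ℕ) : ℝ) ^ 2 + ρ) ≤ 1 / 256 := by
    push_cast
    have e : (n : ℝ) * (kk n / (32 * n) ^ 2 + ρ) = (kk n / n) / 1024 + 1 / 512 := by
      rw [hρ]; field_simp; ring
    rw [e]
    have : (kk n : ℝ) / n ≤ 1 := div_le_one_of_le₀ hknr hnr0.le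
    linarith
  have h := bad_count h0 h1 (G := 32 * n) (by omega) hk0 hn hρ0 hρ1 hp
  have e1 : (ρ / n) ^ 2 / 4 = 1 / (2 ^ 20 * (n : ℝ) ^ 4) := by
    rw [hρ]; field_simp; norm_num
  rw [e1] at h
  refine h.trans ?_
  have hR : ((n : ℝ) * (2 * (32 * n : ℕ) + 1)) ^ kk n ≤ (65 * (n : ℝ) ^ 2) ^ kk n := by
    refine pow_le_pow_left₀ (by positivity) ?_ _
    push_cast
    nlinarith
  have hpow : ((2 : ℝ) ^ n) ^ (n - 1) * 2 ^ n = (2 ^ n) ^ n := by
    rw [← pow_succ]; congr 1; omega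
  unfold ff
  calc _ ≤ (65 * (n : ℝ) ^ 2) ^ kk n * (29 / 32 * 2 ^ n) ^ n + n / kk n *
      (((65 * (n : ℝ) ^ 2) ^ kk n * (29 / 32 * 2 ^ n) ^ (n - 1)) * 2 ^ n +
        (2 ^ n) ^ (n - 1) * (2 / Real.sqrt (kk n) * 2 ^ n)) := by
        refine add_le_add (mul_le_mul_of_nonneg_right hR (by positivity)) ?_
        refine mul_le_mul_of_nonneg_left (add_le_add ?_ le_rfl) (by positivity)
        refine mul_le_mul_of_nonneg_right ?_ (by positivity)
        exact mul_le_mul_of_nonneg_right hR (by positivity)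
    _ = _ := by
        rw [mul_pow (29 / 32 : ℝ) _ n, mul_pow (29 / 32 : ℝ) _ (n - 1), ← hpow]
        generalize ((2 : ℝ) ^ n) ^ (n - 1) = Q
        generalize (2 : ℝ) ^ n = P
        ring

end Pool.Agent.L5helper99.RL
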