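import Pool.Agent.L5helper99.RL.Pack
import Pool.Agent.L5helper99.RL.Alg

/-!
# The algorithm and its cost
-/

set_option autoImplicit false

open Finset Matrix
open scoped Matrix.Norms.L2Operator

namespace Pool.Agent.L5helper99.RL

variable {X : Type}

/-- iterating boundedly often -/
theorem Cmp.iterB {S : Set (X → ℝ)} {F : ℕ → Set (X → ℝ)} {T0 T : ℕ} (h0 : Cmp S T0 (F 0))
    (k : ℕ) (h : ∀ j < k, Cmp (S ∪ F j) T (F (j + 1))) :
    Cmp S (T0 + k * T) (⋃ i ∈ Finset.range (k + 1), F i) := by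
  induction k with
  | zero => simpa using h0
  | succ k ih =>
    have h1 := (ih fun j hj => h j (by omega)).trans (G := F (k + 1)) (T' := T)
      ((h k (by omega)).sup ?_)
    · refine (h1.le (by ring_nf; omega)).sub ?_
      intro f hf
      simp only [Set.mem_iUnion, Finset.mem_range, exists_prop] at hf ⊢
      obtain ⟨i, hi, hf⟩ := hf
      rcases Nat.lt_succ_iff_lt_or_eq.1 hi with h2 | h2
      · left
        simp only [Set.mem_iUnion, Finset.mem_range, exists_prop]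
        exact ⟨i, h2, hf⟩
      · right; rwa [h2] at hf
    · refine Set.union_subset_union_right _ ?_
      intro f hf
      simp only [Set.mem_iUnion, Finset.mem_range, exists_prop]
      exact ⟨k, by omega, hf⟩

variable {n : ℕ}

/-- the entries of a matrix -/
def ent (M : X → Matrix (Fin n) (Fin n) ℝ) : Set (X → ℝ) :=
  Set.range fun ij : Fin n × Fin n => fun x => M x ij.1 ij.2

/-- the entries of a vector -/
def entv (v : X → Fin n → ℝ) : Set (X → ℝ) := Set.range fun i : Fin n => fun x => v x i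

lemma mem_ent (M : X → Matrix (Fin n) (Fin n) ℝ) (i j : Fin n) : (fun x => M x i j) ∈ ent M :=
  ⟨(i, j), rfl⟩

lemma mem_entv (v : X → Fin n → ℝ) (i : Fin n) : (fun x => v x i) ∈ entv v := ⟨i, rfl⟩

theorem Cmp.mapM {S : Set (X → ℝ)} {M : X → Matrix (Fin n) (Fin n) ℝ} {c : ℕ}
    (h : ∀ i j, C1 S c (fun x => M x i j)) : Cmp S (n * n * c) (ent M) := by
  have := Cmp.range (S := S) (T := c) (f := fun ij : Fin n × Fin n => fun x => M x ij.1 ij.2)
    fun ij => h ij.1 ij.2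
  rwa [Fintype.card_prod, Fintype.card_fin] at this

theorem Cmp.mapV {S : Set (X → ℝ)} {v : X → Fin n → ℝ} {c : ℕ}
    (h : ∀ i, C1 S c (fun x => v x i)) : Cmp S (n * c) (entv v) := by
  have := Cmp.range (S := S) (T := c) (f := fun i : Fin n => fun x => v x i) h
  rwa [Fintype.card_fin] at this

/-- the rounded quotient of a matrix by a power of two -/
noncomputable def flr (Qb : ℕ) (M : Matrix (Fin n) (Fin n) ℝ) : Matrix (Fin n) (Fin n) ℝ :=
  fun i j => (⌊M i j / 2 ^ Qb⌋ : ℝ)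

/-- the scaled and rounded matrix -/
noncomputable def Zf (sc Qb : ℕ) (A : Matrix (Fin n) (Fin n) ℝ) : Matrix (Fin n) (Fin n) ℝ :=
  fun i j => (⌊2 ^ Qb * A i j / 2 ^ sc⌋ : ℝ)

/-- the squares -/
noncomputable def Yf (sc Qb : ℕ) (A : Matrix (Fin n) (Fin n) ℝ) : ℕ → Matrix (Fin n) (Fin n) ℝ
  | 0 => (2 ^ Qb : ℝ) • (1 : Matrix (Fin n) (Fin n) ℝ) - flr Qb ((Zf sc Qb A)ᵀ * Zf sc Qb A)
  | k + 1 => flr Qb (Yf sc Qb A k * Yf sc Qb A k)

/-- products of the factors -/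
noncomputable def Rf (sc Qb : ℕ) (A : Matrix (Fin n) (Fin n) ℝ) : ℕ → Matrix (Fin n) (Fin n) ℝ
  | 0 => 1
  | k + 1 => (1 + (1 / 2 ^ Qb : ℝ) • Yf sc Qb A k) * Rf sc Qb A k

/-- the correction computed from the residual `r` -/
noncomputable def zf (sc Qb : ℕ) (A : Matrix (Fin n) (Fin n) ℝ) (r : Fin n → ℝ) : ℕ → Fin n → ℝ
  | 0 => fun i => (∑ j, Zf sc Qb A j i * r j) / 2 ^ (Qb + sc)
  | k + 1 => fun i => zf sc Qb A r k i + (∑ j, Yf sc Qb A k i j * zf sc Qb A r k j) / 2 ^ Qb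

/-- the iterates -/
noncomputable def xf (sc Qb K : ℕ) (A : Matrix (Fin n) (Fin n) ℝ) (b : Fin n → ℝ) :
    ℕ → Fin n → ℝ
  | 0 => fun _ => 0
  | m + 1 => fun i => xf sc Qb K A b m i +
      zf sc Qb A (fun i => b i - ∑ j, A i j * xf sc Qb K A b m j) K i

/-! ### Correctness -/

/-- the hypotheses on the matrix: `2 ^ sc` is at least twice the Frobenius norm, and `Aᵀ` does not
decrease the norm by a factor less than `2 ^ (-c)` -/
def Good (sc c : ℕ) (A : Matrix (Fin n) (Fin n) ℝ) : Prop :=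
  ∑ i, ∑ j, (2 * A i j) ^ 2 ≤ (2 ^ sc) ^ 2 ∧ ∀ v, q v ≤ (2 ^ c) ^ 2 * q (Aᵀ *ᵥ v)

lemma floor_err (x : ℝ) : |(⌊x⌋ : ℝ) - x| ≤ 1 := by
  have h1 := Int.floor_le x
  have h2 := Int.lt_floor_add_one x
  rw [abs_le]; constructor <;> linarith

lemma norm_toLp_eq (v : Fin n → ℝ) :
    ‖(WithLp.toLp 2 v : EuclideanSpace ℝ (Fin n))‖ = Real.sqrt (q v) := by
  rw [← norm_sq_toLp, Real.sqrt_sq (norm_nonneg _)]

/-- triangle inequality -/
lemma sqrt_q_add (v w : Fin n → ℝ) : Real.sqrt (q (v + w)) ≤ Real.sqrt (q v) + Real.sqrt (q w) := by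
  rw [← norm_toLp_eq, ← norm_toLp_eq, ← norm_toLp_eq, WithLp.toLp_add]
  exact norm_add_le _ _

theorem correct {sc c p K Qb : ℕ} (hn : n ≤ 2 ^ p) (hK : K = 2 * (c + sc + 1) + 1)
    (hQ : Qb = 4 * K + p + 3) {A : Matrix (Fin n) (Fin n) ℝ} (hA : Good sc c A) :
    (∀ i j, |Zf sc Qb A i j| ≤ 2 ^ Qb) ∧ (∀ k ≤ K, ∀ i j, |Yf sc Qb A k i j| ≤ 2 ^ (Qb + 1)) ∧
    ‖1 - ((1 / 2 ^ sc : ℝ) • A) * Rf sc Qb A K * ((1 / 2 ^ Qb : ℝ) • Zf sc Qb A)ᵀ‖ ≤ 1 / 2 := by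
  obtain ⟨hA1, hA2⟩ := hA
  have hS : (0 : ℝ) < 2 ^ sc := by positivity
  have hQp : (0 : ℝ) < 2 ^ Qb := by positivity
  set A' : Matrix (Fin n) (Fin n) ℝ := (1 / 2 ^ sc : ℝ) • A with hA'
  set At : Matrix (Fin n) (Fin n) ℝ := (1 / 2 ^ Qb : ℝ) • Zf sc Qb A with hAt
  set η : ℝ := n / 2 ^ Qb with hη
  have hη0 : 0 ≤ η := by positivity
  have hηle : η ≤ 1 / 2 ^ (4 * K + 3) := by
    rw [hη, hQ, div_le_div_iff₀ (by positivity) (by positivity), one_mul]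
    have h1 : (2 : ℝ) ^ (4 * K + p + 3) = 2 ^ p * 2 ^ (4 * K + 3) := by
      rw [← pow_add]; congr 1; ring
    rw [h1]
    exact mul_le_mul_of_nonneg_right (by exact_mod_cast hn) (by positivity)
  have hη8 : (9 : ℝ) ^ K * η ≤ 1 / 8 := by
    have h1 : (9 : ℝ) ^ K ≤ 2 ^ (4 * K) := by
      rw [pow_mul]; exact pow_le_pow_left₀ (by norm_num) (by norm_num) K
    calc (9 : ℝ) ^ K * η ≤ 2 ^ (4 * K) * (1 / 2 ^ (4 * K + 3)) :=
          mul_le_mul h1 hηle hη0 (by positivity)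
      _ = 1 / 8 := by
          rw [pow_add]
          field_simp
          norm_num
  have hη1 : η ≤ 1 / 8 := by
    refine le_trans ?_ hη8
    have : (1 : ℝ) ≤ 9 ^ K := one_le_pow₀ (by norm_num)
    nlinarith
  have hA'n : ‖A'‖ ≤ 1 / 2 := by
    refine norm_le_frob A' (by norm_num) ?_
    have h1 : ∑ i, ∑ j, A' i j ^ 2 = (∑ i, ∑ j, (2 * A i j) ^ 2) * (1 / (2 * 2 ^ sc)) ^ 2 := by
      rw [sum_mul]
      refine sum_congr rfl fun i _ => ?_
      rw [sum_mul]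
      refine sum_congr rfl fun j _ => ?_
      simp only [hA', Matrix.smul_apply, smul_eq_mul]
      field_simp
    rw [h1]
    calc _ ≤ (2 ^ sc) ^ 2 * (1 / (2 * 2 ^ sc)) ^ 2 :=
          mul_le_mul_of_nonneg_right hA1 (by positivity)
      _ = (1 / 2) ^ 2 := by field_simp
  have hd : ‖At - A'‖ ≤ η := by
    have : η = n * (1 / 2 ^ Qb) := by rw [hη]; ring
    rw [this]
    refine norm_le_entries _ (by positivity) fun i j => ?_
    simp only [hAt, hA', Matrix.sub_apply, Matrix.smul_apply, smul_eq_mul, Zf]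
    have h1 : 1 / 2 ^ Qb * (⌊2 ^ Qb * A i j / 2 ^ sc⌋ : ℝ) - 1 / 2 ^ sc * A i j =
        1 / 2 ^ Qb * ((⌊2 ^ Qb * A i j / 2 ^ sc⌋ : ℝ) - 2 ^ Qb * A i j / 2 ^ sc) := by
      field_simp
    rw [h1, abs_mul, abs_of_pos (by positivity : (0 : ℝ) < 1 / 2 ^ Qb)]
    exact mul_le_of_le_one_right (by positivity) (floor_err _)
  have hAtn : ‖At‖ ≤ 1 := by
    calc ‖At‖ = ‖(At - A') + A'‖ := by congr 1; abel
      _ ≤ η + 1 / 2 := (norm_add_le _ _).trans (add_le_add hd hA'n)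
      _ ≤ 1 := by linarith
  -- lower bound
  set s : ℝ := (1 / 2 ^ (c + sc + 1)) ^ 2 with hs
  have hs0 : 0 < s := by positivity
  have hs1 : s < 1 := by
    rw [hs]
    have : (1 : ℝ) / 2 ^ (c + sc + 1) < 1 := by
      rw [div_lt_one (by positivity)]
      exact one_lt_pow₀ (by norm_num) (by omega)
    have h0 : (0 : ℝ) < 1 / 2 ^ (c + sc + 1) := by positivity
    nlinarith
  have hηs : η ≤ 1 / 2 ^ (c + sc + 1) := by
    refine hηle.trans ?_
    refine one_div_le_one_div_of_le (by positivity) ?_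
    exact pow_le_pow_right₀ (by norm_num) (by omega)
  have hlow : ∀ v, s * q v ≤ q (Atᵀ *ᵥ v) := by
    intro v
    have h1 : Real.sqrt (q v) ≤ 2 ^ (c + sc) * Real.sqrt (q (A'ᵀ *ᵥ v)) := by
      have e1 : A'ᵀ *ᵥ v = (1 / 2 ^ sc : ℝ) • (Aᵀ *ᵥ v) := by
        rw [hA', transpose_smul, smul_mulVec]
      have e2 : q (A'ᵀ *ᵥ v) = (1 / 2 ^ sc : ℝ) ^ 2 * q (Aᵀ *ᵥ v) := by
        rw [e1]; unfold q; simp only [smul_dotProduct, dotProduct_smul, smul_eq_mul]; ring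
      rw [show (2 : ℝ) ^ (c + sc) * Real.sqrt (q (A'ᵀ *ᵥ v)) =
        Real.sqrt ((2 ^ (c + sc)) ^ 2 * q (A'ᵀ *ᵥ v)) by
          rw [Real.sqrt_mul (by positivity), Real.sqrt_sq (by positivity)]]
      apply Real.sqrt_le_sqrt
      rw [e2]
      refine (hA2 v).trans (le_of_eq ?_)
      rw [pow_add]
      field_simp
    have h2 : Real.sqrt (q (A'ᵀ *ᵥ v)) ≤ Real.sqrt (q (Atᵀ *ᵥ v)) + η * Real.sqrt (q v) := by
      have e1 : A'ᵀ *ᵥ v = Atᵀ *ᵥ v + (A' - At)ᵀ *ᵥ v := by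
        rw [← add_mulVec, ← transpose_add]; congr 2; abel
      rw [e1]
      refine (sqrt_q_add _ _).trans (add_le_add le_rfl ?_)
      rw [show η * Real.sqrt (q v) = Real.sqrt (η ^ 2 * q v) by
        rw [Real.sqrt_mul (by positivity), Real.sqrt_sq hη0]]
      apply Real.sqrt_le_sqrt
      refine (q_mulVec_le _ v).trans (mul_le_mul_of_nonneg_right ?_ (q_nonneg v))
      rw [norm_tr, norm_sub_rev]
      exact pow_le_pow_left₀ (norm_nonneg _) hd 2
    have h3 : (1 / 2 ^ (c + sc + 1)) * Real.sqrt (q v) ≤ Real.sqrt (q (Atᵀ *ᵥ v)) := by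
      have h4 : (1 / 2 ^ (c + sc)) * Real.sqrt (q v) ≤ Real.sqrt (q (A'ᵀ *ᵥ v)) := by
        rw [one_div, inv_mul_le_iff₀ (by positivity)]
        exact h1
      have h5 : (1 : ℝ) / 2 ^ (c + sc) = 2 * (1 / 2 ^ (c + sc + 1)) := by
        rw [pow_succ]; field_simp
      rw [h5] at h4
      have h6 := mul_le_mul_of_nonneg_right hηs (Real.sqrt_nonneg (q v))
      nlinarith
    have h7 := pow_le_pow_left₀ (by positivity) h3 2
    rw [mul_pow, Real.sq_sqrt (q_nonneg _), Real.sq_sqrt (q_nonneg _)] at h7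
    exact h7
  have hK2 : (1 - s) ^ (2 ^ K) ≤ 1 / 4 := by
    have h1 : (1 - s) ≤ Real.exp (-s) := by
      have := Real.add_one_le_exp (-s); linarith
    calc (1 - s) ^ (2 ^ K) ≤ Real.exp (-s) ^ (2 ^ K) :=
          pow_le_pow_left₀ (by linarith) h1 _
      _ = Real.exp (-(s * 2 ^ K)) := by
          rw [← Real.exp_nat_mul]; congr 1; push_cast; ring
      _ = Real.exp (-2) := by
          congr 2
          rw [hs, hK, pow_succ 2 (2 * (c + sc + 1)), mul_comm 2 (c + sc + 1), pow_mul]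
          field_simp
      _ ≤ 1 / 4 := by
          rw [Real.exp_neg, ← one_div]
          refine one_div_le_one_div_of_le (by norm_num) ?_
          have := Real.add_one_le_exp (1 : ℝ)
          have h2 : Real.exp 2 = Real.exp 1 * Real.exp 1 := by rw [← Real.exp_add]; norm_num
          rw [h2]
          nlinarith
  -- the sequences
  have hB0 : ‖(1 / 2 ^ Qb : ℝ) • Yf sc Qb A 0 - (1 - Atᵀ * At)‖ ≤ η := by
    have : η = n * (1 / 2 ^ Qb) := by rw [hη]; ring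
    rw [this]
    refine norm_le_entries _ (by positivity) fun i j => ?_
    have e1 : (Atᵀ * At) i j = (1 / 2 ^ Qb) ^ 2 * ((Zf sc Qb A)ᵀ * Zf sc Qb A) i j := by
      rw [hAt, transpose_smul, smul_mul_smul_comm, Matrix.smul_apply, smul_eq_mul]; ring
    simp only [Yf, Matrix.sub_apply, Matrix.smul_apply, smul_eq_mul, e1, flr]
    set g : ℝ := ((Zf sc Qb A)ᵀ * Zf sc Qb A) i j with hg
    have h1 : 1 / 2 ^ Qb * (2 ^ Qb * (1 : Matrix (Fin n) (Fin n) ℝ) i j - (⌊g / 2 ^ Qb⌋ : ℝ)) -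
        ((1 : Matrix (Fin n) (Fin n) ℝ) i j - (1 / 2 ^ Qb) ^ 2 * g) =
        -(1 / 2 ^ Qb * ((⌊g / 2 ^ Qb⌋ : ℝ) - g / 2 ^ Qb)) := by
      field_simp
      ring
    rw [h1, abs_neg, abs_mul, abs_of_pos (by positivity : (0 : ℝ) < 1 / 2 ^ Qb)]
    exact mul_le_of_le_one_right (by positivity) (floor_err _)
  have hB : ∀ k < K, ‖(1 / 2 ^ Qb : ℝ) • Yf sc Qb A k‖ ≤ 2 →
      ‖(1 / 2 ^ Qb : ℝ) • Yf sc Qb A (k + 1) -
        ((1 / 2 ^ Qb : ℝ) • Yf sc Qb A k) * ((1 / 2 ^ Qb : ℝ) • Yf sc Qb A k)‖ ≤ η := by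
    intro k _ _
    have : η = n * (1 / 2 ^ Qb) := by rw [hη]; ring
    rw [this]
    refine norm_le_entries _ (by positivity) fun i j => ?_
    rw [smul_mul_smul_comm]
    simp only [Yf, Matrix.sub_apply, Matrix.smul_apply, smul_eq_mul, flr]
    set g : ℝ := (Yf sc Qb A k * Yf sc Qb A k) i j with hg
    have h1 : 1 / 2 ^ Qb * (⌊g / 2 ^ Qb⌋ : ℝ) - 1 / 2 ^ Qb * (1 / 2 ^ Qb) * g =
        1 / 2 ^ Qb * ((⌊g / 2 ^ Qb⌋ : ℝ) - g / 2 ^ Qb) := by
      field_simp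
    rw [h1, abs_mul, abs_of_pos (by positivity : (0 : ℝ) < 1 / 2 ^ Qb)]
    exact mul_le_of_le_one_right (by positivity) (floor_err _)
  obtain ⟨h1, h2⟩ := approx_inverse (B := fun k => (1 / 2 ^ Qb : ℝ) • Yf sc Qb A k)
    (R := Rf sc Qb A) hη0 (hA'n.trans (by norm_num)) hAtn hd hs0 hs1 hlow hB0 hB rfl
    (fun k _ => rfl) hη8 hK2
  refine ⟨fun i j => ?_, fun k hk i j => ?_, h2⟩
  · have h3 := (entry_le At i j).trans hAtn
    rw [hAt, Matrix.smul_apply, smul_eq_mul, abs_mul,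
      abs_of_pos (by positivity : (0 : ℝ) < 1 / 2 ^ Qb), one_div, inv_mul_le_iff₀ hQp,
      mul_one] at h3
    exact h3
  · have h3 : |((1 / 2 ^ Qb : ℝ) • Yf sc Qb A k) i j| ≤ 2 := (entry_le _ i j).trans (h1 k hk)
    rw [Matrix.smul_apply, smul_eq_mul, abs_mul,
      abs_of_pos (by positivity : (0 : ℝ) < 1 / 2 ^ Qb), one_div, inv_mul_le_iff₀ hQp] at h3
    rw [pow_succ]; exact h3

lemma zf_eq (sc Qb : ℕ) (A : Matrix (Fin n) (Fin n) ℝ) (r : Fin n → ℝ) (k : ℕ) :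
    zf sc Qb A r k = (1 / 2 ^ sc : ℝ) •
      (Rf sc Qb A k * ((1 / 2 ^ Qb : ℝ) • Zf sc Qb A)ᵀ) *ᵥ r := by
  induction k with
  | zero =>
    funext i
    simp only [zf, Rf, one_mul, transpose_smul, Pi.smul_apply, smul_mulVec, smul_eq_mul, mulVec,
      dotProduct, transpose_apply]
    rw [pow_add]
    field_simp
  | succ k ih =>
    have e1 : zf sc Qb A r (k + 1) = zf sc Qb A r k +
        ((1 / 2 ^ Qb : ℝ) • Yf sc Qb A k) *ᵥ zf sc Qb A r k := by
      funext i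
      simp only [zf, Pi.add_apply, smul_mulVec, Pi.smul_apply, smul_eq_mul, mulVec, dotProduct]
      ring
    rw [e1, ih, Rf, mulVec_smul, mulVec_mulVec, ← smul_add, ← add_mulVec]
    congr 2
    noncomm_ring

theorem residual {sc c p K Qb : ℕ} (hn : n ≤ 2 ^ p) (hK : K = 2 * (c + sc + 1) + 1)
    (hQ : Qb = 4 * K + p + 3) {A : Matrix (Fin n) (Fin n) ℝ} (hA : Good sc c A) (b : Fin n → ℝ)
    (m : ℕ) : q (b - A *ᵥ xf sc Qb K A b m) ≤ (1 / 4) ^ m * q b := by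
  obtain ⟨-, -, h⟩ := correct hn hK hQ hA
  set E := 1 - ((1 / 2 ^ sc : ℝ) • A) * Rf sc Qb A K * ((1 / 2 ^ Qb : ℝ) • Zf sc Qb A)ᵀ with hE
  induction m with
  | zero =>
    have : xf sc Qb K A b 0 = 0 := rfl
    rw [this, mulVec_zero, sub_zero, pow_zero, one_mul]
  | succ m ih =>
    set r : Fin n → ℝ := b - A *ᵥ xf sc Qb K A b m with hr
    have e1 : xf sc Qb K A b (m + 1) = xf sc Qb K A b m + zf sc Qb A r K := rfl
    have e2 : b - A *ᵥ xf sc Qb K A b (m + 1) = E *ᵥ r := by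
      rw [e1, mulVec_add, zf_eq, mulVec_smul, mulVec_mulVec, hE, sub_mulVec, one_mulVec, mul_assoc,
        smul_mul, smul_mulVec, hr]
      abel
    rw [e2]
    refine (q_mulVec_le E r).trans ?_
    have h1 : ‖E‖ ^ 2 ≤ 1 / 4 := by
      calc ‖E‖ ^ 2 ≤ (1 / 2) ^ 2 := pow_le_pow_left₀ (norm_nonneg _) h 2
        _ = 1 / 4 := by norm_num
    calc ‖E‖ ^ 2 * q r ≤ 1 / 4 * ((1 / 4) ^ m * q b) :=
          mul_le_mul h1 ih (q_nonneg _) (by norm_num)
      _ = (1 / 4) ^ (m + 1) * q b := by rw [pow_succ]; ring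

end Pool.Agent.L5helper99.RL
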