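import Pool.Agent.L5helper99.RL.Disc3
import Pool.Agent.L5helper99.RL.Iter

/-!
# Random two-valued matrices are good with probability tending to one
-/

set_option autoImplicit false

open Finset Matrix Filter Topology MeasureTheory
open scoped ENNReal

namespace Pool.Agent.L5helper99.RL

variable {n : ℕ}

/-- the law of a random matrix with independent entries of law `ν` -/
noncomputable def law (ν : Measure ℝ) (n : ℕ) : Measure (Fin n → Fin n → ℝ) :=
  Measure.pi fun _ => Measure.pi fun _ => ν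

/-- normalisation -/
lemma scale_le (M : Matrix (Fin n) (Fin n) ℝ) {σ : ℝ} (hσ : 0 < σ)
    (h : ∀ y, q y = 1 → σ ≤ q (M *ᵥ y)) (v : Fin n → ℝ) : q v ≤ 1 / σ * q (M *ᵥ v) := by
  rcases (q_nonneg v).lt_or_eq with hv | hv
  · have h1 := h ((Real.sqrt (q v))⁻¹ • v) (by
      rw [q_smul, inv_pow, Real.sq_sqrt hv.le, inv_mul_cancel₀ hv.ne'])
    rw [mulVec_smul, q_smul, inv_pow, Real.sq_sqrt hv.le, inv_mul_eq_div, le_div_iff₀ hv] at h1
    rw [one_div, inv_mul_eq_div, le_div_iff₀ hσ]
    linarith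
  · rw [← hv]
    exact mul_nonneg (by positivity) (q_nonneg _)

lemma good_of {p : ℕ} (hn : 1024 ≤ n) (hp : n ≤ 2 ^ p) {A : Matrix (Fin n) (Fin n) ℝ}
    (hA : ∀ i j, |A i j| ≤ 1)
    (h : ∀ y, q y = 1 → 1 / (2 ^ 20 * (n : ℝ) ^ 4) ≤ q (Aᵀ *ᵥ y)) :
    Good (2 * p + 1) (3 * p) A := by
  have hnr : (1024 : ℝ) ≤ n := by exact_mod_cast hn
  have hpr : (n : ℝ) ≤ 2 ^ p := by exact_mod_cast hp
  refine ⟨?_, fun v => ?_⟩
  · calc ∑ i, ∑ j, (2 * A i j) ^ 2 ≤ ∑ _i : Fin n, ∑ _j : Fin n, (4 : ℝ) := by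
          refine sum_le_sum fun i _ => sum_le_sum fun j _ => ?_
          have h1 := hA i j
          have h2 : A i j ^ 2 ≤ 1 := by
            rw [← sq_abs]; exact pow_le_one₀ (abs_nonneg _) h1
          linarith [mul_pow (2 : ℝ) (A i j) 2]
      _ = 4 * (n : ℝ) ^ 2 := by simp; ring
      _ ≤ (2 ^ (2 * p + 1)) ^ 2 := by
          have e : ((2 : ℝ) ^ (2 * p + 1)) ^ 2 = 4 * (2 ^ p) ^ 2 * (2 ^ p) ^ 2 := by ring
          rw [e]
          have h1 : (n : ℝ) ^ 2 ≤ (2 ^ p) ^ 2 := pow_le_pow_left₀ (by linarith) hpr 2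
          have h2 : (1 : ℝ) ≤ (2 ^ p) ^ 2 := one_le_pow₀ (one_le_pow₀ (by norm_num))
          nlinarith
  · refine (scale_le Aᵀ (by positivity) h v).trans ?_
    refine mul_le_mul_of_nonneg_right ?_ (q_nonneg _)
    rw [one_div_one_div]
    have e : ((2 : ℝ) ^ (3 * p)) ^ 2 = (2 ^ p) ^ 2 * (2 ^ p) ^ 4 := by ring
    rw [e]
    refine mul_le_mul ?_ (pow_le_pow_left₀ (by linarith) hpr 4) (by positivity) (by positivity)
    calc (2 : ℝ) ^ 20 = 1024 ^ 2 := by norm_num
      _ ≤ (2 ^ p) ^ 2 := pow_le_pow_left₀ (by norm_num) (hnr.trans hpr) 2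

/-- a fair coin -/
noncomputable def coin : Measure Bool :=
  (1 / 2 : ℝ≥0∞) • Measure.dirac true + (1 / 2 : ℝ≥0∞) • Measure.dirac false

instance : IsProbabilityMeasure coin := by
  constructor
  simp only [coin, Measure.coe_add, Measure.coe_smul, Pi.add_apply, Pi.smul_apply, smul_eq_mul,
    measure_univ, mul_one, one_div]
  exact ENNReal.inv_two_add_inv_two

lemma coin_singleton (b : Bool) : coin {b} = 1 / 2 := by
  cases b <;> simp [coin]

/-- independent coins -/
noncomputable def coins (n : ℕ) : Measure (Fin n → Fin n → Bool) :=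
  Measure.pi fun _ => Measure.pi fun _ => coin

instance : IsProbabilityMeasure (coins n) := by unfold coins; infer_instance

lemma coins_apply (S : Set (Fin n → Fin n → Bool)) :
    coins n S = ENNReal.ofReal ((Nat.card S : ℝ) / (2 ^ n) ^ n) := by
  classical
  have h1 : ∀ s : Fin n → Fin n → Bool, coins n {s} = ENNReal.ofReal (1 / (2 ^ n) ^ n) := by
    intro s
    have h2 : ∀ i, (Measure.pi fun _ : Fin n => coin) {s i} = (1 / 2) ^ n := by
      intro i
      rw [Measure.pi_singleton, Finset.prod_congr rfl fun j _ => coin_singleton (s i j)]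
      simp
    unfold coins
    rw [Measure.pi_singleton, Finset.prod_congr rfl fun i _ => h2 i]
    rw [Finset.prod_const, Finset.card_univ, Fintype.card_fin]
    rw [ENNReal.ofReal_div_of_pos (by positivity), ENNReal.ofReal_pow (by positivity),
      ENNReal.ofReal_pow (by positivity), ENNReal.ofReal_one]
    simp only [one_div, ENNReal.ofReal_ofNat]
    rw [← ENNReal.inv_pow, ← ENNReal.inv_pow]
  have h3 : S = ((univ.filter fun s => s ∈ S : Finset (Fin n → Fin n → Bool)) :
      Set (Fin n → Fin n → Bool)) := by ext; simp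
  have h4 : Nat.card S = (univ.filter fun s => s ∈ S : Finset (Fin n → Fin n → Bool)).card := by
    rw [Nat.card_eq_fintype_card, Fintype.card_subtype]
  rw [h4]
  conv_lhs => rw [h3]
  rw [← sum_measure_singleton, Finset.sum_congr rfl fun s _ => h1 s, sum_const, nsmul_eq_mul]
  rw [← ENNReal.ofReal_natCast, ← ENNReal.ofReal_mul (Nat.cast_nonneg _)]
  congr 1
  ring

lemma map_coin (β : ℝ) : coin.map (fun b => if b then (1 : ℝ) else β) =
    (1 / 2 : ℝ≥0∞) • Measure.dirac 1 + (1 / 2 : ℝ≥0∞) • Measure.dirac β := by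
  unfold coin
  have hm : Measurable (fun b : Bool => if b then (1 : ℝ) else β) := measurable_of_finite _
  rw [Measure.map_add _ _ hm, Measure.map_smul, Measure.map_smul, Measure.map_dirac' hm,
    Measure.map_dirac' hm]
  simp

/-- the two-valued matrix with the pattern `s`, as a function -/
def smf (β : ℝ) (s : Fin n → Fin n → Bool) : Fin n → Fin n → ℝ :=
  fun i j => if s i j then 1 else β

lemma law_eq_map (β : ℝ) (n : ℕ) :
    law ((1 / 2 : ℝ≥0∞) • Measure.dirac 1 + (1 / 2 : ℝ≥0∞) • Measure.dirac β) n =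
      (coins n).map (fun s => smf β s) := by
  have hm : Measurable (fun b : Bool => if b then (1 : ℝ) else β) := measurable_of_finite _
  have : IsProbabilityMeasure (coin.map (fun b => if b then (1 : ℝ) else β)) :=
    Measure.isProbabilityMeasure_map hm.aemeasurable
  unfold law coins
  rw [← map_coin]
  have h1 := Measure.pi_map_pi (ι := Fin n) (μ := fun _ => coin)
    (f := fun _ => fun b : Bool => if b then (1 : ℝ) else β) (fun _ => hm.aemeasurable)
  have hm2 : Measurable (fun (x : Fin n → Bool) (i : Fin n) => if x i then (1 : ℝ) else β) :=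
    measurable_of_finite _
  have h2 := Measure.pi_map_pi (ι := Fin n) (μ := fun _ => Measure.pi fun _ : Fin n => coin)
    (f := fun _ => fun (x : Fin n → Bool) (i : Fin n) => if x i then (1 : ℝ) else β)
    (hμ := fun _ => by rw [h1]; infer_instance) (fun _ => hm2.aemeasurable)
  rw [← h1, ← h2]
  rfl

theorem disc_good {β : ℝ} (h0 : -1 ≤ β) (h1 : β ≤ 0) {p : ℕ} (hn : 1024 ≤ n) (hp : n ≤ 2 ^ p) :
    ENNReal.ofReal (1 - ff n) ≤
      law ((1 / 2 : ℝ≥0∞) • Measure.dirac 1 + (1 / 2 : ℝ≥0∞) • Measure.dirac β) n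
        {A | Good (2 * p + 1) (3 * p) A} := by
  classical
  rw [law_eq_map]
  have hm : Measurable (fun s : Fin n → Fin n → Bool => smf β s) :=
    measurable_of_finite _
  refine le_trans ?_ (Measure.le_map_apply hm.aemeasurable _)
  set Bad : Set (Fin n → Fin n → Bool) := {s | ∃ y, q y = 1 ∧
    q (smat β s *ᵥ y) ≤ 1 / (2 ^ 20 * (n : ℝ) ^ 4)} with hBad
  set tr : (Fin n → Fin n → Bool) ≃ (Fin n → Fin n → Bool) :=
    ⟨fun s i j => s j i, fun s i j => s j i, fun _ => rfl, fun _ => rfl⟩ with htr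
  have hsub : (tr ⁻¹' Bad)ᶜ ⊆ (fun s : Fin n → Fin n → Bool => smf β s) ⁻¹'
      {A | Good (2 * p + 1) (3 * p) A} := by
    intro s hs
    rw [Set.mem_compl_iff, Set.mem_preimage] at hs
    show Good (2 * p + 1) (3 * p) (smat β s)
    refine good_of (A := smat β s) hn hp (fun i j => ?_) fun y hy => ?_
    · unfold smat
      split_ifs
      · simp
      · rw [abs_le]; constructor <;> linarith
    · by_contra hc
      push Not at hc
      apply hs
      refine ⟨y, hy, hc.le⟩
  refine le_trans ?_ (measure_mono hsub)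
  have hcard : Nat.card (tr ⁻¹' Bad : Set _) = Nat.card Bad :=
    Nat.card_congr (tr.subtypeEquiv fun s => Iff.rfl)
  have hms : MeasurableSet (tr ⁻¹' Bad) := (Set.toFinite _).measurableSet
  rw [prob_compl_eq_one_sub hms, coins_apply, hcard, ENNReal.ofReal_sub _ (ff_nonneg n),
    ENNReal.ofReal_one]
  refine tsub_le_tsub_left (ENNReal.ofReal_le_ofReal ?_) _
  rw [div_le_iff₀ (by positivity)]
  exact bad_frac h0 h1 (by omega)

end Pool.Agent.L5helper99.RL
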