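import Pool.Agent.L5helper99.RL.Prog

/-!
# The program: correctness
-/

set_option autoImplicit false

open Finset Matrix

namespace Pool.Agent.L5helper99.RL

variable {n sc c p K Qb : ℕ}

/-- the memory before the first instruction is executed, with a `1` in the last state register -/
noncomputable def σ1 (x : X1 n sc c) : ℕ → ℝ := fun u =>
  if u = n * n + n + 1 + n then 1 else input x.1.1 x.1.2.1 x.1.2.2 u

/-- the memory at the beginning of the loop -/
noncomputable def σ2 (τ : X1 n sc c → ℕ → ℝ) (y : X2 n sc c) : ℕ → ℝ := fun u =>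
  if n * n + n + 1 ≤ u ∧ u < n * n + n + 1 + (n + 1) then y.2 (u - (n * n + n + 1)) else τ y.1 u

/-- the first part -/
theorem phase1 (hn0 : 1 ≤ n) (hn : n ≤ 2 ^ p) (hK : K = 2 * (c + sc + 1) + 1)
    (hQ : Qb = 4 * K + p + 3) :
    ∃ (c1 : List (ℕ × Op)) (τ : X1 n sc c → ℕ → ℝ) (N : ℕ),
      c1.length ≤ 150 * ((K + 1) * (n ^ 2 * (Qb + p + sc + 2))) ∧ n * n + 2 * n + 3 ≤ N ∧
      (∀ x, ∀ u, u < n * n + 2 * n + 3 → τ x u = σ1 x u) ∧
      (∀ f ∈ S2 n sc c Qb K, ∃ u, u < N ∧ True ∧ ∀ y, σ2 τ y u = f y) ∧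
      ∀ x r, (∀ u, u < n * n + 2 * n + 3 → r u = σ1 x u) → ∀ u, u < N → run c1 r u = τ x u := by
  have h1 := setup (X := X1 n sc c) (S := ent A1) (A := A1) hn0 hn hK hQ (fun x => x.2) subset_rfl
  obtain ⟨c1, τ, N, e1, e2, e3, e4, e5⟩ := h1.program (N := n * n + 2 * n + 3)
    (ok := fun u => u < n * n + n + 1 ∨ n * n + n + 1 + (n + 1) ≤ u) (fun u hu => Or.inr (by omega))
    σ1 (by
      rintro f ⟨⟨i, j⟩, rfl⟩
      have := idx_lt i j
      refine ⟨(i : ℕ) * n + j, by omega, Or.inl (by omega), fun x => ?_⟩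
      unfold σ1
      rw [if_neg (by omega), input_A]
      rfl)
  refine ⟨c1, τ, N, e1, e2, e3, ?_, e5⟩
  -- transport
  have tr : ∀ g : X1 n sc c → ℝ, g ∈ ent A1 ∪ (Pc (X1 n sc c) (Qb + sc) ∪
      (ent (fun x => Zf sc Qb (A1 x)) ∪ ⋃ k ∈ Finset.range (K + 1),
        ent (fun x => Yf sc Qb (A1 x) k))) → ∃ u, u < N ∧ True ∧
        ∀ y : X2 n sc c, σ2 τ y u = g y.1 := by
    intro g hg
    obtain ⟨u, hu, hok, hu'⟩ := e4 g hg
    refine ⟨u, hu, trivial, fun y => ?_⟩
    unfold σ2
    rw [if_neg (by omega)]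
    exact hu' y.1
  rintro f ((hf | hf) | hf | hf)
  · obtain ⟨⟨i, j⟩, rfl⟩ := hf
    exact tr (fun x => A1 x i j) (Or.inl (mem_ent A1 i j))
  · obtain ⟨i, rfl⟩ := hf
    refine ⟨n * n + i, by omega, trivial, fun y => ?_⟩
    unfold σ2
    rw [if_neg (by omega), e3 _ _ (by omega)]
    unfold σ1
    rw [if_neg (by omega), input_b]
  · rcases hf with hf | hf | hf
    · obtain ⟨t, ht, rfl⟩ := hf
      exact tr (fun _ => 2 ^ t) (Or.inr (Or.inl ⟨t, ht, rfl⟩))
    · obtain ⟨⟨i, j⟩, rfl⟩ := hf
      exact tr (fun x => Zf sc Qb (A1 x) i j) (Or.inr (Or.inr (Or.inl (mem_ent _ i j))))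
    · simp only [Set.mem_iUnion, Finset.mem_range, exists_prop] at hf
      obtain ⟨k, hk, ⟨i, j⟩, rfl⟩ := hf
      refine tr (fun x => Yf sc Qb (A1 x) k i j) (Or.inr (Or.inr (Or.inr ?_)))
      simp only [Set.mem_iUnion, Finset.mem_range, exists_prop]
      exact ⟨k, hk, mem_ent _ i j⟩
  · rcases hf with hf | hf
    · obtain ⟨i, rfl⟩ := hf
      refine ⟨n * n + n + 1 + i, by omega, trivial, fun y => ?_⟩
      unfold σ2
      rw [if_pos (by omega), Nat.add_sub_cancel_left]
      rfl
    · rw [Set.mem_singleton_iff] at hf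
      subst hf
      refine ⟨n * n + n + 1 + n, by omega, trivial, fun y => ?_⟩
      unfold σ2
      rw [if_pos (by omega), Nat.add_sub_cancel_left]

/-- the body of the loop -/
theorem phase2 (hn0 : 1 ≤ n) (hQ : Qb = 4 * K + p + 3) {τ : X1 n sc c → ℕ → ℝ} {N : ℕ}
    (hN : n * n + 2 * n + 3 ≤ N)
    (hτ : ∀ x, ∀ u, u < n * n + 2 * n + 3 → τ x u = σ1 x u)
    (hS : ∀ f ∈ S2 n sc c Qb K, ∃ u, u < N ∧ True ∧ ∀ y, σ2 τ y u = f y) :
    ∃ body : List (ℕ × Op), body.length ≤ 10 * ((K + 3) * n ^ 2) + 1 + 2 * (n + 1) ∧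
      ∀ (x : X1 n sc c) (s : ℕ → ℝ) (r : ℕ → ℝ), (∀ u, u < N → r u = σ2 τ (x, s) u) →
        ∀ u, u < N → run body r u = σ2 τ (x, next sc Qb K x.1.1 x.1.2.1 s) u := by
  classical
  obtain ⟨c2, τ2, N2, e1, e2, e3, e4, e5⟩ := (body_cost (sc := sc) (c := c) hn0 hQ).program (N := N)
    (ok := fun _ => True) (fun _ _ => trivial) (σ2 τ) hS
  -- locations of the new values
  have hloc : ∀ i : ℕ, ∃ u, i < n + 1 → (u < N2 ∧ ∀ y : X2 n sc c,
      τ2 y u = next sc Qb K y.1.1.1 y.1.1.2.1 y.2 i) := by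
    intro i
    by_cases hi : i < n
    · obtain ⟨u, hu, -, hu'⟩ := e4 (fun y => x0 y ⟨i, hi⟩ + zf sc Qb (A1 y.1)
        (fun i => y.1.1.2.1 i - ∑ j, A1 y.1 i j * x0 y j) K ⟨i, hi⟩)
        (Or.inr (Or.inl (mem_entv (fun y : X2 n sc c => fun i => x0 y i +
        zf sc Qb (A1 y.1) (fun i => y.1.1.2.1 i - ∑ j, A1 y.1 i j * x0 y j) K i) ⟨i, hi⟩)))
      refine ⟨u, fun _ => ⟨hu, fun y => ?_⟩⟩
      rw [hu']
      unfold next
      rw [dif_pos hi]
      rfl
    · obtain ⟨u, hu, -, hu'⟩ := e4 (fun y => y.2 n / 2) (Or.inr (Or.inr rfl))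
      refine ⟨u, fun _ => ⟨hu, fun y => ?_⟩⟩
      rw [hu']
      unfold next
      rw [dif_neg hi]
  choose src hsrc using hloc
  set z := n * n + n + 1 + (n + 1) with hz
  refine ⟨c2 ++ (copy N2 src z (n + 1) ++ copy (n * n + n + 1) (fun i => N2 + i) z (n + 1)),
    by simp only [List.length_append, copy_length]; omega, ?_⟩
  intro x s r hr u hu
  rw [run_append, run_append]
  set r1 := run c2 r with hr1
  have h1 : ∀ u, u < N2 → r1 u = τ2 (x, s) u := e5 (x, s) r hr
  have hz1 : r1 z = 0 := by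
    rw [h1 z (by omega), e3 _ z (by omega)]
    unfold σ2
    rw [if_neg (by omega), hτ _ _ (by omega)]
    unfold σ1
    rw [if_neg (by omega)]
    exact input_zero _ _ _ (by omega)
  obtain ⟨h2, h3⟩ := copy_run (d := N2) (src := src) (z := z) (M := n + 1)
    (fun i hi => Or.inl (hsrc i hi).1) (Or.inl (by omega)) hz1 (n + 1) le_rfl
  set r2 := run (copy N2 src z (n + 1)) r1 with hr2
  have hz2 : r2 z = 0 := by rw [h3 z (Or.inl (by omega)), hz1]
  obtain ⟨h4, h5⟩ := copy_run (d := n * n + n + 1) (src := fun i => N2 + i) (z := z) (M := n + 1)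
    (fun i hi => Or.inr (by omega)) (Or.inr (by omega)) hz2 (n + 1) le_rfl
  unfold σ2
  by_cases hcase : n * n + n + 1 ≤ u ∧ u < n * n + n + 1 + (n + 1)
  · rw [if_pos hcase]
    obtain ⟨i, hi, rfl⟩ : ∃ i, i < n + 1 ∧ u = n * n + n + 1 + i :=
      ⟨u - (n * n + n + 1), by omega, by omega⟩
    rw [h4 i hi, h2 i hi, h1 _ (hsrc i hi).1, (hsrc i hi).2]
    dsimp only
    congr 1
    omega
  · rw [if_neg hcase, h5 u (by omega), h3 u (Or.inl (by omega)), h1 u (by omega), e3 _ u hu]
    unfold σ2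
    rw [if_neg hcase]

/-- **The program.** -/
theorem machine (hn0 : 1 ≤ n) (hn : n ≤ 2 ^ p) (hK : K = 2 * (c + sc + 1) + 1)
    (hQ : Qb = 4 * K + p + 3) :
    ∃ P : List Instr, ∀ (A : Fin n → Fin n → ℝ) (b : Fin n → ℝ) (ε : ℝ), Good sc c A →
      ∀ m : ℕ, (1 / 2 : ℝ) ^ m ≤ ε → (∀ j < m, ε < (1 / 2) ^ j) →
      ∃ (k : ℕ) (r : ℕ → ℝ), (step P)^[k] (0, input A b ε) = (P.length, r) ∧
        k ≤ 150 * ((K + 1) * (n ^ 2 * (Qb + p + sc + 2))) + 2 +
          m * (10 * ((K + 3) * n ^ 2) + 2 * n + 5) ∧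
        ∀ i : Fin n, r (n * n + n + 1 + i) = xf sc Qb K A b m i := by
  obtain ⟨c1, τ, N, a1, a2, a3, a4, a5⟩ := phase1 (sc := sc) (c := c) hn0 hn hK hQ
  obtain ⟨body, b1, b2⟩ := phase2 (sc := sc) (c := c) hn0 hQ a2 a3 a4
  set w := n * n + n + 1 + n with hw
  set z := n * n + n + 1 + (n + 1) with hz
  set L := 1 + c1.length with hL
  set E := L + 1 + body.length + 1 with hE
  set P : List Instr := .set w .one :: (code c1 ++ (.jump w (n * n + n) E ::
    (code body ++ [.jump z z L]))) with hP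
  have hPE : P.length = E := by
    simp only [hP, List.length_cons, List.length_append, code_length, List.length_nil]
    omega
  refine ⟨P, fun A b ε hA m hm hmin => ?_⟩
  set x : X1 n sc c := ⟨(A, b, ε), hA⟩ with hx
  -- the first part
  obtain ⟨r0, hr0, hr0'⟩ : ∃ r0, (step P)^[L] (0, input A b ε) = (L, r0) ∧
      ∀ u, u < N → r0 u = σ2 τ (x, st sc Qb K A b 0) u := by
    refine ⟨run c1 (Function.update (input A b ε) w 1), ?_, fun u hu => ?_⟩
    · rw [hL, add_comm 1, Function.iterate_succ_apply]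
      have e1 := step_set (P := P) (pre := []) (post := code c1 ++ (.jump w (n * n + n) E ::
        (code body ++ [.jump z z L]))) (d := w) (o := .one) (by rw [hP]; rfl) (input A b ε)
      rw [List.length_nil] at e1
      rw [e1]
      have e2 := step_run (P := P) (pre := [.set w .one]) (post := .jump w (n * n + n) E ::
        (code body ++ [.jump z z L])) c1 (by rw [hP]; rfl)
        (Function.update (input A b ε) w (Op.one.eval (input A b ε)))
      rw [List.length_singleton] at e2
      rw [zero_add, e2, add_comm 1]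
      rfl
    · rw [a5 x (Function.update (input A b ε) w 1) (fun u hu => ?_) u hu]
      · unfold σ2
        by_cases hcase : n * n + n + 1 ≤ u ∧ u < n * n + n + 1 + (n + 1)
        · rw [if_pos hcase, a3 _ _ (by omega)]
          unfold σ1
          by_cases hc : u = n * n + n + 1 + n
          · have e : st sc Qb K A b 0 (u - (n * n + n + 1)) = 1 := by
              unfold st
              rw [dif_neg (by omega), pow_zero]
            rw [if_pos hc]
            exact e.symm
          · have e : st sc Qb K A b 0 (u - (n * n + n + 1)) = 0 := by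
              unfold st
              rw [dif_pos (by omega)]
              rfl
            rw [if_neg hc, input_zero _ _ _ (by omega)]
            exact e.symm
        · rw [if_neg hcase]
      · unfold σ1
        by_cases hc : u = w
        · rw [hc, Function.update_self, if_pos hw]
        · rw [Function.update_of_ne hc, if_neg hc]
  -- the loop
  have hloop : ∀ (s r : ℕ → ℝ), (∀ u, u < N → r u = σ2 τ (x, s) u) →
      step P (L, r) = (if s n ≤ ε then E else L + 1, r) := by
    intro s r hr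
    have e1 := step_jump (P := P) (pre := .set w .one :: code c1)
      (post := code body ++ [.jump z z L]) (u := w) (v := n * n + n) (l := E)
      (by rw [hP]; simp) r
    rw [List.length_cons, code_length, add_comm c1.length, ← hL] at e1
    rw [e1]
    have h1 : r w = s n := by
      rw [hr w (by omega)]
      unfold σ2
      rw [if_pos (by omega), hw, Nat.add_sub_cancel_left]
    have h2 : r (n * n + n) = ε := by
      rw [hr _ (by omega)]
      unfold σ2
      rw [if_neg (by omega), a3 _ _ (by omega)]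
      unfold σ1
      rw [if_neg (by omega)]
      exact input_eps _ _ _
    rw [h1, h2]
  have hiter : ∀ (s r : ℕ → ℝ), ε < s n → (∀ u, u < N → r u = σ2 τ (x, s) u) →
      ∃ r', (step P)^[body.length + 2] (L, r) = (L, r') ∧
        ∀ u, u < N → r' u = σ2 τ (x, next sc Qb K A b s) u := by
    intro s r hs hr
    refine ⟨run body r, ?_, fun u hu => b2 x s r hr u hu⟩
    rw [Function.iterate_succ_apply', Function.iterate_succ_apply, hloop s r hr,
      if_neg (not_le.2 hs)]
    have e2 := step_run (P := P) (pre := .set w .one :: (code c1 ++ [.jump w (n * n + n) E]))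
      (post := [.jump z z L]) body (by rw [hP]; simp) r
    have hl : (Instr.set w .one :: (code c1 ++ [.jump w (n * n + n) E])).length = L + 1 := by
      simp only [List.length_cons, List.length_append, code_length, List.length_nil]; omega
    rw [hl] at e2
    rw [e2]
    have e3 := step_jump (P := P) (pre := .set w .one :: (code c1 ++ (.jump w (n * n + n) E ::
      code body))) (post := []) (u := z) (v := z) (l := L) (by rw [hP]; simp) (run body r)
    have hl2 : (Instr.set w .one :: (code c1 ++ (.jump w (n * n + n) E :: code body))).length =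
        L + 1 + body.length := by
      simp only [List.length_cons, List.length_append, code_length]; omega
    rw [hl2] at e3
    rw [e3, if_pos le_rfl]
  have hall : ∀ j ≤ m, ∃ r, (step P)^[j * (body.length + 2) + L] (0, input A b ε) = (L, r) ∧
      ∀ u, u < N → r u = σ2 τ (x, st sc Qb K A b j) u := by
    intro j
    induction j with
    | zero => intro _; exact ⟨r0, by rw [zero_mul, zero_add]; exact hr0, hr0'⟩
    | succ j ih =>
      intro hj
      obtain ⟨r, h1, h2⟩ := ih (by omega)
      obtain ⟨r', h3, h4⟩ := hiter (st sc Qb K A b j) r (by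
        unfold st
        rw [dif_neg (lt_irrefl n)]
        exact hmin j (by omega)) h2
      refine ⟨r', ?_, ?_⟩
      · have e : (j + 1) * (body.length + 2) + L = (body.length + 2) +
          (j * (body.length + 2) + L) := by ring
        rw [e, Function.iterate_add_apply, h1, h3]
      · rw [next_st] at h4
        exact h4
  obtain ⟨r, h1, h2⟩ := hall m le_rfl
  refine ⟨m * (body.length + 2) + L + 1, r, ?_, ?_, fun i => ?_⟩
  · rw [Function.iterate_succ_apply', h1, hloop _ r h2, if_pos, hPE]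
    unfold st
    rw [dif_neg (lt_irrefl n)]
    exact hm
  · have h3 : m * (body.length + 2) ≤ m * (10 * ((K + 3) * n ^ 2) + 2 * n + 5) :=
      Nat.mul_le_mul_left _ (by omega)
    omega
  · rw [h2 _ (by omega)]
    unfold σ2
    rw [if_pos (by omega), Nat.add_sub_cancel_left]
    show st sc Qb K A b m i = _
    unfold st
    rw [dif_pos i.2]

end Pool.Agent.L5helper99.RL
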