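import Pool.Agent.L5helper99.RL.Gauss2
import Pool.Agent.L5helper99.RL.Prog2

/-!
# Conclusion
-/

set_option autoImplicit false

open Finset Matrix Filter Topology MeasureTheory ProbabilityTheory
open scoped ENNReal NNReal

namespace Pool.Agent.L5helper99.RL

/-- the good event -/
def Ev (n : ℕ) : Set (Fin n → Fin n → ℝ) :=
  {A | 2 ≤ n ∧ Good (2 * Nat.clog 2 n + 1) (3 * Nat.clog 2 n) A}

lemma Ev_eq {n : ℕ} (hn : 2 ≤ n) :
    Ev n = {A : Fin n → Fin n → ℝ | Good (2 * Nat.clog 2 n + 1) (3 * Nat.clog 2 n) A} := by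
  ext A
  exact ⟨fun h => h.2, fun h => ⟨hn, h⟩⟩

lemma measurableSet_Ev (n : ℕ) : MeasurableSet (Ev n) := by
  rcases Nat.lt_or_ge n 2 with hn | hn
  · have : Ev n = ∅ := by
      ext A
      simp only [Set.mem_empty_iff_false, iff_false]
      exact fun h => absurd h.1 (by omega)
    rw [this]; exact MeasurableSet.empty
  · rw [Ev_eq hn]
    set sc := 2 * Nat.clog 2 n + 1
    set c := 3 * Nat.clog 2 n
    have h1 : {A : Fin n → Fin n → ℝ | Good sc c A} =
        {A : Fin n → Fin n → ℝ | ∑ i, ∑ j, (2 * A i j) ^ 2 ≤ (2 ^ sc) ^ 2} ∩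
        ⋂ v : Fin n → ℝ, {A : Fin n → Fin n → ℝ | q v ≤ (2 ^ c) ^ 2 *
          ∑ i, (∑ j, A j i * v j) ^ 2} := by
      ext A
      constructor
      · rintro ⟨h2, h3⟩
        refine ⟨h2, Set.mem_iInter.2 fun v => ?_⟩
        have h4 := h3 v
        rw [q_eq (_ *ᵥ v)] at h4
        exact h4
      · rintro ⟨h2, h3⟩
        refine ⟨h2, fun v => ?_⟩
        have h4 := Set.mem_iInter.1 h3 v
        rw [q_eq (_ *ᵥ v)]
        exact h4
    rw [h1]
    refine (IsClosed.inter ?_ (isClosed_iInter fun v => ?_)).measurableSet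
    · exact isClosed_le (by fun_prop) continuous_const
    · exact isClosed_le continuous_const (by fun_prop)

lemma tendsto_of_bound {ν : Measure ℝ} [IsProbabilityMeasure ν] {f : ℕ → ℝ}
    (hf : Tendsto f atTop (𝓝 0))
    (h : ∀ᶠ n in atTop, ENNReal.ofReal (1 - f n) ≤
      law ν n {A | Good (2 * Nat.clog 2 n + 1) (3 * Nat.clog 2 n) A}) :
    Tendsto (fun n => law ν n (Ev n)) atTop (𝓝 1) := by
  have h1 : Tendsto (fun n => ENNReal.ofReal (1 - f n)) atTop (𝓝 1) := by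
    have h2 : Tendsto (fun n => 1 - f n) atTop (𝓝 (1 - 0)) := hf.const_sub 1
    rw [sub_zero] at h2
    have h3 := (ENNReal.continuous_ofReal.tendsto 1).comp h2
    rw [ENNReal.ofReal_one] at h3
    exact h3
  refine tendsto_of_tendsto_of_tendsto_of_le_of_le' h1 tendsto_const_nhds ?_
    (Eventually.of_forall fun n => ?_)
  · filter_upwards [h, eventually_ge_atTop 2] with n hn hn2
    rw [Ev_eq hn2]
    exact hn
  · have : IsProbabilityMeasure (law ν n) := by unfold law; infer_instance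
    exact prob_le_one

instance prob_two (a b : ℝ) : IsProbabilityMeasure
    ((1 / 2 : ℝ≥0∞) • Measure.dirac a + (1 / 2 : ℝ≥0∞) • Measure.dirac b) := by
  constructor
  simp only [Measure.coe_add, Measure.coe_smul, Pi.add_apply, Pi.smul_apply, smul_eq_mul,
    measure_univ, mul_one, one_div]
  exact ENNReal.inv_two_add_inv_two

theorem gauss_tendsto : Tendsto (fun n => law (gaussianReal 0 1) n (Ev n)) atTop (𝓝 1) := by
  refine tendsto_of_bound (f := fun n => 2 / n) (tendsto_const_div_atTop_nhds_zero_nat 2) ?_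
  filter_upwards [eventually_ge_atTop 2] with n hn
  exact gauss_good (by omega) (Nat.le_pow_clog (by norm_num) n)

theorem two_tendsto {β : ℝ} (h0 : -1 ≤ β) (h1 : β ≤ 0) :
    Tendsto (fun n => law ((1 / 2 : ℝ≥0∞) • Measure.dirac β + (1 / 2 : ℝ≥0∞) • Measure.dirac 1) n
      (Ev n)) atTop (𝓝 1) := by
  refine tendsto_of_bound (f := ff) ff_tendsto ?_
  filter_upwards [eventually_ge_atTop 1024] with n hn
  rw [add_comm]
  exact disc_good h0 h1 hn (Nat.le_pow_clog (by norm_num) n)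

/-- the numerical estimate -/
lemma final_bound {n p m k : ℕ} {ε : ℝ} (hn : 2 ≤ n) (hp : p = Nat.clog 2 n) (hε : 0 < ε)
    (hε1 : ε < 1) (hm : ∀ j < m, ε < (1 / 2 : ℝ) ^ j)
    (hk : k ≤ 150 * ((10 * p + 5 + 1) * (n ^ 2 * (44 * p + 26))) + 2 +
      m * (10 * ((10 * p + 5 + 3) * n ^ 2) + 2 * n + 5)) :
    (k : ℝ) ≤ 66200 * (4 / Real.log 2) ^ 2 * (n : ℝ) ^ 2 * Real.log (n / ε) ^ 2 := by
  have hl2 : 0 < Real.log 2 := Real.log_pos (by norm_num)
  have hnr : (2 : ℝ) ≤ n := by exact_mod_cast hn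
  have hlog : Real.log (n / ε) = Real.log n + Real.log (1 / ε) := by
    rw [← Real.log_mul (by positivity) (by positivity)]
    congr 1; ring
  have hln : Real.log 2 ≤ Real.log n := Real.log_le_log (by norm_num) hnr
  have hle : 0 < Real.log (1 / ε) := Real.log_pos (by rw [lt_div_iff₀ hε]; linarith)
  have hp1 : ((p : ℝ) - 1) * Real.log 2 ≤ Real.log n := by
    have hpp : 1 ≤ p := by
      rw [hp]; exact Nat.clog_pos (by norm_num) (by omega)
    have h1 : 2 ^ (p - 1) < n := by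
      rw [hp]; exact Nat.pow_pred_clog_lt_self (by norm_num) (by omega)
    have h2 : ((2 : ℝ) ^ (p - 1)) ≤ n := by exact_mod_cast h1.le
    have h3 := Real.log_le_log (by positivity) h2
    rw [Real.log_pow, Nat.cast_sub hpp, Nat.cast_one] at h3
    exact h3
  have hm1 : ((m : ℝ) - 1) * Real.log 2 ≤ Real.log (1 / ε) := by
    rcases Nat.eq_zero_or_pos m with h0 | h0
    · subst h0
      push_cast
      nlinarith
    · have h1 := hm (m - 1) (by omega)
      have h2 : (2 : ℝ) ^ (m - 1) ≤ 1 / ε := by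
        rw [le_div_iff₀ hε]
        have h3 : (0 : ℝ) < 2 ^ (m - 1) := by positivity
        rw [one_div, inv_pow] at h1
        have h4 := mul_le_mul_of_nonneg_left h1.le h3.le
        rw [mul_inv_cancel₀ h3.ne'] at h4
        exact h4
      have h3 := Real.log_le_log (by positivity) h2
      rw [Real.log_pow, Nat.cast_sub h0, Nat.cast_one] at h3
      exact h3
  set W : ℝ := 4 / Real.log 2 * Real.log (n / ε) with hW
  have hWp : (p : ℝ) + 1 + m ≤ W := by
    rw [hW, div_mul_eq_mul_div, le_div_iff₀ hl2, hlog]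
    nlinarith
  have hk' : (k : ℝ) ≤ 66200 * (n : ℝ) ^ 2 * (((p : ℝ) + 1) * (p + 1 + m)) := by
    have h1 : k ≤ 66200 * n ^ 2 * ((p + 1) * (p + 1 + m)) := by
      refine hk.trans ?_
      have hn2 : n ≤ n ^ 2 := by nlinarith
      have h1n : 1 ≤ n ^ 2 := Nat.one_le_pow _ _ (by omega)
      have e1 : 150 * ((10 * p + 5 + 1) * (n ^ 2 * (44 * p + 26))) ≤
          66000 * n ^ 2 * ((p + 1) * (p + 1)) := by
        calc 150 * ((10 * p + 5 + 1) * (n ^ 2 * (44 * p + 26)))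
            ≤ 150 * ((10 * (p + 1)) * (n ^ 2 * (44 * (p + 1)))) := by
              refine Nat.mul_le_mul_left _ (Nat.mul_le_mul (by omega)
                (Nat.mul_le_mul_left _ (by omega)))
          _ = 66000 * n ^ 2 * ((p + 1) * (p + 1)) := by ring
      have e2 : m * (10 * ((10 * p + 5 + 3) * n ^ 2) + 2 * n + 5) ≤
          107 * n ^ 2 * ((p + 1) * m) := by
        have e3 : 10 * ((10 * p + 5 + 3) * n ^ 2) + 2 * n + 5 ≤ 107 * n ^ 2 * (p + 1) := by
          have e4 : 10 * ((10 * p + 5 + 3) * n ^ 2) ≤ 100 * (n ^ 2 * (p + 1)) := by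
            calc 10 * ((10 * p + 5 + 3) * n ^ 2) ≤ 10 * ((10 * (p + 1)) * n ^ 2) :=
                  Nat.mul_le_mul_left _ (Nat.mul_le_mul_right _ (by omega))
              _ = 100 * (n ^ 2 * (p + 1)) := by ring
          have e5 : n ^ 2 ≤ n ^ 2 * (p + 1) := Nat.le_mul_of_pos_right _ (by omega)
          have e6 : 107 * n ^ 2 * (p + 1) = 107 * (n ^ 2 * (p + 1)) := by ring
          rw [e6]
          omega
        calc m * (10 * ((10 * p + 5 + 3) * n ^ 2) + 2 * n + 5)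
            ≤ m * (107 * n ^ 2 * (p + 1)) := Nat.mul_le_mul_left _ e3
          _ = 107 * n ^ 2 * ((p + 1) * m) := by ring
      have e3 : 2 ≤ 2 * n ^ 2 * ((p + 1) * (p + 1)) := by
        have : 1 ≤ n ^ 2 * ((p + 1) * (p + 1)) := Nat.one_le_iff_ne_zero.2 (by positivity)
        calc 2 = 2 * 1 := rfl
          _ ≤ 2 * (n ^ 2 * ((p + 1) * (p + 1))) := Nat.mul_le_mul_left _ this
          _ = 2 * n ^ 2 * ((p + 1) * (p + 1)) := by ring
      calc 150 * ((10 * p + 5 + 1) * (n ^ 2 * (44 * p + 26))) + 2 +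
            m * (10 * ((10 * p + 5 + 3) * n ^ 2) + 2 * n + 5)
          ≤ 66000 * n ^ 2 * ((p + 1) * (p + 1)) + 2 * n ^ 2 * ((p + 1) * (p + 1)) +
            107 * n ^ 2 * ((p + 1) * m) := add_le_add (add_le_add e1 e3) e2
        _ ≤ 66200 * n ^ 2 * ((p + 1) * (p + 1 + m)) := by
            have e7 : 66200 * n ^ 2 * ((p + 1) * (p + 1 + m)) =
              66200 * (n ^ 2 * ((p + 1) * (p + 1))) + 66200 * (n ^ 2 * ((p + 1) * m)) := by ring
            have e8 : 66000 * n ^ 2 * ((p + 1) * (p + 1)) + 2 * n ^ 2 * ((p + 1) * (p + 1)) +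
              107 * n ^ 2 * ((p + 1) * m) = 66002 * (n ^ 2 * ((p + 1) * (p + 1))) +
              107 * (n ^ 2 * ((p + 1) * m)) := by ring
            rw [e7, e8]
            omega
    exact_mod_cast h1
  refine hk'.trans ?_
  have hp0 : (0 : ℝ) ≤ p := Nat.cast_nonneg p
  have hm0 : (0 : ℝ) ≤ m := Nat.cast_nonneg m
  have h1 : ((p : ℝ) + 1) * (p + 1 + m) ≤ W * W :=
    mul_le_mul (by linarith) hWp (by positivity) (by linarith)
  calc 66200 * (n : ℝ) ^ 2 * (((p : ℝ) + 1) * (p + 1 + m)) ≤ 66200 * (n : ℝ) ^ 2 * (W * W) :=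
        mul_le_mul_of_nonneg_left h1 (by positivity)
    _ = _ := by rw [hW]; ring

/-- **The main theorem.** -/
theorem main : ∃ (E : (n : ℕ) → Set (Fin n → Fin n → ℝ)) (P : ℕ → List Instr) (C : ℝ),
    (∀ n, MeasurableSet (E n)) ∧
    Tendsto (fun n => law (gaussianReal 0 1) n (E n)) atTop (𝓝 1) ∧
    Tendsto (fun n => law ((1 / 2 : ℝ≥0∞) • Measure.dirac (-1) +
      (1 / 2 : ℝ≥0∞) • Measure.dirac 1) n (E n)) atTop (𝓝 1) ∧
    Tendsto (fun n => law ((1 / 2 : ℝ≥0∞) • Measure.dirac 0 +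
      (1 / 2 : ℝ≥0∞) • Measure.dirac 1) n (E n)) atTop (𝓝 1) ∧
    ∀ (n : ℕ) (A : Fin n → Fin n → ℝ), A ∈ E n → ∀ (b : Fin n → ℝ) (ε : ℝ), 0 < ε → ε < 1 →
      ∃ (k : ℕ) (r : ℕ → ℝ), (step (P n))^[k] (0, input A b ε) = ((P n).length, r) ∧
        (k : ℝ) ≤ C * (n : ℝ) ^ 2 * Real.log (n / ε) ^ 2 ∧
        Real.sqrt (∑ i, (∑ j : Fin n, A i j * r (n * n + n + 1 + j) - b i) ^ 2) ≤
          ε * Real.sqrt (∑ i, b i ^ 2) := by
  classical
  have hP : ∀ n : ℕ, ∃ P : List Instr, 1 ≤ n → ∀ (A : Fin n → Fin n → ℝ) (b : Fin n → ℝ) (ε : ℝ),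
      Good (2 * Nat.clog 2 n + 1) (3 * Nat.clog 2 n) A →
      ∀ m : ℕ, (1 / 2 : ℝ) ^ m ≤ ε → (∀ j < m, ε < (1 / 2) ^ j) →
      ∃ (k : ℕ) (r : ℕ → ℝ), (step P)^[k] (0, input A b ε) = (P.length, r) ∧
        k ≤ 150 * ((10 * Nat.clog 2 n + 5 + 1) * (n ^ 2 * (44 * Nat.clog 2 n + 26))) + 2 +
          m * (10 * ((10 * Nat.clog 2 n + 5 + 3) * n ^ 2) + 2 * n + 5) ∧
        ∀ i : Fin n, r (n * n + n + 1 + i) = xf (2 * Nat.clog 2 n + 1)
          (41 * Nat.clog 2 n + 23) (10 * Nat.clog 2 n + 5) A b m i := by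
    intro n
    rcases Nat.lt_or_ge n 1 with hn | hn
    · exact ⟨[], fun h => absurd h (by omega)⟩
    · obtain ⟨P, hP⟩ := machine (n := n) (sc := 2 * Nat.clog 2 n + 1) (c := 3 * Nat.clog 2 n)
        (p := Nat.clog 2 n) (K := 10 * Nat.clog 2 n + 5) (Qb := 41 * Nat.clog 2 n + 23) hn
        (Nat.le_pow_clog (by norm_num) n) (by ring) (by ring)
      refine ⟨P, fun _ A b ε hA m h1 h2 => ?_⟩
      obtain ⟨k, r, h3, h4, h5⟩ := hP A b ε hA m h1 h2
      refine ⟨k, r, h3, h4.trans (le_of_eq ?_), h5⟩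
      ring
  choose P hP using hP
  refine ⟨Ev, P, 66200 * (4 / Real.log 2) ^ 2, measurableSet_Ev, gauss_tendsto,
    two_tendsto le_rfl (by norm_num), two_tendsto (by norm_num) le_rfl, ?_⟩
  rintro n A ⟨hn, hA⟩ b ε hε hε1
  have hex : ∃ m : ℕ, (1 / 2 : ℝ) ^ m ≤ ε := by
    obtain ⟨m, hm⟩ := exists_pow_lt_of_lt_one hε (by norm_num : (1 / 2 : ℝ) < 1)
    exact ⟨m, hm.le⟩
  set m := Nat.find hex with hm
  have hm1 : (1 / 2 : ℝ) ^ m ≤ ε := Nat.find_spec hex
  have hm2 : ∀ j < m, ε < (1 / 2 : ℝ) ^ j := fun j hj => not_le.1 (Nat.find_min hex hj)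
  obtain ⟨k, r, h1, h2, h3⟩ := hP n (by omega) A b ε hA m hm1 hm2
  refine ⟨k, r, h1, final_bound hn rfl hε hε1 hm2 h2, ?_⟩
  have h4 := residual (n := n) (sc := 2 * Nat.clog 2 n + 1) (c := 3 * Nat.clog 2 n)
        (p := Nat.clog 2 n) (K := 10 * Nat.clog 2 n + 5) (Qb := 41 * Nat.clog 2 n + 23)
        (Nat.le_pow_clog (by norm_num) n) (by ring) (by ring) hA b m
  have h5 : ∑ i, (∑ j : Fin n, A i j * r (n * n + n + 1 + j) - b i) ^ 2 =
      q (b - (A : Matrix (Fin n) (Fin n) ℝ) *ᵥ xf (2 * Nat.clog 2 n + 1)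
        (41 * Nat.clog 2 n + 23) (10 * Nat.clog 2 n + 5) A b m) := by
    rw [q_eq]
    refine sum_congr rfl fun i _ => ?_
    rw [← neg_sq]
    congr 1
    simp only [Pi.sub_apply, mulVec, dotProduct, h3]
    ring
  rw [h5, ← q_eq b]
  have h6 : Real.sqrt ((1 / 4) ^ m * q b) = (1 / 2) ^ m * Real.sqrt (q b) := by
    have e : ((1 : ℝ) / 4) ^ m = ((1 / 2) ^ m) ^ 2 := by
      rw [← pow_mul, mul_comm, pow_mul]; norm_num
    rw [e, Real.sqrt_mul (by positivity), Real.sqrt_sq (by positivity)]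
  calc _ ≤ Real.sqrt ((1 / 4) ^ m * q b) := Real.sqrt_le_sqrt h4
    _ = (1 / 2) ^ m * Real.sqrt (q b) := h6
    _ ≤ ε * Real.sqrt (q b) := mul_le_mul_of_nonneg_right hm1 (Real.sqrt_nonneg _)

end Pool.Agent.L5helper99.RL
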