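import Pool.Agent.L5helper99.RL.Disc4

/-!
# Gaussian matrices are good with probability tending to one
-/

set_option autoImplicit false

open Finset Matrix Filter Topology MeasureTheory ProbabilityTheory
open scoped ENNReal NNReal

namespace Pool.Agent.L5helper99.RL

/-- slicing off one coordinate -/
lemma slice {α : Type} [MeasurableSpace α] (ν : Measure α) [IsProbabilityMeasure ν] {m : ℕ}
    (i : Fin (m + 1)) {D : Set (Fin (m + 1) → α)} (hD : MeasurableSet D) {B : ℝ≥0∞}
    (h : ∀ y : Fin m → α, ν {x | (i.insertNth x y : Fin (m + 1) → α) ∈ D} ≤ B) :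
    Measure.pi (fun _ : Fin (m + 1) => ν) D ≤ B := by
  set e := MeasurableEquiv.piFinSuccAbove (fun _ : Fin (m + 1) => α) i with he
  have hp : MeasurePreserving e (Measure.pi fun _ : Fin (m + 1) => ν)
      (ν.prod (Measure.pi fun _ : Fin m => ν)) :=
    measurePreserving_piFinSuccAbove (fun _ : Fin (m + 1) => ν) i
  have h1 : D = e ⁻¹' (e.symm ⁻¹' D) := by
    ext x; simp
  rw [h1, hp.measure_preimage (e.symm.measurable hD).nullMeasurableSet,
    Measure.prod_apply_symm (e.symm.measurable hD)]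
  calc ∫⁻ y, ν ((fun x => (x, y)) ⁻¹' (e.symm ⁻¹' D)) ∂(Measure.pi fun _ : Fin m => ν)
      ≤ ∫⁻ _y, B ∂(Measure.pi fun _ : Fin m => ν) := lintegral_mono fun y => h y
    _ = B := by simp

/-- the density is bounded -/
lemma gauss_ball (a r : ℝ) :
    gaussianReal 0 1 (Metric.ball a r) ≤ ENNReal.ofReal r := by
  rw [gaussianReal_apply _ one_ne_zero]
  have h1 : ∀ x, gaussianPDF 0 1 x ≤ ENNReal.ofReal (1 / 2) := by
    intro x
    unfold gaussianPDF
    refine ENNReal.ofReal_le_ofReal ?_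
    unfold gaussianPDFReal
    have h2 : (2 : ℝ) ≤ Real.sqrt (2 * Real.pi * (1 : ℝ≥0)) := by
      refine Real.le_sqrt_of_sq_le ?_
      have := Real.pi_gt_three
      simp only [NNReal.coe_one]
      linarith
    have h3 : (Real.sqrt (2 * Real.pi * (1 : ℝ≥0)))⁻¹ ≤ 1 / 2 := by
      rw [one_div]; exact inv_anti₀ (by norm_num) h2
    have h4 : Real.exp (-(x - 0) ^ 2 / (2 * ((1 : ℝ≥0) : ℝ))) ≤ 1 := by
      rw [Real.exp_le_one_iff]
      simp only [NNReal.coe_one]
      have := sq_nonneg (x - 0)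
      linarith
    calc _ ≤ 1 / 2 * 1 := mul_le_mul h3 h4 (Real.exp_pos _).le (by norm_num)
      _ = 1 / 2 := by norm_num
  calc ∫⁻ x in Metric.ball a r, gaussianPDF 0 1 x
      ≤ ∫⁻ _x in Metric.ball a r, ENNReal.ofReal (1 / 2) := lintegral_mono fun x => h1 x
    _ = ENNReal.ofReal (1 / 2) * ENNReal.ofReal (2 * r) := by
        rw [lintegral_const, Measure.restrict_apply MeasurableSet.univ, Set.univ_inter,
          Real.volume_ball]
    _ = ENNReal.ofReal r := by
        rw [← ENNReal.ofReal_mul (by norm_num)]; congr 1; ring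

lemma gauss_slab1 {u s t : ℝ} (hu : u ≠ 0) :
    gaussianReal 0 1 {a | |u * a + s| < t} ≤ ENNReal.ofReal (t / |u|) := by
  refine le_trans (measure_mono ?_) (gauss_ball (-s / u) (t / |u|))
  intro a ha
  have ha' : |u * a + s| < t := ha
  rw [Metric.mem_ball, Real.dist_eq, lt_div_iff₀ (abs_pos.2 hu), ← abs_mul]
  refine lt_of_eq_of_lt ?_ ha'
  congr 1
  field_simp
  ring

lemma exists_big {n : ℕ} (hn : 1 ≤ n) {u : Fin n → ℝ} (hu : q u = 1) : ∃ j, 1 / (n : ℝ) ≤ u j ^ 2 := by
  by_contra hc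
  push Not at hc
  have hnr : (0 : ℝ) < n := by exact_mod_cast hn
  have : Nonempty (Fin n) := ⟨⟨0, hn⟩⟩
  have h1 : q u < ∑ _j : Fin n, 1 / (n : ℝ) := by
    rw [q_eq]
    exact sum_lt_sum_of_nonempty univ_nonempty fun j _ => hc j
  rw [hu, sum_const, card_univ, Fintype.card_fin, nsmul_eq_mul, mul_one_div, div_self hnr.ne'] at h1
  exact lt_irrefl _ h1

lemma gauss_slab {m : ℕ} {u : Fin (m + 1) → ℝ} (hu : q u = 1) {t : ℝ} (ht : 0 ≤ t) :
    Measure.pi (fun _ : Fin (m + 1) => gaussianReal 0 1) {x | |∑ j, x j * u j| < t} ≤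
      ENNReal.ofReal (t * Real.sqrt (m + 1)) := by
  obtain ⟨j, hj⟩ := exists_big (n := m + 1) (by omega) hu
  have hmr : (0 : ℝ) < ((m + 1 : ℕ) : ℝ) := by positivity
  have huj : u j ≠ 0 := by
    intro h; rw [h] at hj
    have : (0 : ℝ) < 1 / ((m + 1 : ℕ) : ℝ) := by positivity
    norm_num at hj
    linarith
  refine slice _ j ?_ fun y => ?_
  · have : Continuous fun x : Fin (m + 1) → ℝ => |∑ j, x j * u j| := by fun_prop
    exact (isOpen_lt this continuous_const).measurableSet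
  · have e : {x : ℝ | (j.insertNth x y : Fin (m + 1) → ℝ) ∈ {x | |∑ j, x j * u j| < t}} =
        {a | |u j * a + ∑ l, y l * u (j.succAbove l)| < t} := by
      ext a
      show |∑ l, (j.insertNth a y : Fin (m + 1) → ℝ) l * u l| < t ↔
        |u j * a + ∑ l, y l * u (j.succAbove l)| < t
      rw [Fin.sum_univ_succAbove _ j]
      simp only [Fin.insertNth_apply_same, Fin.insertNth_apply_succAbove]
      rw [mul_comm a]
    rw [e]
    refine (gauss_slab1 huj).trans (ENNReal.ofReal_le_ofReal ?_)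
    rw [div_le_iff₀ (abs_pos.2 huj), mul_assoc]
    refine le_mul_of_one_le_right ht ?_
    have h1 : 1 / Real.sqrt (m + 1) ≤ |u j| := by
      rw [← Real.sqrt_sq_eq_abs, ← Real.sqrt_one, ← Real.sqrt_div (by norm_num), Real.sqrt_one]
      refine Real.sqrt_le_sqrt ?_
      push_cast at hj
      exact hj
    have h2 : 0 < Real.sqrt ((m : ℝ) + 1) := Real.sqrt_pos.2 (by positivity)
    rw [div_le_iff₀ h2] at h1
    linarith

/-- one row close to the span of the others -/
lemma gauss_row {m : ℕ} (i : Fin (m + 1)) {t : ℝ} (ht : 0 ≤ t) :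
    law (gaussianReal 0 1) (m + 1) {A | ∃ c : Fin (m + 1) → ℝ, c i = 1 ∧
      ∑ j, (∑ l, A l j * c l) ^ 2 < t ^ 2} ≤ ENNReal.ofReal (t * Real.sqrt (m + 1)) := by
  unfold law
  refine slice _ i ?_ fun y => ?_
  · have h1 : {A : Fin (m + 1) → Fin (m + 1) → ℝ | ∃ c : Fin (m + 1) → ℝ, c i = 1 ∧
        ∑ j, (∑ l, A l j * c l) ^ 2 < t ^ 2} = ⋃ c : {c : Fin (m + 1) → ℝ // c i = 1},
        {A | ∑ j, (∑ l, A l j * c.1 l) ^ 2 < t ^ 2} := by
      ext A
      simp
    rw [h1]
    refine (isOpen_iUnion fun c => ?_).measurableSet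
    have : Continuous fun A : Fin (m + 1) → Fin (m + 1) → ℝ =>
        ∑ j, (∑ l, A l j * c.1 l) ^ 2 := by fun_prop
    exact isOpen_lt this continuous_const
  · obtain ⟨u, hu1, hu2⟩ := exists_unit_orth (n := m + 1) (I := Fin m) (by simp) y
    refine le_trans (measure_mono ?_) (gauss_slab hu1 ht)
    rintro x ⟨c, hc, hx⟩
    show |∑ j, x j * u j| < t
    have h2 := orth_le (M := fun j l => (i.insertNth x y : Fin (m + 1) → Fin (m + 1) → ℝ) l j) i hc
      hu1 (fun l hl => by
        obtain ⟨l', rfl⟩ := Fin.exists_succAbove_eq hl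
        simp only [Fin.insertNth_apply_succAbove]
        exact hu2 l')
    simp only [Fin.insertNth_apply_same] at h2
    have h3 : (∑ j, x j * u j) ^ 2 < t ^ 2 := by
      refine lt_of_le_of_lt h2 ?_
      rw [q_eq]
      exact hx
    exact abs_lt_of_sq_lt_sq h3 ht

end Pool.Agent.L5helper99.RL
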