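import Pool.Agent.L5helper99.RL.Gauss

/-!
# Gaussian matrices are good with probability tending to one: conclusion
-/

set_option autoImplicit false

open Finset Matrix Filter Topology MeasureTheory ProbabilityTheory
open scoped ENNReal NNReal

namespace Pool.Agent.L5helper99.RL

instance (n : ℕ) : IsProbabilityMeasure (law (gaussianReal 0 1) n) := by
  unfold law; infer_instance

lemma second_moment : ∫⁻ x, ENNReal.ofReal (x ^ 2) ∂(gaussianReal 0 1) = 1 := by
  have h1 : Integrable (fun x : ℝ => x ^ 2) (gaussianReal 0 1) := by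
    have := (memLp_id_gaussianReal (μ := 0) (v := 1) 2).integrable_sq
    simpa using this
  rw [← ofReal_integral_eq_lintegral_ofReal h1 (Eventually.of_forall fun x => sq_nonneg x)]
  have h2 : Var[fun x : ℝ => x; gaussianReal 0 1] = ((1 : ℝ≥0) : ℝ) :=
    variance_fun_id_gaussianReal
  rw [variance_of_integral_eq_zero aemeasurable_id' (by simp)] at h2
  rw [h2]
  simp

lemma frob_gauss (n : ℕ) :
    ∫⁻ A, ∑ i, ∑ j, ENNReal.ofReal (A i j ^ 2) ∂(law (gaussianReal 0 1) n) = n ^ 2 := by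
  have hm : ∀ i j, Measurable fun A : Fin n → Fin n → ℝ => ENNReal.ofReal (A i j ^ 2) := by
    intro i j; fun_prop
  rw [lintegral_finsetSum _ fun i _ => Finset.measurable_sum _ fun j _ => hm i j]
  have h1 : ∀ i j, ∫⁻ A, ENNReal.ofReal (A i j ^ 2) ∂(law (gaussianReal 0 1) n) = 1 := by
    intro i j
    unfold law
    have e1 := (measurePreserving_eval (fun _ : Fin n => Measure.pi fun _ : Fin n =>
      gaussianReal 0 1) i).lintegral_comp (f := fun x : Fin n → ℝ => ENNReal.ofReal (x j ^ 2))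
      (by fun_prop)
    have e2 := (measurePreserving_eval (fun _ : Fin n => gaussianReal 0 1) j).lintegral_comp
      (f := fun x : ℝ => ENNReal.ofReal (x ^ 2)) (by fun_prop)
    rw [second_moment] at e2
    rw [← e2, ← e1]
  rw [Finset.sum_congr rfl fun i _ => by
    rw [lintegral_finsetSum _ fun j _ => hm i j, Finset.sum_congr rfl fun j _ => h1 i j]]
  simp
  ring

lemma frob_bad {n : ℕ} (hn : 1 ≤ n) :
    law (gaussianReal 0 1) n {A | (n : ℝ) ^ 3 ≤ ∑ i, ∑ j, A i j ^ 2} ≤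
      ENNReal.ofReal (1 / n) := by
  have hnr : (0 : ℝ) < n := by exact_mod_cast hn
  have h := meas_ge_le_lintegral_div (μ := law (gaussianReal 0 1) n)
    (f := fun A => ∑ i, ∑ j, ENNReal.ofReal (A i j ^ 2)) (ε := ENNReal.ofReal ((n : ℝ) ^ 3))
    (Measurable.aemeasurable (by fun_prop)) (by simp; positivity) ENNReal.ofReal_ne_top
  rw [frob_gauss] at h
  refine (measure_mono ?_).trans (h.trans (le_of_eq ?_))
  · intro A hA
    have hA' : (n : ℝ) ^ 3 ≤ ∑ i, ∑ j, A i j ^ 2 := hA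
    show ENNReal.ofReal ((n : ℝ) ^ 3) ≤ ∑ i, ∑ j, ENNReal.ofReal (A i j ^ 2)
    have e : ∑ i, ∑ j, ENNReal.ofReal (A i j ^ 2) = ENNReal.ofReal (∑ i, ∑ j, A i j ^ 2) := by
      rw [ENNReal.ofReal_sum_of_nonneg fun i _ => sum_nonneg fun j _ => sq_nonneg _]
      exact sum_congr rfl fun i _ => (ENNReal.ofReal_sum_of_nonneg fun j _ => sq_nonneg _).symm
    rw [e]
    exact ENNReal.ofReal_le_ofReal hA'
  · have e : ((n : ℝ≥0∞)) ^ 2 = ENNReal.ofReal ((n : ℝ) ^ 2) := by
      rw [ENNReal.ofReal_pow hnr.le, ENNReal.ofReal_natCast]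
    rw [e, ← ENNReal.ofReal_div_of_pos (by positivity)]
    congr 1
    field_simp

theorem gauss_good {n p : ℕ} (hn : 1 ≤ n) (hp : n ≤ 2 ^ p) :
    ENNReal.ofReal (1 - 2 / n) ≤
      law (gaussianReal 0 1) n {A | Good (2 * p + 1) (3 * p) A} := by
  obtain ⟨m, rfl⟩ : ∃ m, n = m + 1 := ⟨n - 1, by omega⟩
  have hnr : (1 : ℝ) ≤ ((m + 1 : ℕ) : ℝ) := by exact_mod_cast hn
  have hnr0 : (0 : ℝ) < ((m + 1 : ℕ) : ℝ) := by linarith
  have hpr : ((m + 1 : ℕ) : ℝ) ≤ 2 ^ p := by exact_mod_cast hp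
  set n : ℕ := m + 1 with hn'
  set σ : ℝ := 1 / (2 ^ p) ^ 3 with hσ
  have hσ0 : 0 < σ := by positivity
  set t : ℝ := Real.sqrt n * σ with ht
  have ht0 : 0 ≤ t := by positivity
  set B1 : Set (Fin n → Fin n → ℝ) := {A | (n : ℝ) ^ 3 ≤ ∑ i, ∑ j, A i j ^ 2} with hB1
  set B2 : Fin n → Set (Fin n → Fin n → ℝ) := fun i => {A | ∃ c : Fin n → ℝ, c i = 1 ∧
      ∑ j, (∑ l, A l j * c l) ^ 2 < t ^ 2} with hB2
  set Bad : Set (Fin n → Fin n → ℝ) := B1 ∪ ⋃ i, B2 i with hBad
  have hBadm : MeasurableSet Bad := by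
    refine MeasurableSet.union ?_ (MeasurableSet.iUnion fun i => ?_)
    · have : Continuous fun A : Fin n → Fin n → ℝ => ∑ i, ∑ j, A i j ^ 2 := by fun_prop
      exact (isClosed_le continuous_const this).measurableSet
    · have h1 : B2 i = ⋃ c : {c : Fin n → ℝ // c i = 1},
          {A : Fin n → Fin n → ℝ | ∑ j, (∑ l, A l j * c.1 l) ^ 2 < t ^ 2} := by
        ext A
        simp [hB2]
      rw [h1]
      refine (isOpen_iUnion fun c => ?_).measurableSet
      have : Continuous fun A : Fin n → Fin n → ℝ => ∑ j, (∑ l, A l j * c.1 l) ^ 2 := by fun_prop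
      exact isOpen_lt this continuous_const
  have hrow : ∀ i, law (gaussianReal 0 1) n (B2 i) ≤ ENNReal.ofReal (n * σ) := by
    intro i
    refine (gauss_row i ht0).trans (ENNReal.ofReal_le_ofReal (le_of_eq ?_))
    have e : ((m : ℝ) + 1) = (n : ℝ) := by rw [hn']; push_cast; ring
    rw [e, ht]
    calc Real.sqrt n * σ * Real.sqrt n = Real.sqrt n * Real.sqrt n * σ := by ring
      _ = n * σ := by rw [Real.mul_self_sqrt hnr0.le]
  have hBadP : law (gaussianReal 0 1) n Bad ≤ ENNReal.ofReal (2 / n) := by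
    calc law (gaussianReal 0 1) n Bad ≤ law (gaussianReal 0 1) n B1 +
          law (gaussianReal 0 1) n (⋃ i, B2 i) := measure_union_le _ _
      _ ≤ ENNReal.ofReal (1 / n) + ∑ i, law (gaussianReal 0 1) n (B2 i) :=
          add_le_add (frob_bad hn) (measure_iUnion_fintype_le _ _)
      _ ≤ ENNReal.ofReal (1 / n) + ∑ _i : Fin n, ENNReal.ofReal (n * σ) :=
          add_le_add le_rfl (sum_le_sum fun i _ => hrow i)
      _ = ENNReal.ofReal (1 / n) + ENNReal.ofReal (n * (n * σ)) := by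
          rw [sum_const, card_univ, Fintype.card_fin, nsmul_eq_mul, ← ENNReal.ofReal_natCast,
            ← ENNReal.ofReal_mul hnr0.le]
      _ ≤ ENNReal.ofReal (1 / n) + ENNReal.ofReal (1 / n) := by
          refine add_le_add le_rfl (ENNReal.ofReal_le_ofReal ?_)
          rw [hσ, ← mul_assoc, mul_one_div, div_le_div_iff₀ (by positivity) hnr0, one_mul]
          calc (n : ℝ) * n * n = (n : ℝ) ^ 3 := by ring
            _ ≤ (2 ^ p) ^ 3 := pow_le_pow_left₀ hnr0.le hpr 3
      _ = ENNReal.ofReal (2 / n) := by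
          rw [← ENNReal.ofReal_add (by positivity) (by positivity)]
          congr 1; ring
  have hsub : Badᶜ ⊆ {A : Fin n → Fin n → ℝ | Good (2 * p + 1) (3 * p) A} := by
    intro A hA
    rw [Set.mem_compl_iff, hBad, Set.mem_union, not_or, Set.mem_iUnion, not_exists] at hA
    obtain ⟨hA1, hA2⟩ := hA
    have hA1' : ∑ i, ∑ j, A i j ^ 2 < (n : ℝ) ^ 3 := not_le.1 hA1
    show Good (2 * p + 1) (3 * p) A
    refine ⟨?_, ?_⟩
    · have e : ∑ i, ∑ j, (2 * A i j) ^ 2 = 4 * ∑ i, ∑ j, A i j ^ 2 := by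
        rw [mul_sum]
        refine sum_congr rfl fun i _ => ?_
        rw [mul_sum]
        exact sum_congr rfl fun j _ => by ring
      rw [e]
      have e2 : ((2 : ℝ) ^ (2 * p + 1)) ^ 2 = 4 * ((2 ^ p) ^ 3 * 2 ^ p) := by ring
      rw [e2]
      have h1 : (n : ℝ) ^ 3 ≤ (2 ^ p) ^ 3 := pow_le_pow_left₀ hnr0.le hpr 3
      have h2 : (1 : ℝ) ≤ 2 ^ p := hnr.trans hpr
      have h3 : (0 : ℝ) < (2 ^ p) ^ 3 := by positivity
      nlinarith
    · set M : Matrix (Fin n) (Fin n) ℝ := (fun i j => A j i : Matrix (Fin n) (Fin n) ℝ) with hM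
      have hs := scale_le M (σ := σ ^ 2) (by positivity) (fun y hy => by
        by_contra hc
        push Not at hc
        obtain ⟨i, hi⟩ := exists_big hn hy
        have hyi : y i ≠ 0 := by
          intro h; rw [h] at hi
          have : (0 : ℝ) < 1 / (n : ℝ) := by positivity
          norm_num at hi
          linarith
        have hyi2 : 0 < y i ^ 2 := by positivity
        apply hA2 i
        refine ⟨(y i)⁻¹ • y, by simp [hyi], ?_⟩
        have e1 : ∑ j, (∑ l, A l j * ((y i)⁻¹ • y) l) ^ 2 = q (M *ᵥ ((y i)⁻¹ • y)) := by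
          rw [q_eq]; rfl
        rw [e1, mulVec_smul, q_smul, inv_pow, inv_mul_lt_iff₀ hyi2]
        have e2 : t ^ 2 = n * σ ^ 2 := by
          rw [ht, mul_pow, Real.sq_sqrt hnr0.le]
        rw [e2]
        calc q (M *ᵥ y) < σ ^ 2 := hc
          _ = 1 / n * (n * σ ^ 2) := by field_simp
          _ ≤ y i ^ 2 * (n * σ ^ 2) := mul_le_mul_of_nonneg_right hi (by positivity))
      intro v
      have h1 := hs v
      have e1 : 1 / σ ^ 2 = ((2 : ℝ) ^ (3 * p)) ^ 2 := by
        rw [hσ, div_pow, one_pow, one_div_one_div]; ring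
      rw [e1] at h1
      exact h1
  refine le_trans ?_ (measure_mono hsub)
  rw [prob_compl_eq_one_sub hBadm, ENNReal.ofReal_sub _ (by positivity), ENNReal.ofReal_one]
  exact tsub_le_tsub_left hBadP _

end Pool.Agent.L5helper99.RL
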