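import Pool.Agent.L5helper99.RL.Iter

/-!
# The cost of the algorithm
-/

set_option autoImplicit false

open Finset Matrix
open scoped Matrix.Norms.L2Operator

namespace Pool.Agent.L5helper99.RL

variable {X : Type} {n : ℕ}

/-- the cost of a matrix product -/
def mmc (n u v p : ℕ) : ℕ := 5 * (n ^ 2 * (u + v + p + 2)) + 20 * n ^ 2 + 20 * n + 20

theorem Cmp.matmul' {S : Set (X → ℝ)} {M N : X → Matrix (Fin n) (Fin n) ℝ}
    (hM : ent M ⊆ S) (hN : ent N ⊆ S) {u v p : ℕ} (hn : n ≤ 2 ^ p)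
    (hzM : ∀ x i k, ∃ z : ℤ, M x i k = z) (hzN : ∀ x i k, ∃ z : ℤ, N x i k = z)
    (huM : ∀ x i k, |M x i k| ≤ 2 ^ u) (hvN : ∀ x i k, |N x i k| ≤ 2 ^ v) :
    Cmp S (mmc n u v p) (ent fun x => M x * N x) :=
  Cmp.matmul (a := fun i k x => M x i k) (b := fun k j x => N x k j)
    (fun i k => hM (mem_ent M i k)) (fun i k => hN (mem_ent N i k)) hn
    (fun i k x => hzM x i k) (fun i k x => hzN x i k) (fun i k x => huM x i k)
    (fun i k x => hvN x i k)

lemma mul_bound {M N : Matrix (Fin n) (Fin n) ℝ} {u v p : ℕ} (hn : n ≤ 2 ^ p)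
    (hM : ∀ i k, |M i k| ≤ 2 ^ u) (hN : ∀ i k, |N i k| ≤ 2 ^ v) (i j : Fin n) :
    |(M * N) i j| ≤ 2 ^ (u + v + p) := by
  rw [Matrix.mul_apply]
  calc |∑ k, M i k * N k j| ≤ ∑ k : Fin n, |M i k * N k j| := abs_sum_le_sum_abs _ _
    _ ≤ ∑ _k : Fin n, (2 : ℝ) ^ (u + v) := by
        refine sum_le_sum fun k _ => ?_
        rw [abs_mul, pow_add]
        exact mul_le_mul (hM i k) (hN k j) (abs_nonneg _) (by positivity)
    _ = n * 2 ^ (u + v) := by simp
    _ ≤ 2 ^ p * 2 ^ (u + v) := by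
        refine mul_le_mul_of_nonneg_right ?_ (by positivity)
        exact_mod_cast hn
    _ = 2 ^ (u + v + p) := by rw [← pow_add, add_comm p]

/-- the constants -/
def Pc (X : Type) (T : ℕ) : Set (X → ℝ) := {f : X → ℝ | ∃ t ≤ T, f = fun _ => (2 : ℝ) ^ t}

lemma C1.const {S : Set (X → ℝ)} {T t : ℕ} (h : Pc X T ⊆ S) (ht : t ≤ T) :
    C1 S 0 (fun _ => (2 : ℝ) ^ t) := C1.of_mem (h ⟨t, ht, rfl⟩)

theorem Zf_int (sc Qb : ℕ) (A : Matrix (Fin n) (Fin n) ℝ) (i j : Fin n) :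
    ∃ z : ℤ, Zf sc Qb A i j = z := ⟨_, rfl⟩

theorem Yf_int (sc Qb : ℕ) (A : Matrix (Fin n) (Fin n) ℝ) (k : ℕ) (i j : Fin n) :
    ∃ z : ℤ, Yf sc Qb A k i j = z := by
  cases k with
  | zero =>
    simp only [Yf, Matrix.sub_apply, Matrix.smul_apply, smul_eq_mul, flr]
    by_cases h : i = j
    · subst h
      exact ⟨2 ^ Qb - ⌊((Zf sc Qb A)ᵀ * Zf sc Qb A) i i / 2 ^ Qb⌋, by push_cast; simp⟩
    · exact ⟨- ⌊((Zf sc Qb A)ᵀ * Zf sc Qb A) i j / 2 ^ Qb⌋, by push_cast; simp [h]⟩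
  | succ k => exact ⟨_, rfl⟩

section cost

variable {S : Set (X → ℝ)} {A : X → Matrix (Fin n) (Fin n) ℝ} {b : X → Fin n → ℝ}
  {sc c p K Qb : ℕ}

/-- the matrices `Y 0, …, Y K` -/
theorem setup (hn0 : 1 ≤ n) (hn : n ≤ 2 ^ p) (hK : K = 2 * (c + sc + 1) + 1)
    (hQ : Qb = 4 * K + p + 3) (hA : ∀ x, Good sc c (A x)) (hS : ent A ⊆ S) :
    Cmp S (150 * ((K + 1) * (n ^ 2 * (Qb + p + sc + 2))))
      (Pc X (Qb + sc) ∪ (ent (fun x => Zf sc Qb (A x)) ∪
        ⋃ k ∈ Finset.range (K + 1), ent (fun x => Yf sc Qb (A x) k))) := by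
  have hcor := fun x => correct hn hK hQ (hA x)
  have hQ1 : (0 : ℝ) < 2 ^ Qb := by positivity
  -- constants
  have c1 : Cmp S (1 + (Qb + sc) * 1) (Pc X (Qb + sc)) := Cmp.pow2 _
  -- the rounded matrix
  have hAb : ∀ x i j, |A x i j| ≤ 2 ^ sc / 2 := by
    intro x i j
    have h1 := (hA x).1
    have h2 : (2 * A x i j) ^ 2 ≤ (2 ^ sc) ^ 2 := by
      refine le_trans ?_ h1
      refine le_trans (single_le_sum (f := fun j => (2 * A x i j) ^ 2)
        (fun j _ => sq_nonneg _) (mem_univ j)) ?_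
      exact single_le_sum (f := fun i => ∑ j, (2 * A x i j) ^ 2)
        (fun i _ => sum_nonneg fun j _ => sq_nonneg _) (mem_univ i)
    have h3 := abs_le_of_sq_le_sq h2 (by positivity)
    rw [abs_mul, abs_two] at h3
    linarith
  have c2 : Cmp (S ∪ Pc X (Qb + sc)) (n * n * (2 + (5 * Qb + 8)))
      (ent (fun x => Zf sc Qb (A x))) := by
    refine Cmp.mapM fun i j => ?_
    have h1 := ((C1.const (X := X) (S := S ∪ Pc X (Qb + sc)) (T := Qb + sc) (t := Qb)
      Set.subset_union_right (by omega)).mul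
      (C1.of_mem (Or.inl (hS (mem_ent A i j))))).div
      (C1.const (X := X) (S := S ∪ Pc X (Qb + sc)) (T := Qb + sc) (t := sc)
      Set.subset_union_right (by omega))
    refine (C1.floor h1 Qb fun x => ?_).le (by omega)
    rw [abs_div, abs_mul, abs_of_pos hQ1, abs_of_pos (by positivity : (0 : ℝ) < 2 ^ sc)]
    rw [div_lt_iff₀ (by positivity)]
    have := hAb x i j
    have h3 : (0 : ℝ) < 2 ^ sc := by positivity
    have h4 : |A x i j| < 2 ^ sc := by linarith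
    exact mul_lt_mul_of_pos_left h4 hQ1
  set S1 : Set (X → ℝ) := S ∪ (Pc X (Qb + sc) ∪ ent (fun x => Zf sc Qb (A x))) with hS1
  have hPS1 : Pc X (Qb + sc) ⊆ S1 := fun f hf => Or.inr (Or.inl hf)
  have hZS1 : ent (fun x => Zf sc Qb (A x)) ⊆ S1 := fun f hf => Or.inr (Or.inr hf)
  have hZt : ent (fun x => (Zf sc Qb (A x))ᵀ) ⊆ S1 := by
    rintro f ⟨⟨i, j⟩, rfl⟩
    exact hZS1 (mem_ent _ j i)
  have c3 : Cmp S1 (mmc n Qb Qb p) (ent fun x => (Zf sc Qb (A x))ᵀ * Zf sc Qb (A x)) :=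
    Cmp.matmul' hZt hZS1 hn (fun x i k => Zf_int _ _ _ _ _) (fun x i k => Zf_int _ _ _ _ _)
      (fun x i k => (hcor x).1 k i) (fun x i k => (hcor x).1 i k)
  have c4 : Cmp (S1 ∪ ent fun x => (Zf sc Qb (A x))ᵀ * Zf sc Qb (A x))
      (n * n * (5 * (p + Qb + 1) + 13)) (ent fun x => Yf sc Qb (A x) 0) := by
    refine Cmp.mapM fun i j => ?_
    set S2 := S1 ∪ ent fun x => (Zf sc Qb (A x))ᵀ * Zf sc Qb (A x) with hS2
    have hP2 : Pc X (Qb + sc) ⊆ S2 := hPS1.trans Set.subset_union_left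
    have h1 := (C1.of_mem (S := S2) (f := fun x => ((Zf sc Qb (A x))ᵀ * Zf sc Qb (A x)) i j)
      (Or.inr (mem_ent (fun x => (Zf sc Qb (A x))ᵀ * Zf sc Qb (A x)) i j))).div
      (C1.const (X := X) (t := Qb) hP2 (by omega))
    have h2 := C1.floor h1 (p + Qb + 1) fun x => by
      rw [abs_div, abs_of_pos hQ1, div_lt_iff₀ hQ1]
      have h3 := mul_bound (M := (Zf sc Qb (A x))ᵀ) (N := Zf sc Qb (A x)) hn
        (fun i k => (hcor x).1 k i) (fun i k => (hcor x).1 i k) i j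
      refine lt_of_le_of_lt h3 ?_
      rw [← pow_add]
      exact pow_lt_pow_right₀ (by norm_num) (by omega)
    by_cases hij : i = j
    · have h3 := (C1.const (X := X) (t := Qb) hP2 (by omega)).subt h2
      refine (h3.le (T' := 5 * (p + Qb + 1) + 13) (by omega)).sub ?_
      rw [Set.singleton_subset_iff, Set.mem_singleton_iff]
      funext x
      simp only [Yf, Matrix.sub_apply, Matrix.smul_apply, smul_eq_mul, flr, hij, Matrix.one_apply_eq,
        mul_one]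
    · have h3 := (C1.zero (X := X) (S := S2)).subt h2
      refine (h3.le (T' := 5 * (p + Qb + 1) + 13) (by omega)).sub ?_
      rw [Set.singleton_subset_iff, Set.mem_singleton_iff]
      funext x
      simp only [Yf, Matrix.sub_apply, Matrix.smul_apply, smul_eq_mul, flr,
        Matrix.one_apply_ne hij, mul_zero]
  have c5 : Cmp S1 (mmc n Qb Qb p + n * n * (5 * (p + Qb + 1) + 13))
      (ent fun x => Yf sc Qb (A x) 0) := (c3.trans c4).sub Set.subset_union_right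
  have c6 : ∀ k < K, Cmp (S1 ∪ ent fun x => Yf sc Qb (A x) k)
      (mmc n (Qb + 1) (Qb + 1) p + n * n * (5 * (p + Qb + 3) + 9))
      (ent fun x => Yf sc Qb (A x) (k + 1)) := by
    intro k hk
    have d1 : Cmp (S1 ∪ ent fun x => Yf sc Qb (A x) k) (mmc n (Qb + 1) (Qb + 1) p)
        (ent fun x => Yf sc Qb (A x) k * Yf sc Qb (A x) k) :=
      Cmp.matmul' Set.subset_union_right Set.subset_union_right hn
        (fun x i j => Yf_int _ _ _ _ _ _) (fun x i j => Yf_int _ _ _ _ _ _)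
        (fun x i j => (hcor x).2.1 k hk.le i j) (fun x i j => (hcor x).2.1 k hk.le i j)
    have d2 : Cmp ((S1 ∪ ent fun x => Yf sc Qb (A x) k) ∪
        ent fun x => Yf sc Qb (A x) k * Yf sc Qb (A x) k) (n * n * (5 * (p + Qb + 3) + 9))
        (ent fun x => Yf sc Qb (A x) (k + 1)) := by
      refine Cmp.mapM fun i j => ?_
      have hP2 : Pc X (Qb + sc) ⊆ ((S1 ∪ ent fun x => Yf sc Qb (A x) k) ∪
        ent fun x => Yf sc Qb (A x) k * Yf sc Qb (A x) k) :=
        (hPS1.trans Set.subset_union_left).trans Set.subset_union_left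
      have h1 := (C1.of_mem (S := ((S1 ∪ ent fun x => Yf sc Qb (A x) k) ∪
        ent fun x => Yf sc Qb (A x) k * Yf sc Qb (A x) k))
        (f := fun x => (Yf sc Qb (A x) k * Yf sc Qb (A x) k) i j)
        (Or.inr (mem_ent (fun x => Yf sc Qb (A x) k * Yf sc Qb (A x) k) i j))).div
        (C1.const (X := X) (t := Qb) hP2 (by omega))
      refine (C1.floor h1 (p + Qb + 3) fun x => ?_).le (by omega)
      rw [abs_div, abs_of_pos hQ1, div_lt_iff₀ hQ1]
      have h3 := mul_bound (M := Yf sc Qb (A x) k) (N := Yf sc Qb (A x) k) hn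
        (fun i j => (hcor x).2.1 k hk.le i j) (fun i j => (hcor x).2.1 k hk.le i j) i j
      refine lt_of_le_of_lt h3 ?_
      rw [← pow_add]
      exact pow_lt_pow_right₀ (by norm_num) (by omega)
    exact (d1.trans d2).sub Set.subset_union_right
  have c7 := Cmp.iterB c5 K c6
  have c8 := (c1.trans c2).trans c7
  refine (c8.le ?_).sub ?_
  · unfold mmc
    set W := Qb + p + sc + 2 with hW
    have hn2 : 1 ≤ n ^ 2 := Nat.one_le_pow _ _ hn0
    have hnn : n ≤ n ^ 2 := by nlinarith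
    have hnw : n ^ 2 ≤ n ^ 2 * W := Nat.le_mul_of_pos_right _ (by omega)
    have e0 : n * n = n ^ 2 := by ring
    have e1 : 1 + (Qb + sc) * 1 ≤ n ^ 2 * W := by
      calc 1 + (Qb + sc) * 1 ≤ 1 * W := by omega
        _ ≤ n ^ 2 * W := Nat.mul_le_mul_right _ hn2
    have e2 : n * n * (2 + (5 * Qb + 8)) ≤ 10 * (n ^ 2 * W) := by
      rw [e0]
      calc n ^ 2 * (2 + (5 * Qb + 8)) ≤ n ^ 2 * (10 * W) := Nat.mul_le_mul_left _ (by omega)
        _ = 10 * (n ^ 2 * W) := by ring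
    have e3 : 5 * (n ^ 2 * (Qb + Qb + p + 2)) ≤ 10 * (n ^ 2 * W) := by
      calc 5 * (n ^ 2 * (Qb + Qb + p + 2)) ≤ 5 * (n ^ 2 * (2 * W)) :=
            Nat.mul_le_mul_left _ (Nat.mul_le_mul_left _ (by omega))
        _ = 10 * (n ^ 2 * W) := by ring
    have e4 : 5 * (n ^ 2 * (Qb + 1 + (Qb + 1) + p + 2)) ≤ 10 * (n ^ 2 * W) := by
      calc 5 * (n ^ 2 * (Qb + 1 + (Qb + 1) + p + 2)) ≤ 5 * (n ^ 2 * (2 * W)) :=
            Nat.mul_le_mul_left _ (Nat.mul_le_mul_left _ (by omega))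
        _ = 10 * (n ^ 2 * W) := by ring
    have e5 : n * n * (5 * (p + Qb + 1) + 13) ≤ 14 * (n ^ 2 * W) := by
      rw [e0]
      calc n ^ 2 * (5 * (p + Qb + 1) + 13) ≤ n ^ 2 * (14 * W) := Nat.mul_le_mul_left _ (by omega)
        _ = 14 * (n ^ 2 * W) := by ring
    have e6 : n * n * (5 * (p + Qb + 3) + 9) ≤ 17 * (n ^ 2 * W) := by
      rw [e0]
      calc n ^ 2 * (5 * (p + Qb + 3) + 9) ≤ n ^ 2 * (17 * W) := Nat.mul_le_mul_left _ (by omega)
        _ = 17 * (n ^ 2 * W) := by ring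
    have e7 : K * (5 * (n ^ 2 * (Qb + 1 + (Qb + 1) + p + 2)) + 20 * n ^ 2 + 20 * n + 20 +
        n * n * (5 * (p + Qb + 3) + 9)) ≤ K * (87 * (n ^ 2 * W)) :=
      Nat.mul_le_mul_left _ (by omega)
    have e8 : 150 * ((K + 1) * (n ^ 2 * W)) = K * (150 * (n ^ 2 * W)) + 150 * (n ^ 2 * W) := by ring
    have e9 : K * (87 * (n ^ 2 * W)) ≤ K * (150 * (n ^ 2 * W)) :=
      Nat.mul_le_mul_left _ (by omega)
    rw [e8]
    omega
  · rintro f (hf | hf | hf)
    · exact Or.inl (Or.inl hf)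
    · exact Or.inl (Or.inr hf)
    · exact Or.inr hf

/-- one step of the iteration -/
theorem one_iter (hn0 : 1 ≤ n) (x0 : X → Fin n → ℝ) (hS : ent A ⊆ S) (hSb : entv b ⊆ S)
    (hP : Pc X (Qb + sc) ⊆ S) (hZ : ent (fun x => Zf sc Qb (A x)) ⊆ S)
    (hY : ∀ k < K, ent (fun x => Yf sc Qb (A x) k) ⊆ S) (hx : entv x0 ⊆ S) :
    Cmp S (10 * ((K + 3) * n ^ 2)) (entv fun x => fun i => x0 x i +
      zf sc Qb (A x) (fun i => b x i - ∑ j, A x i j * x0 x j) K i) := by
  set r : X → Fin n → ℝ := fun x i => b x i - ∑ j, A x i j * x0 x j with hr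
  have c1 : Cmp S (n * (2 * n + 4)) (entv r) := by
    refine Cmp.mapV fun i => ?_
    have h1 := C1.sum (S := S) (T := 1) (f := fun j : Fin n => fun x => A x i j * x0 x j) univ
      (fun j _ => (C1.of_mem (hS (mem_ent A i j))).mul (C1.of_mem (hx (mem_entv x0 j))))
    rw [card_univ, Fintype.card_fin] at h1
    exact ((C1.of_mem (hSb (mem_entv b i))).subt h1).le (by omega)
  have c2 : Cmp (S ∪ entv r) (n * (2 * n + 4)) (entv fun x => zf sc Qb (A x) (r x) 0) := by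
    refine Cmp.mapV fun i => ?_
    have h1 := C1.sum (S := S ∪ entv r) (T := 1)
      (f := fun j : Fin n => fun x => Zf sc Qb (A x) j i * r x j) univ
      (fun j _ => (C1.of_mem (Or.inl (hZ (mem_ent _ j i)))).mul
        (C1.of_mem (Or.inr (mem_entv r j))))
    rw [card_univ, Fintype.card_fin] at h1
    exact (h1.div (C1.const (X := X) (T := Qb + sc) (t := Qb + sc)
      (hP.trans Set.subset_union_left) le_rfl)).le (by omega)
  have c3 : ∀ k < K, Cmp ((S ∪ entv r) ∪ entv fun x => zf sc Qb (A x) (r x) k)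
      (n * (2 * n + 5)) (entv fun x => zf sc Qb (A x) (r x) (k + 1)) := by
    intro k hk
    refine Cmp.mapV fun i => ?_
    set S' := ((S ∪ entv r) ∪ entv fun x => zf sc Qb (A x) (r x) k) with hS'
    have hSS : S ⊆ S' := Set.subset_union_left.trans Set.subset_union_left
    have h1 := C1.sum (S := S') (T := 1)
      (f := fun j : Fin n => fun x => Yf sc Qb (A x) k i j * zf sc Qb (A x) (r x) k j) univ
      (fun j _ => (C1.of_mem (hSS (hY k hk (mem_ent _ i j)))).mul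
        (C1.of_mem (Or.inr (mem_entv (fun x => zf sc Qb (A x) (r x) k) j))))
    rw [card_univ, Fintype.card_fin] at h1
    exact ((C1.of_mem (Or.inr (mem_entv (fun x => zf sc Qb (A x) (r x) k) i))).add
      (h1.div (C1.const (X := X) (T := Qb + sc) (t := Qb) (hP.trans hSS) (by omega)))).le
      (by omega)
  have c4 := Cmp.iterB c2 K c3
  have c5 := c1.trans c4
  have c6 : Cmp (S ∪ (entv r ∪ ⋃ k ∈ Finset.range (K + 1), entv fun x => zf sc Qb (A x) (r x) k))
      (n * 1) (entv fun x => fun i => x0 x i + zf sc Qb (A x) (r x) K i) := by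
    refine Cmp.mapV fun i => ?_
    have h1 := (C1.of_mem (S := S ∪ (entv r ∪ ⋃ k ∈ Finset.range (K + 1),
      entv fun x => zf sc Qb (A x) (r x) k)) (f := fun x => x0 x i)
      (Or.inl (hx (mem_entv x0 i)))).add
      (C1.of_mem (f := fun x => zf sc Qb (A x) (r x) K i) (Or.inr (Or.inr (by
        simp only [Set.mem_iUnion, Finset.mem_range, exists_prop]
        exact ⟨K, by omega, mem_entv (fun x => zf sc Qb (A x) (r x) K) i⟩))))
    exact h1
  have c7 := c5.trans c6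
  refine (c7.le ?_).sub Set.subset_union_right
  have hnn : n ≤ n ^ 2 := by nlinarith
  have e1 : n * (2 * n + 4) ≤ 6 * n ^ 2 := by nlinarith
  have e2 : K * (n * (2 * n + 5)) ≤ K * (7 * n ^ 2) := Nat.mul_le_mul_left _ (by nlinarith)
  have e3 : 10 * ((K + 3) * n ^ 2) = K * (7 * n ^ 2) + 3 * (K * n ^ 2) + 30 * n ^ 2 := by ring
  rw [e3]
  have e4 : 0 ≤ K * n ^ 2 := Nat.zero_le _
  omega

/-- **The cost of `m` steps.** -/
theorem total (hn0 : 1 ≤ n) (hn : n ≤ 2 ^ p) (hK : K = 2 * (c + sc + 1) + 1)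
    (hQ : Qb = 4 * K + p + 3) (hA : ∀ x, Good sc c (A x)) (hS : ent A ⊆ S) (hSb : entv b ⊆ S)
    (m : ℕ) :
    Cmp S (150 * ((K + 3) * (n ^ 2 * (Qb + p + sc + 2 + m))))
      (entv fun x => xf sc Qb K (A x) (b x) m) := by
  have c1 := setup hn0 hn hK hQ hA hS
  set G : Set (X → ℝ) := (Pc X (Qb + sc) ∪ (ent (fun x => Zf sc Qb (A x)) ∪
        ⋃ k ∈ Finset.range (K + 1), ent (fun x => Yf sc Qb (A x) k))) with hG
  have c2 : Cmp (S ∪ G) (n * 3) (entv fun x => xf sc Qb K (A x) (b x) 0) :=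
    Cmp.mapV fun i => C1.zero
  have c3 : ∀ k < m, Cmp ((S ∪ G) ∪ entv fun x => xf sc Qb K (A x) (b x) k)
      (10 * ((K + 3) * n ^ 2)) (entv fun x => xf sc Qb K (A x) (b x) (k + 1)) := by
    intro k _
    have hSS : S ⊆ ((S ∪ G) ∪ entv fun x => xf sc Qb K (A x) (b x) k) :=
      Set.subset_union_left.trans Set.subset_union_left
    have hGS : G ⊆ ((S ∪ G) ∪ entv fun x => xf sc Qb K (A x) (b x) k) :=
      Set.subset_union_right.trans Set.subset_union_left
    refine one_iter hn0 (fun x => xf sc Qb K (A x) (b x) k) (hS.trans hSS)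
      (hSb.trans hSS) ?_ ?_ ?_ Set.subset_union_right
    · exact (Set.subset_union_left).trans hGS
    · exact (Set.subset_union_left.trans Set.subset_union_right).trans hGS
    · intro j hj f hf
      refine hGS (Or.inr (Or.inr ?_))
      simp only [Set.mem_iUnion, Finset.mem_range, exists_prop]
      exact ⟨j, by omega, hf⟩
  have c4 := c1.trans (Cmp.iterB c2 m c3)
  refine (c4.le ?_).sub ?_
  · set W := Qb + p + sc + 2 with hW
    have e1 : 150 * ((K + 3) * (n ^ 2 * (W + m))) = 150 * ((K + 1) * (n ^ 2 * W)) +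
      (300 * (n ^ 2 * W) + 150 * (m * ((K + 3) * n ^ 2))) := by ring
    rw [e1]
    have hnn : n ≤ n ^ 2 := by nlinarith
    have hnw : n ^ 2 ≤ n ^ 2 * W := Nat.le_mul_of_pos_right _ (by omega)
    have e2 : m * (10 * ((K + 3) * n ^ 2)) = 10 * (m * ((K + 3) * n ^ 2)) := by ring
    rw [e2]
    omega
  · intro f hf
    right
    simp only [Set.mem_iUnion, Finset.mem_range, exists_prop]
    exact ⟨m, by omega, hf⟩

end cost

end Pool.Agent.L5helper99.RL
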