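import Pool.Agent.L5helper99.RL.Cost

/-!
# Machines with real registers
-/

set_option autoImplicit false

namespace Pool.Agent.L5helper99.RL

/-- The operations, applied to the contents of the registers with the numbers `u` and `v`: the
constant one, the four arithmetic operations (division by zero gives zero), and the comparison with
result `1` (if `u ≤ v`) or `0` (otherwise). -/
inductive Op
  | one
  | add (u v : ℕ)
  | sub (u v : ℕ)
  | mul (u v : ℕ)
  | div (u v : ℕ)
  | le (u v : ℕ)

/-- The result of an operation if the registers contain `r`. -/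
noncomputable def Op.eval (r : ℕ → ℝ) : Op → ℝ
  | .one => 1
  | .add u v => r u + r v
  | .sub u v => r u - r v
  | .mul u v => r u * r v
  | .div u v => r u / r v
  | .le u v => if r u ≤ r v then 1 else 0

/-- The instructions: put the result of an operation into register `d`; compare the registers `u`
and `v` and go to instruction number `l` if `u ≤ v` (and to the following instruction otherwise). -/
inductive Instr
  | set (d : ℕ) (o : Op)
  | jump (u v l : ℕ)

/-- One step of the machine with the program `P`. A state consists of the number of the next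
instruction (beginning with `0`) and of the contents of the registers. If there is no instruction
with this number, then the machine has halted and nothing happens. -/
noncomputable def step (P : List Instr) (s : ℕ × (ℕ → ℝ)) : ℕ × (ℕ → ℝ) :=
  match P[s.1]? with
  | none => s
  | some (.set d o) => (s.1 + 1, Function.update s.2 d (o.eval s.2))
  | some (.jump u v l) => (if s.2 u ≤ s.2 v then l else s.1 + 1, s.2)

/-! ### Straight-line programs -/

/-- the effect of a list of assignments -/
noncomputable def run : List (ℕ × Op) → (ℕ → ℝ) → (ℕ → ℝ)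
  | [], r => r
  | p :: c, r => run c (Function.update r p.1 (p.2.eval r))

/-- the list of instructions -/
def code (c : List (ℕ × Op)) : List Instr := c.map fun p => .set p.1 p.2

lemma code_append (c c' : List (ℕ × Op)) : code (c ++ c') = code c ++ code c' := by
  simp [code]

lemma code_length (c : List (ℕ × Op)) : (code c).length = c.length := by simp [code]

lemma run_append (c c' : List (ℕ × Op)) (r : ℕ → ℝ) : run (c ++ c') r = run c' (run c r) := by
  induction c generalizing r with
  | nil => rfl
  | cons p c ih => exact ih _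

lemma step_set {P pre post : List Instr} {d : ℕ} {o : Op} (h : P = pre ++ .set d o :: post)
    (r : ℕ → ℝ) : step P (pre.length, r) = (pre.length + 1, Function.update r d (o.eval r)) := by
  subst h
  unfold step
  simp

lemma step_jump {P pre post : List Instr} {u v l : ℕ} (h : P = pre ++ .jump u v l :: post)
    (r : ℕ → ℝ) : step P (pre.length, r) = (if r u ≤ r v then l else pre.length + 1, r) := by
  subst h
  unfold step
  simp

lemma step_run {P pre post : List Instr} (c : List (ℕ × Op)) (h : P = pre ++ (code c ++ post))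
    (r : ℕ → ℝ) : (step P)^[c.length] (pre.length, r) = (pre.length + c.length, run c r) := by
  induction c generalizing pre r with
  | nil => rfl
  | cons p c ih =>
    rw [List.length_cons, Function.iterate_succ_apply, step_set (P := P) (pre := pre)
      (post := code c ++ post) (d := p.1) (o := p.2) (by rw [h]; rfl)]
    have h2 := ih (pre := pre ++ [.set p.1 p.2]) (by rw [h]; simp [code])
      (Function.update r p.1 (p.2.eval r))
    rw [List.length_append, List.length_singleton] at h2
    rw [h2]
    simp only [run]
    congr 1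
    omega

/-! ### From derivations to programs -/

variable {X : Type}

theorem transfer {S : Set (X → ℝ)} {L : List (X → ℝ)} (h : Der S L) {N : ℕ} {ok : ℕ → Prop}
    (hok : ∀ u, N ≤ u → ok u) (σ : X → ℕ → ℝ)
    (hS : ∀ f ∈ S, ∃ u, u < N ∧ ok u ∧ ∀ x, σ x u = f x) :
    ∃ (c : List (ℕ × Op)) (τ : X → ℕ → ℝ), c.length = L.length ∧
      (∀ x, ∀ u, u < N → τ x u = σ x u) ∧
      (∀ f, f ∈ S ∪ {g | g ∈ L} → ∃ u, u < N + L.length ∧ ok u ∧ ∀ x, τ x u = f x) ∧
      ∀ x r, (∀ u, u < N → r u = σ x u) → ∀ u, u < N + L.length → run c r u = τ x u := by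
  induction h with
  | nil =>
    refine ⟨[], σ, rfl, fun _ _ _ => rfl, ?_, fun x r hr u hu => hr u (by simpa using hu)⟩
    rintro f (hf | hf)
    · obtain ⟨u, h1, h2⟩ := hS f hf
      exact ⟨u, by simpa using h1, h2⟩
    · simp at hf
  | @cons f L hL hf ih =>
    obtain ⟨c, τ, hc, h1, h2, h3⟩ := ih
    obtain ⟨o, ho⟩ : ∃ o : Op, ∀ x r, (∀ u, u < N + L.length → r u = τ x u) →
        o.eval r = f x := by
      cases hf with
      | one => exact ⟨.one, fun x r _ => rfl⟩
      | add hf hg =>
        obtain ⟨u, hu, -, hu'⟩ := h2 _ hf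
        obtain ⟨v, hv, -, hv'⟩ := h2 _ hg
        exact ⟨.add u v, fun x r hr => by simp only [Op.eval, hr u hu, hr v hv, hu', hv']⟩
      | sub hf hg =>
        obtain ⟨u, hu, -, hu'⟩ := h2 _ hf
        obtain ⟨v, hv, -, hv'⟩ := h2 _ hg
        exact ⟨.sub u v, fun x r hr => by simp only [Op.eval, hr u hu, hr v hv, hu', hv']⟩
      | mul hf hg =>
        obtain ⟨u, hu, -, hu'⟩ := h2 _ hf
        obtain ⟨v, hv, -, hv'⟩ := h2 _ hg
        exact ⟨.mul u v, fun x r hr => by simp only [Op.eval, hr u hu, hr v hv, hu', hv']⟩
      | div hf hg =>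
        obtain ⟨u, hu, -, hu'⟩ := h2 _ hf
        obtain ⟨v, hv, -, hv'⟩ := h2 _ hg
        exact ⟨.div u v, fun x r hr => by simp only [Op.eval, hr u hu, hr v hv, hu', hv']⟩
      | le hf hg =>
        obtain ⟨u, hu, -, hu'⟩ := h2 _ hf
        obtain ⟨v, hv, -, hv'⟩ := h2 _ hg
        exact ⟨.le u v, fun x r hr => by simp only [Op.eval, hr u hu, hr v hv, hu', hv']⟩
    refine ⟨c ++ [(N + L.length, o)], fun x => Function.update (τ x) (N + L.length) (f x),
      by simp [hc], fun x u hu => ?_, ?_, ?_⟩
    · dsimp only
      rw [Function.update_of_ne (by omega)]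
      exact h1 x u hu
    · rintro g (hg | hg)
      · obtain ⟨u, hu, hu', hu''⟩ := h2 g (Or.inl hg)
        refine ⟨u, by rw [List.length_cons]; omega, hu', fun x => ?_⟩
        dsimp only
        rw [Function.update_of_ne (by omega)]
        exact hu'' x
      · rcases List.mem_cons.1 hg with rfl | hg
        · refine ⟨N + L.length, by rw [List.length_cons]; omega, hok _ (by omega), fun x => ?_⟩
          dsimp only
          rw [Function.update_self]
        · obtain ⟨u, hu, hu', hu''⟩ := h2 g (Or.inr hg)
          refine ⟨u, by rw [List.length_cons]; omega, hu', fun x => ?_⟩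
          dsimp only
          rw [Function.update_of_ne (by omega)]
          exact hu'' x
    · intro x r hr u hu
      rw [run_append]
      have h4 := h3 x r hr
      simp only [run]
      rw [ho x (run c r) h4]
      rcases eq_or_ne u (N + L.length) with rfl | hne
      · rw [Function.update_self, Function.update_self]
      · rw [Function.update_of_ne hne, Function.update_of_ne hne]
        rw [List.length_cons] at hu
        exact h4 u (by omega)

/-- the same for `Cmp` -/
theorem Cmp.program {S F : Set (X → ℝ)} {T : ℕ} (h : Cmp S T F) {N : ℕ} {ok : ℕ → Prop}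
    (hok : ∀ u, N ≤ u → ok u) (σ : X → ℕ → ℝ)
    (hS : ∀ f ∈ S, ∃ u, u < N ∧ ok u ∧ ∀ x, σ x u = f x) :
    ∃ (c : List (ℕ × Op)) (τ : X → ℕ → ℝ) (N' : ℕ), c.length ≤ T ∧ N ≤ N' ∧
      (∀ x, ∀ u, u < N → τ x u = σ x u) ∧
      (∀ f, f ∈ S ∪ F → ∃ u, u < N' ∧ ok u ∧ ∀ x, τ x u = f x) ∧
      ∀ x r, (∀ u, u < N → r u = σ x u) → ∀ u, u < N' → run c r u = τ x u := by
  obtain ⟨L, h1, h2, h3⟩ := h
  obtain ⟨c, τ, e1, e2, e3, e4⟩ := transfer h1 hok σ hS
  exact ⟨c, τ, N + L.length, by omega, by omega, e2,
    fun f hf => e3 f (hf.elim Or.inl fun hf => h3 hf), e4⟩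

/-! ### Copying -/

/-- copy the registers `src 0, …, src (m - 1)` to `d, …, d + m - 1`, register `z` contains `0` -/
def copy (d : ℕ) (src : ℕ → ℕ) (z : ℕ) : ℕ → List (ℕ × Op)
  | 0 => []
  | m + 1 => copy d src z m ++ [(d + m, .add (src m) z)]

lemma copy_length (d : ℕ) (src : ℕ → ℕ) (z m : ℕ) : (copy d src z m).length = m := by
  induction m with
  | zero => rfl
  | succ m ih => simp [copy, ih]

lemma copy_run {d : ℕ} {src : ℕ → ℕ} {z M : ℕ} (hsrc : ∀ i < M, src i < d ∨ d + M ≤ src i)
    (hz : z < d ∨ d + M ≤ z) {r : ℕ → ℝ} (hz0 : r z = 0) (m : ℕ) (hm : m ≤ M) :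
    (∀ i < m, run (copy d src z m) r (d + i) = r (src i)) ∧
      ∀ u, (u < d ∨ d + m ≤ u) → run (copy d src z m) r u = r u := by
  induction m with
  | zero => exact ⟨fun i hi => absurd hi (by omega), fun u _ => rfl⟩
  | succ m ih =>
    obtain ⟨h1, h2⟩ := ih (by omega)
    simp only [copy, run_append, run]
    refine ⟨fun i hi => ?_, fun u hu => ?_⟩
    · rcases Nat.lt_succ_iff_lt_or_eq.1 hi with h | h
      · rw [Function.update_of_ne (by omega)]
        exact h1 i h
      · subst h
        rw [Function.update_self]
        simp only [Op.eval]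
        rw [h2 z (by omega), hz0, add_zero, h2 _ (by have := hsrc i (by omega); omega)]
    · rw [Function.update_of_ne (by omega)]
      exact h2 u (by omega)

end Pool.Agent.L5helper99.RL
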