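import Pool.Agent.L5helper99.RL.Bits

/-!
# Products of bounded integer matrices, packed into one real number
-/

set_option autoImplicit false

open Finset

namespace Pool.Agent.L5helper99.RL

variable {X : Type}

lemma pack_lt (L s : ℕ) (D : ℕ → ℝ) (hD : ∀ t < s, D t ≤ 2 ^ L - 1) :
    ∑ t ∈ range s, D t * 2 ^ (t * L) ≤ 2 ^ (s * L) - 1 := by
  induction s with
  | zero => simp
  | succ s ih =>
    rw [sum_range_succ]
    have h1 := ih fun t ht => hD t (by omega)
    have h2 := hD s (by omega)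
    have h3 : (0 : ℝ) < 2 ^ (s * L) := by positivity
    have h4 : (2 : ℝ) ^ ((s + 1) * L) = 2 ^ L * 2 ^ (s * L) := by
      rw [add_mul, one_mul, pow_add, mul_comm]
    rw [h4]
    nlinarith [mul_le_mul_of_nonneg_right h2 h3.le]

lemma pack_tail (L s S : ℕ) (D : ℕ → ℝ) (hs : s ≤ S) (hz : ∀ t < S, ∃ z : ℤ, D t = z) :
    ∃ z : ℤ, ∑ t ∈ range S, D t * 2 ^ (t * L) =
      ∑ t ∈ range s, D t * 2 ^ (t * L) + 2 ^ (s * L) * z := by
  induction S, hs using Nat.le_induction with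
  | base => exact ⟨0, by simp⟩
  | succ S hs ih =>
    obtain ⟨z, h⟩ := ih fun t ht => hz t (by omega)
    obtain ⟨y, hy⟩ := hz S (by omega)
    refine ⟨z + y * 2 ^ ((S - s) * L), ?_⟩
    rw [sum_range_succ, h, hy]
    have h4 : (2 : ℝ) ^ (S * L) = 2 ^ (s * L) * 2 ^ ((S - s) * L) := by
      rw [← pow_add, ← add_mul, Nat.add_sub_cancel' hs]
    push_cast
    rw [h4]
    ring

lemma pack_rem (L s S : ℕ) (D : ℕ → ℝ) (hs : s ≤ S) (hz : ∀ t < S, ∃ z : ℤ, D t = z)
    (h0 : ∀ t < S, 0 ≤ D t) (h1 : ∀ t < S, D t ≤ 2 ^ L - 1) :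
    rem (s * L) (∑ t ∈ range S, D t * 2 ^ (t * L)) = ∑ t ∈ range s, D t * 2 ^ (t * L) := by
  obtain ⟨z, h⟩ := pack_tail L s S D hs hz
  rw [h, rem_add, rem_top]
  · exact sum_nonneg fun t ht => mul_nonneg (h0 t (by rw [mem_range] at ht; omega)) (by positivity)
  · have := pack_lt L s D fun t ht => h1 t (by omega)
    linarith

lemma digit (L s S : ℕ) (D : ℕ → ℝ) (hs : s < S) (hz : ∀ t < S, ∃ z : ℤ, D t = z)
    (h0 : ∀ t < S, 0 ≤ D t) (h1 : ∀ t < S, D t ≤ 2 ^ L - 1) :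
    D s = (rem ((s + 1) * L) (∑ t ∈ range S, D t * 2 ^ (t * L)) -
      rem (s * L) (∑ t ∈ range S, D t * 2 ^ (t * L))) / 2 ^ (s * L) := by
  rw [pack_rem L (s + 1) S D (by omega) hz h0 h1, pack_rem L s S D (by omega) hz h0 h1,
    sum_range_succ]
  have h3 : (2 : ℝ) ^ (s * L) ≠ 0 := by positivity
  field_simp
  ring

/-- all products of integer matrices with bounded entries -/
theorem Cmp.matmul {n : ℕ} {S : Set (X → ℝ)} {a b : Fin n → Fin n → X → ℝ}
    (ha : ∀ i k, a i k ∈ S) (hb : ∀ i k, b i k ∈ S) {u v p : ℕ} (hn : n ≤ 2 ^ p)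
    (hza : ∀ i k x, ∃ z : ℤ, a i k x = z) (hzb : ∀ i k x, ∃ z : ℤ, b i k x = z)
    (hua : ∀ i k x, |a i k x| ≤ 2 ^ u) (hvb : ∀ i k x, |b i k x| ≤ 2 ^ v) :
    Cmp S (5 * (n ^ 2 * (u + v + p + 2)) + 20 * n ^ 2 + 20 * n + 20)
      (Set.range fun ij : Fin n × Fin n => fun x => ∑ k, a ij.1 k x * b k ij.2 x) := by
  classical
  set L := u + v + p + 2 with hL
  set c : Fin n → Fin n → X → ℝ := fun i j x => ∑ k, a i k x * b k j x with hc
  -- bounds
  have hcz : ∀ i j x, ∃ z : ℤ, c i j x = z := by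
    intro i j x
    choose za hza' using fun k => hza i k x
    choose zb hzb' using fun k => hzb k j x
    refine ⟨∑ k, za k * zb k, ?_⟩
    simp only [hc, hza', hzb']
    push_cast
    rfl
  have hcb : ∀ i j x, |c i j x| ≤ 2 ^ (u + v + p) := by
    intro i j x
    calc |c i j x| ≤ ∑ k : Fin n, |a i k x * b k j x| := abs_sum_le_sum_abs _ _
      _ ≤ ∑ _k : Fin n, (2 : ℝ) ^ (u + v) := by
          refine sum_le_sum fun k _ => ?_
          rw [abs_mul, pow_add]
          exact mul_le_mul (hua i k x) (hvb k j x) (abs_nonneg _) (by positivity)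
      _ = n * 2 ^ (u + v) := by simp
      _ ≤ 2 ^ p * 2 ^ (u + v) := by
          refine mul_le_mul_of_nonneg_right ?_ (by positivity)
          exact_mod_cast hn
      _ = 2 ^ (u + v + p) := by rw [← pow_add, add_comm p]
  -- digits
  set D : X → ℕ → ℝ := fun x t =>
    if h : t < n * n then c (finProdFinEquiv.symm ⟨t, h⟩).2 (finProdFinEquiv.symm ⟨t, h⟩).1 x +
      2 ^ (L - 1) else 0 with hD
  have h2L : (2 : ℝ) ^ L = 2 * 2 ^ (L - 1) := by
    rw [← pow_succ', show L - 1 + 1 = L by omega]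
  have hLb : (2 : ℝ) ^ (u + v + p) ≤ 2 ^ (L - 1) - 1 := by
    have h1 : (2 : ℝ) ^ (L - 1) = 2 * 2 ^ (u + v + p) := by
      rw [← pow_succ']; congr 1
    have h2 : (1 : ℝ) ≤ 2 ^ (u + v + p) := one_le_pow₀ (by norm_num)
    rw [h1]; linarith
  have hDz : ∀ x, ∀ t < n * n, ∃ z : ℤ, D x t = z := by
    intro x t ht
    simp only [hD, dif_pos ht]
    obtain ⟨z, hz⟩ := hcz (finProdFinEquiv.symm ⟨t, ht⟩).2 (finProdFinEquiv.symm ⟨t, ht⟩).1 x
    exact ⟨z + 2 ^ (L - 1), by rw [hz]; push_cast; ring⟩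
  have hD0 : ∀ x, ∀ t < n * n, 0 ≤ D x t := by
    intro x t ht
    simp only [hD, dif_pos ht]
    have := (abs_le.1 (hcb (finProdFinEquiv.symm ⟨t, ht⟩).2 (finProdFinEquiv.symm ⟨t, ht⟩).1 x)).1
    linarith
  have hD1 : ∀ x, ∀ t < n * n, D x t ≤ 2 ^ L - 1 := by
    intro x t ht
    simp only [hD, dif_pos ht]
    have := (abs_le.1 (hcb (finProdFinEquiv.symm ⟨t, ht⟩).2 (finProdFinEquiv.symm ⟨t, ht⟩).1 x)).2
    linarith
  -- the packed number
  set α : Fin n → X → ℝ := fun k x => ∑ i : Fin n, a i k x * 2 ^ ((i : ℕ) * L) with hα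
  set β : Fin n → X → ℝ := fun k x => ∑ j : Fin n, b k j x * 2 ^ ((n * (j : ℕ)) * L) with hβ
  set κ : X → ℝ := fun _ => ∑ t ∈ Finset.range (n * n), (2 : ℝ) ^ (t * L + (L - 1)) with hκ
  set N : X → ℝ := fun x => (∑ k, α k x * β k x) + κ x with hN
  have hNe : ∀ x, N x = ∑ t ∈ Finset.range (n * n), D x t * 2 ^ (t * L) := by
    intro x
    have e1 : ∑ t ∈ Finset.range (n * n), D x t * 2 ^ (t * L) =
        ∑ ij : Fin n × Fin n, (c ij.2 ij.1 x + 2 ^ (L - 1)) *
          2 ^ (((ij.2 : ℕ) + n * (ij.1 : ℕ)) * L) := by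
      rw [← Fin.sum_univ_eq_sum_range (fun t => D x t * 2 ^ (t * L)) (n * n)]
      refine (Fintype.sum_equiv finProdFinEquiv _ _ fun ij => ?_).symm
      have h1 : ((finProdFinEquiv ij : Fin (n * n)) : ℕ) = (ij.2 : ℕ) + n * (ij.1 : ℕ) := rfl
      rw [h1]
      have h2 : D x ((ij.2 : ℕ) + n * (ij.1 : ℕ)) = c ij.2 ij.1 x + 2 ^ (L - 1) := by
        have h3 : (ij.2 : ℕ) + n * (ij.1 : ℕ) < n * n := by
          rw [← h1]; exact (finProdFinEquiv ij).2
        simp only [hD, dif_pos h3]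
        have h4 : (⟨(ij.2 : ℕ) + n * (ij.1 : ℕ), h3⟩ : Fin (n * n)) = finProdFinEquiv ij :=
          Fin.ext h1.symm
        rw [h4, Equiv.symm_apply_apply]
      rw [h2]
    have e2 : κ x = ∑ ij : Fin n × Fin n, 2 ^ (L - 1) *
          2 ^ (((ij.2 : ℕ) + n * (ij.1 : ℕ)) * L) := by
      simp only [hκ]
      rw [← Fin.sum_univ_eq_sum_range (fun t => (2 : ℝ) ^ (t * L + (L - 1))) (n * n)]
      refine (Fintype.sum_equiv finProdFinEquiv _ _ fun ij => ?_).symm
      have h1 : ((finProdFinEquiv ij : Fin (n * n)) : ℕ) = (ij.2 : ℕ) + n * (ij.1 : ℕ) := rfl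
      rw [h1, pow_add, mul_comm]
    have e3 : ∑ k, α k x * β k x = ∑ ij : Fin n × Fin n, c ij.2 ij.1 x *
          2 ^ (((ij.2 : ℕ) + n * (ij.1 : ℕ)) * L) := by
      have f1 : ∀ i j k : Fin n, a i k x * 2 ^ ((i : ℕ) * L) * (b k j x * 2 ^ (n * (j : ℕ) * L)) =
          a i k x * b k j x * 2 ^ (((i : ℕ) + n * (j : ℕ)) * L) := by
        intro i j k
        rw [add_mul, pow_add]
        ring
      calc ∑ k, α k x * β k x = ∑ k : Fin n, ∑ i : Fin n, ∑ j : Fin n,
            a i k x * b k j x * 2 ^ (((i : ℕ) + n * (j : ℕ)) * L) := by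
            refine sum_congr rfl fun k _ => ?_
            simp only [hα, hβ]
            rw [sum_mul_sum]
            exact sum_congr rfl fun i _ => sum_congr rfl fun j _ => f1 i j k
        _ = ∑ i : Fin n, ∑ k : Fin n, ∑ j : Fin n,
            a i k x * b k j x * 2 ^ (((i : ℕ) + n * (j : ℕ)) * L) := sum_comm
        _ = ∑ i : Fin n, ∑ j : Fin n, ∑ k : Fin n,
            a i k x * b k j x * 2 ^ (((i : ℕ) + n * (j : ℕ)) * L) :=
            sum_congr rfl fun i _ => sum_comm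
        _ = ∑ j : Fin n, ∑ i : Fin n, ∑ k : Fin n,
            a i k x * b k j x * 2 ^ (((i : ℕ) + n * (j : ℕ)) * L) := sum_comm
        _ = ∑ ij : Fin n × Fin n, c ij.2 ij.1 x *
              2 ^ (((ij.2 : ℕ) + n * (ij.1 : ℕ)) * L) := by
            rw [Fintype.sum_prod_type]
            refine sum_congr rfl fun j _ => sum_congr rfl fun i _ => ?_
            simp only [hc]
            rw [sum_mul]
    rw [hN]
    simp only
    rw [e1, e2, e3, ← sum_add_distrib]
    exact sum_congr rfl fun ij _ => by ring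
  have hN0 : ∀ x, 0 ≤ N x := by
    intro x
    rw [hNe x]
    exact sum_nonneg fun t ht => mul_nonneg (hD0 x t (mem_range.1 ht)) (by positivity)
  have hN1 : ∀ x, N x < 2 ^ (n * n * L) := by
    intro x
    rw [hNe x]
    have := pack_lt L (n * n) (D x) (hD1 x)
    linarith
  -- the cost
  set P : Set (X → ℝ) := {f : X → ℝ | ∃ t ≤ n * n * L, f = fun _ => (2 : ℝ) ^ t} with hP
  have c1 : Cmp S (1 + n * n * L * 1) P := Cmp.pow2 _
  have hPm : ∀ {S' : Set (X → ℝ)} (t : ℕ), P ⊆ S' → t ≤ n * n * L →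
      C1 S' 0 (fun _ => (2 : ℝ) ^ t) := fun t h1 h2 => C1.of_mem (h1 ⟨t, h2, rfl⟩)
  have hle1 : ∀ i : Fin n, (i : ℕ) * L ≤ n * n * L := by
    intro i
    refine Nat.mul_le_mul_right _ ?_
    nlinarith [i.2]
  have hle2 : ∀ j : Fin n, n * (j : ℕ) * L ≤ n * n * L := by
    intro j
    refine Nat.mul_le_mul_right _ ?_
    nlinarith [j.2]
  have c2 : Cmp (S ∪ P) (n * (n * (1 + 1) + 3)) (Set.range α) := by
    have := Cmp.range (S := S ∪ P) (T := n * (1 + 1) + 3) (f := α) fun k => by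
      have h1 := C1.sum (S := S ∪ P) (T := 1)
        (f := fun i : Fin n => fun x => a i k x * 2 ^ ((i : ℕ) * L)) univ (fun i _ =>
          (C1.of_mem (Or.inl (ha i k))).mul (hPm _ Set.subset_union_right (hle1 i)))
      rw [card_univ, Fintype.card_fin] at h1
      exact h1
    rwa [Fintype.card_fin] at this
  have c3 : Cmp (S ∪ P) (n * (n * (1 + 1) + 3)) (Set.range β) := by
    have := Cmp.range (S := S ∪ P) (T := n * (1 + 1) + 3) (f := β) fun k => by
      have h1 := C1.sum (S := S ∪ P) (T := 1)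
        (f := fun j : Fin n => fun x => b k j x * 2 ^ (n * (j : ℕ) * L)) univ (fun j _ =>
          (C1.of_mem (Or.inl (hb k j))).mul (hPm _ Set.subset_union_right (hle2 j)))
      rw [card_univ, Fintype.card_fin] at h1
      exact h1
    rwa [Fintype.card_fin] at this
  have hκle : ∀ t < n * n, t * L + (L - 1) ≤ n * n * L := by
    intro t ht
    have : (t + 1) * L ≤ n * n * L := Nat.mul_le_mul_right _ ht
    have h2 : (t + 1) * L = t * L + L := by ring
    omega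
  have c4 : C1 (S ∪ P) (n * n * 1 + 3) κ := by
    have h1 := C1.sum (S := S ∪ P) (T := 0)
        (f := fun t : ℕ => fun _ : X => (2 : ℝ) ^ (t * L + (L - 1))) (Finset.range (n * n)) (fun t ht =>
          (hPm _ Set.subset_union_right (hκle t (mem_range.1 ht))))
    rw [card_range] at h1
    exact h1
  set R : Set (X → ℝ) := P ∪ (Set.range α ∪ Set.range β) with hR
  have c5 : Cmp S (1 + n * n * L * 1 + (n * (n * (1 + 1) + 3) + n * (n * (1 + 1) + 3))) R :=
    c1.trans (c2.union c3)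
  have c6 : C1 (S ∪ R) (n * (1 + 1) + 3 + (n * n * 1 + 3) + 1) N := by
    have h1 := C1.sum (S := S ∪ R) (T := 1) (f := fun k : Fin n => fun x => α k x * β k x) univ
      (fun k _ => (C1.of_mem (Or.inr (Or.inr (Or.inl ⟨k, rfl⟩)))).mul
        (C1.of_mem (Or.inr (Or.inr (Or.inr ⟨k, rfl⟩)))))
    rw [card_univ, Fintype.card_fin] at h1
    exact h1.add (c4.sup (Set.union_subset_union_right _ Set.subset_union_left))
  set Q : Set (X → ℝ) := {f : X → ℝ | ∃ t ≤ n * n * L, f = fun x => RL.rem t (N x)} with hQ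
  have c7 : Cmp (S ∪ R ∪ {N}) (4 * (n * n * L) + 1) Q := Cmp.rem (Or.inr rfl) _ hN0 hN1
  have c8 : Cmp (S ∪ R) (n * (1 + 1) + 3 + (n * n * 1 + 3) + 1 + (4 * (n * n * L) + 1))
      ({N} ∪ Q) := Cmp.trans c6 c7
  have c9 := c5.trans c8
  set W : Set (X → ℝ) := R ∪ ({N} ∪ Q) with hW
  have hPW : P ⊆ S ∪ W := fun f hf => Or.inr (Or.inl (Or.inl hf))
  have hQW : Q ⊆ S ∪ W := fun f hf => Or.inr (Or.inr (Or.inr hf))
  have c10 : Cmp (S ∪ W) (Fintype.card (Fin n × Fin n) * 3)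
      (Set.range fun ij : Fin n × Fin n => fun x => ∑ k, a ij.1 k x * b k ij.2 x) := by
    refine Cmp.range fun ij => ?_
    set s : ℕ := (ij.1 : ℕ) + n * (ij.2 : ℕ) with hs
    have hsn : s < n * n := by
      have h1 : ((finProdFinEquiv (ij.2, ij.1) : Fin (n * n)) : ℕ) =
        (ij.1 : ℕ) + n * (ij.2 : ℕ) := rfl
      rw [hs, ← h1]; exact (finProdFinEquiv (ij.2, ij.1)).2
    have hs1 : (s + 1) * L ≤ n * n * L := Nat.mul_le_mul_right _ hsn
    have hs0 : s * L ≤ n * n * L := Nat.mul_le_mul_right _ hsn.le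
    have hL1 : L - 1 ≤ n * n * L := by
      have := Nat.mul_le_mul_right L (show 1 ≤ n * n by omega)
      omega
    have h1 := (((C1.of_mem (S := S ∪ W) (f := fun x => RL.rem ((s + 1) * L) (N x))
      (hQW ⟨_, hs1, rfl⟩)).subt (C1.of_mem (f := fun x => RL.rem (s * L) (N x))
      (hQW ⟨_, hs0, rfl⟩))).div (hPm (s * L) hPW hs0)).subt (hPm (L - 1) hPW hL1)
    have e : (fun x => ∑ k, a ij.1 k x * b k ij.2 x) = fun x =>
        (RL.rem ((s + 1) * L) (N x) - RL.rem (s * L) (N x)) / 2 ^ (s * L) - 2 ^ (L - 1) := by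
      funext x
      rw [hNe x, ← digit L s (n * n) (D x) hsn (hDz x) (hD0 x) (hD1 x)]
      simp only [hD, dif_pos hsn]
      have h4 : (⟨s, hsn⟩ : Fin (n * n)) = finProdFinEquiv (ij.2, ij.1) := Fin.ext rfl
      rw [h4, Equiv.symm_apply_apply]
      simp only [hc]
      ring
    rw [e]
    exact h1.le (by norm_num)
  have c11 := c9.trans c10
  refine (c11.le ?_).sub Set.subset_union_right
  rw [Fintype.card_prod, Fintype.card_fin]
  have : n * n = n ^ 2 := by ring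
  rw [this]
  ring_nf
  nlinarith [Nat.zero_le (n ^ 2), Nat.zero_le n]

end Pool.Agent.L5helper99.RL
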