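import Pool.Agent.L5helper99.RL.Mach
import Pool.Agent.L5helper99.RL.IterCost

/-!
# The program
-/

set_option autoImplicit false

open Finset Matrix

namespace Pool.Agent.L5helper99.RL

variable {n : ℕ}

/-- The initial contents of the registers: the entry `A i j` in register `i n + j`, the entry `b i`
in register `n ^ 2 + i`, the number `ε` in register `n ^ 2 + n`, and `0` in all other registers. -/
noncomputable def input (A : Fin n → Fin n → ℝ) (b : Fin n → ℝ) (ε : ℝ) : ℕ → ℝ := fun u =>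
  if h : u < n * n then A (Fin.divNat ⟨u, h⟩) (Fin.modNat ⟨u, h⟩)
  else if h : u - n * n < n then b ⟨u - n * n, h⟩
  else if u = n * n + n then ε else 0

lemma idx_lt (i j : Fin n) : (i : ℕ) * n + j < n * n := by
  calc (i : ℕ) * n + j < (i : ℕ) * n + n := by omega
    _ = (i + 1) * n := by ring
    _ ≤ n * n := Nat.mul_le_mul_right _ (by omega)

lemma input_A (A : Fin n → Fin n → ℝ) (b : Fin n → ℝ) (ε : ℝ) (i j : Fin n) :
    input A b ε ((i : ℕ) * n + j) = A i j := by
  unfold input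
  have hn : 0 < n := (Nat.zero_le _).trans_lt i.2
  rw [dif_pos (idx_lt i j)]
  congr 1
  · congr 1
    apply Fin.ext
    show ((i : ℕ) * n + j) / n = i
    rw [mul_comm, Nat.mul_add_div hn, Nat.div_eq_of_lt j.2, add_zero]
  · apply Fin.ext
    show ((i : ℕ) * n + j) % n = j
    rw [mul_comm, Nat.mul_add_mod, Nat.mod_eq_of_lt j.2]

lemma input_b (A : Fin n → Fin n → ℝ) (b : Fin n → ℝ) (ε : ℝ) (i : Fin n) :
    input A b ε (n * n + i) = b i := by
  unfold input
  rw [dif_neg (by omega), dif_pos (by omega)]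
  congr 1
  apply Fin.ext
  simp

lemma input_eps (A : Fin n → Fin n → ℝ) (b : Fin n → ℝ) (ε : ℝ) :
    input A b ε (n * n + n) = ε := by
  unfold input
  rw [dif_neg (by omega), dif_neg (by omega), if_pos rfl]

lemma input_zero (A : Fin n → Fin n → ℝ) (b : Fin n → ℝ) (ε : ℝ) {u : ℕ} (hu : n * n + n < u) :
    input A b ε u = 0 := by
  unfold input
  rw [dif_neg (by omega), dif_neg (by omega), if_neg (by omega)]

/-- the instances -/
abbrev X1 (n sc c : ℕ) := {x : (Fin n → Fin n → ℝ) × (Fin n → ℝ) × ℝ // Good sc c x.1}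

/-- the instances with a state of the iteration -/
abbrev X2 (n sc c : ℕ) := X1 n sc c × (ℕ → ℝ)

variable {sc c p K Qb : ℕ}

/-- the matrix -/
def A1 (x : X1 n sc c) : Matrix (Fin n) (Fin n) ℝ := x.1.1

/-- the current vector -/
def x0 (y : X2 n sc c) : Fin n → ℝ := fun i => y.2 i

/-- the next state -/
noncomputable def next (sc Qb K : ℕ) (A : Fin n → Fin n → ℝ) (b : Fin n → ℝ) (s : ℕ → ℝ) :
    ℕ → ℝ := fun i =>
  if h : i < n then s i + zf sc Qb A (fun i => b i - ∑ j, A i j * s j) K ⟨i, h⟩ else s n / 2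

/-- the states -/
noncomputable def st (sc Qb K : ℕ) (A : Fin n → Fin n → ℝ) (b : Fin n → ℝ) (m : ℕ) : ℕ → ℝ :=
  fun i => if h : i < n then xf sc Qb K A b m ⟨i, h⟩ else (1 / 2) ^ m

lemma next_st (A : Fin n → Fin n → ℝ) (b : Fin n → ℝ) (m : ℕ) :
    next sc Qb K A b (st sc Qb K A b m) = st sc Qb K A b (m + 1) := by
  funext i
  unfold next st
  by_cases h : i < n
  · rw [dif_pos h, dif_pos h, dif_pos h]
    simp only [xf, Fin.is_lt, dite_true, Fin.eta]
  · rw [dif_neg h, dif_neg h, dif_neg (lt_irrefl n), pow_succ]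
    ring

/-- the given functions -/
def S2 (n sc c Qb K : ℕ) : Set (X2 n sc c → ℝ) :=
  (ent (fun y : X2 n sc c => A1 y.1) ∪ entv (fun y : X2 n sc c => y.1.1.2.1)) ∪
    ((Pc (X2 n sc c) (Qb + sc) ∪ (ent (fun y : X2 n sc c => Zf sc Qb (A1 y.1)) ∪
        ⋃ k ∈ Finset.range (K + 1), ent (fun y : X2 n sc c => Yf sc Qb (A1 y.1) k))) ∪
    (entv (fun y : X2 n sc c => x0 y) ∪ {fun y => y.2 n}))

lemma body_cost (hn0 : 1 ≤ n) (hQ : Qb = 4 * K + p + 3) :
    Cmp (S2 n sc c Qb K) (10 * ((K + 3) * n ^ 2) + 1)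
      (entv (fun y : X2 n sc c => fun i => x0 y i +
        zf sc Qb (A1 y.1) (fun i => y.1.1.2.1 i - ∑ j, A1 y.1 i j * x0 y j) K i) ∪
        {fun y => y.2 n / 2}) := by
  refine Cmp.union (one_iter (Qb := Qb) (K := K) (sc := sc) hn0 (fun y : X2 n sc c => x0 y)
    ?_ ?_ ?_ ?_ ?_ ?_) ?_
  · exact fun f hf => Or.inl (Or.inl hf)
  · exact fun f hf => Or.inl (Or.inr hf)
  · exact fun f hf => Or.inr (Or.inl (Or.inl hf))
  · exact fun f hf => Or.inr (Or.inl (Or.inr (Or.inl hf)))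
  · intro k hk f hf
    refine Or.inr (Or.inl (Or.inr (Or.inr ?_)))
    simp only [Set.mem_iUnion, Finset.mem_range, exists_prop]
    exact ⟨k, by omega, hf⟩
  · exact fun f hf => Or.inr (Or.inr (Or.inl hf))
  · have h1 := (C1.of_mem (S := S2 n sc c Qb K) (f := fun y => y.2 n)
      (Or.inr (Or.inr (Or.inr rfl)))).div (C1.const (X := X2 n sc c) (T := Qb + sc) (t := 1)
      (fun f hf => Or.inr (Or.inl (Or.inl hf))) (by omega))
    simpa [C1] using h1

end Pool.Agent.L5helper99.RL
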